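import Pool.Agent.Lib.MP_ae5b4e_an_TR.Defs

/-!
# POR (iii), N2, type I, TRAP: (E1) touching

A field `q` which decays faster than every power of the depth is touched from above by a power
`const * depth ^ (-B)` at a point of large depth (up to a factor `1 + 1 / B`).
-/

noncomputable section

namespace Pool.Agent.MP_ae5b4e_an_TI

open Complex Set Filter Topology Metric
open PorTR (Hm)

theorem isOpen_Hm : IsOpen Hm := isOpen_lt continuous_im continuous_const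

theorem isPreconnected_Hm : IsPreconnected Hm := (convex_halfSpace_im_lt 0).isPreconnected

/-- a nonzero point of arbitrarily large depth -/
theorem exists_deep_ne {q : ℂ → ℂ} (hd : DifferentiableOn ℂ q Hm) (hne : ∃ z ∈ Hm, q z ≠ 0)
    (R : ℝ) : ∃ z : ℂ, R ≤ -z.im ∧ z ∈ Hm ∧ q z ≠ 0 := by
  by_contra hcon
  push Not at hcon
  obtain ⟨z, hz, hqz⟩ := hne
  have han : AnalyticOnNhd ℂ q Hm := hd.analyticOnNhd isOpen_Hm
  obtain ⟨z0, hz0⟩ : ∃ z0 : ℂ, z0 = ⟨0, -(|R| + 1)⟩ := ⟨_, rfl⟩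
  have hz0m : z0 ∈ Hm := by
    show z0.im < 0
    rw [hz0]
    show -(|R| + 1) < 0
    have := abs_nonneg R
    linarith
  have hev : ∀ᶠ w in 𝓝 z0, q w = 0 := by
    have ho : IsOpen {w : ℂ | w.im < -|R|} := isOpen_lt continuous_im continuous_const
    have hm : z0 ∈ {w : ℂ | w.im < -|R|} := by
      show z0.im < -|R|
      rw [hz0]
      show -(|R| + 1) < -|R|
      linarith
    filter_upwards [ho.mem_nhds hm] with w hw
    have hw' : w.im < -|R| := hw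
    have h1 : R ≤ |R| := le_abs_self R
    have h2 : 0 ≤ |R| := abs_nonneg R
    by_contra h3
    exact h3 (hcon w (by linarith) (by show w.im < 0; linarith))
  have h0 := han.eqOn_zero_of_preconnected_of_eventuallyEq_zero isPreconnected_Hm hz0m hev
  exact hqz (h0 hz)

/-- (E1) TOUCHING. -/
theorem touch {q : ℂ → ℂ} {C : ℝ} (hd : DifferentiableOn ℂ q Hm)
    (hb : ∀ z : ℂ, 2 ≤ -z.im → ‖q z‖ ≤ C / z.im ^ 2) (hne : ∃ z ∈ Hm, q z ≠ 0)
    (hdec : ∀ B : ℕ, ∃ D0 : ℝ, ∀ z : ℂ, D0 ≤ -z.im → ‖q z‖ * (-z.im) ^ B ≤ 1) :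
    ∀ R : ℝ, ∃ B0 : ℕ, 1 ≤ B0 ∧ ∀ B : ℕ, B0 ≤ B → ∃ x D : ℝ, R ≤ D ∧ 2 ≤ D ∧
      0 < ‖q ((x : ℂ) - D * I)‖ ∧
      ∀ z : ℂ, 2 ≤ -z.im →
        ‖q z‖ ≤ (1 + 1 / B) * ‖q ((x : ℂ) - D * I)‖ * (D / -z.im) ^ B := by
  intro R
  obtain ⟨R', hR', hR2⟩ : ∃ R' : ℝ, R ≤ R' ∧ 2 ≤ R' := ⟨max R 2, le_max_left _ _, le_max_right _ _⟩
  obtain ⟨zs, hzs, -, hqs⟩ := exists_deep_ne hd hne (2 * R')
  have hε : 0 < ‖q zs‖ := norm_pos_iff.2 hqs
  -- the exponent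
  obtain ⟨B0, hB0⟩ : ∃ B0 : ℕ, C / 2 / ‖q zs‖ < 2 ^ B0 := pow_unbounded_of_one_lt _ (by norm_num)
  refine ⟨B0 + 1, by omega, fun B hB => ?_⟩
  have hB1 : (1 : ℝ) ≤ B := by exact_mod_cast (show 1 ≤ B by omega)
  have hBC : C / 2 < ‖q zs‖ * 2 ^ B := by
    have h1 : (2 : ℝ) ^ B0 ≤ 2 ^ B := pow_le_pow_right₀ (by norm_num) (by omega)
    rw [div_lt_iff₀ hε] at hB0
    nlinarith
  have hC : 0 ≤ C := by
    have h1 := hb (⟨0, -2⟩ : ℂ) (by simp)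
    have h2 : (0:ℝ) ≤ C / ((⟨0, -2⟩ : ℂ).im) ^ 2 := (norm_nonneg _).trans h1
    have h3 : ((⟨0, -2⟩ : ℂ).im) ^ 2 = 4 := by norm_num
    rw [h3] at h2
    linarith
  obtain ⟨D0, hD0⟩ := hdec B
  obtain ⟨S, hS⟩ : ∃ S : Set ℝ, S = {t : ℝ | ∃ z : ℂ, 2 ≤ -z.im ∧ t = ‖q z‖ * (-z.im) ^ B} :=
    ⟨_, rfl⟩
  have hzs2 : 2 ≤ -zs.im := by linarith
  have hmemS : ∀ z : ℂ, 2 ≤ -z.im → ‖q z‖ * (-z.im) ^ B ∈ S := by
    intro z hz
    rw [hS]
    exact ⟨z, hz, rfl⟩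
  have hbdd : BddAbove S := by
    refine ⟨max 1 (C / 4 * |D0| ^ B), ?_⟩
    rw [hS]
    rintro t ⟨z, hz, rfl⟩
    rcases le_total D0 (-z.im) with h | h
    · exact (hD0 z h).trans (le_max_left _ _)
    · refine le_trans ?_ (le_max_right _ _)
      have h1 := hb z hz
      have h4 : (4:ℝ) ≤ z.im ^ 2 := by nlinarith
      have h2 : C / z.im ^ 2 ≤ C / 4 := div_le_div_of_nonneg_left hC (by norm_num) h4
      have h3 : (-z.im) ^ B ≤ |D0| ^ B :=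
        pow_le_pow_left₀ (by linarith) (h.trans (le_abs_self _)) B
      exact mul_le_mul (h1.trans h2) h3 (by positivity) (by positivity)
  have hSs : ‖q zs‖ * (-zs.im) ^ B ∈ S := hmemS zs hzs2
  have hpos : 0 < ‖q zs‖ * (-zs.im) ^ B := by
    have : 0 < -zs.im := by linarith
    positivity
  obtain ⟨m, hm⟩ : ∃ m : ℝ, m = sSup S := ⟨_, rfl⟩
  have hle : ∀ t ∈ S, t ≤ m := fun t ht => by rw [hm]; exact le_csSup hbdd ht
  have hmpos : 0 < m := hpos.trans_le (hle _ hSs)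
  have hlt : m / (1 + 1 / B) < m := by
    rw [div_lt_iff₀ (by positivity)]
    have : 0 < m * (1 / B) := by positivity
    linarith
  rw [hm] at hlt
  obtain ⟨t, ht, hlt'⟩ := exists_lt_of_lt_csSup ⟨_, hSs⟩ hlt
  rw [← hm] at hlt'
  rw [hS] at ht
  obtain ⟨z, hz, rfl⟩ := ht
  have hzz : ((z.re : ℂ) - ((-z.im : ℝ) : ℂ) * I) = z := by
    apply Complex.ext <;> simp
  have hzpos : 0 < -z.im := by linarith
  have hzq : 0 < ‖q z‖ := by
    have h1 : 0 < ‖q z‖ * (-z.im) ^ B := lt_of_le_of_lt (by positivity) hlt'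
    by_contra h2
    have h3 : ‖q z‖ = 0 := le_antisymm (not_lt.1 h2) (norm_nonneg _)
    rw [h3, zero_mul] at h1
    exact lt_irrefl _ h1
  have hmain : ∀ w : ℂ, 2 ≤ -w.im →
      ‖q w‖ * (-w.im) ^ B ≤ (1 + 1 / B) * (‖q z‖ * (-z.im) ^ B) := by
    intro w hw
    refine (hle _ (hmemS w hw)).trans ?_
    rw [div_lt_iff₀ (by positivity)] at hlt'
    linarith
  refine ⟨z.re, -z.im, ?_, hz, by rw [hzz]; exact hzq, fun w hw => ?_⟩
  · by_contra hR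
    push Not at hR
    have h1 := hmain zs hzs2
    have h2 : ‖q z‖ ≤ C / 4 := by
      have h3 := hb z hz
      have h4 : (4:ℝ) ≤ z.im ^ 2 := by nlinarith
      exact h3.trans (div_le_div_of_nonneg_left hC (by norm_num) h4)
    have h5 : (-z.im) ^ B ≤ R' ^ B := pow_le_pow_left₀ hzpos.le (hR.le.trans hR') B
    have h6 : (2 * R') ^ B ≤ (-zs.im) ^ B := pow_le_pow_left₀ (by linarith) hzs B
    rw [mul_pow] at h6
    have hRB : 0 < R' ^ B := by positivity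
    have h7 : (1 + 1 / B) * (‖q z‖ * (-z.im) ^ B) ≤ 2 * (C / 4 * R' ^ B) := by
      have h8 : (1 : ℝ) + 1 / B ≤ 2 := by
        have : (1:ℝ) / B ≤ 1 := by
          rw [div_le_one (by linarith)]
          exact hB1
        linarith
      gcongr
    have h9 : ‖q zs‖ * (2 ^ B * R' ^ B) ≤ ‖q zs‖ * (-zs.im) ^ B := by gcongr
    have h10 : ‖q zs‖ * 2 ^ B * R' ^ B ≤ C / 2 * R' ^ B := by
      calc ‖q zs‖ * 2 ^ B * R' ^ B = ‖q zs‖ * (2 ^ B * R' ^ B) := by ring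
        _ ≤ _ := h9
        _ ≤ _ := h1
        _ ≤ _ := h7
        _ = _ := by ring
    have h11 := le_of_mul_le_mul_right h10 hRB
    linarith
  · rw [hzz]
    have h1 := hmain w hw
    have hwpos : 0 < -w.im := by linarith
    rw [div_pow]
    have h2 : (1 + 1 / (B:ℝ)) * ‖q z‖ * ((-z.im) ^ B / (-w.im) ^ B) =
        (1 + 1 / B) * (‖q z‖ * (-z.im) ^ B) / (-w.im) ^ B := by
      field_simp
    rw [h2, le_div_iff₀ (by positivity)]
    exact h1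

end Pool.Agent.MP_ae5b4e_an_TI
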