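import Pool.Agent.Lib.MP_ae5b4e_an_TI.NoT
import Pool.Agent.Lib.MP_ae5b4e_an_TI.Touch

/-!
# POR (iii), type I: THE TRAP

`trap`: if `q` decays faster than every power of the depth, then on the slices of some interval
`[K, 2 K]` of real parameters `|Re y| < π / 2` on the whole half plane below the line, and there is no
point of type `I`.
-/

set_option autoImplicit false

noncomputable section

namespace Pool.Agent.MP_ae5b4e_an_TI

open Complex Set Filter Topology Metric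
open Pool.Agent.MP_ae5b4e_an_T
open Pool.Agent.MP_ae5b4e_an_PK (Asy)
open Pool.Agent.MP_ae5b4e_an_M (S1 C1f Gf)
open PorTR (Hm)

private theorem Trap_open (m : ℝ) : IsOpen {τ : ℂ | τ.im < m} :=
  isOpen_lt Complex.continuous_im continuous_const

/-- far below the line `y` is small -/
theorem X_small {g : ℂ → ℂ} {B : ℕ} {γ m : ℝ} {F : ℂ → ℂ} (hf : Zf B g) (hB : 2 ≤ B)
    (h : Zl g B γ m F) : ∃ R : ℝ, ∀ τ : ℂ, R ≤ -τ.im → sre (Xf g γ F τ) < Real.pi / 2 := by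
  obtain ⟨R1, hR1⟩ := h.asy 1 one_pos
  refine ⟨max (R1 + 1) (max (2 - m) 10), fun τ hτ => ?_⟩
  have h1 : R1 + 1 ≤ -τ.im := (le_max_left _ _).trans hτ
  have h2 : 2 - m ≤ -τ.im := ((le_max_left _ _).trans (le_max_right _ _)).trans hτ
  have h3 : (10 : ℝ) ≤ -τ.im := ((le_max_right _ _).trans (le_max_right _ _)).trans hτ
  have hball : ∀ z ∈ closedBall τ 1, z.im < m ∧ R1 ≤ -z.im := by
    intro z hz
    rw [mem_closedBall, dist_eq_norm] at hz
    have h4 := (Complex.abs_im_le_norm (z - τ)).trans hz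
    rw [Complex.sub_im] at h4
    have h5 := abs_le.1 h4
    constructor <;> linarith
  have hd : ‖deriv F τ - 1‖ ≤ 1 := by
    have h4 : DifferentiableOn ℂ (fun z => F z - z) {τ : ℂ | τ.im < m} :=
      h.fd.sub differentiableOn_id
    have h5 : DiffContOnCl ℂ (fun z => F z - z) (ball τ 1) := by
      refine DifferentiableOn.diffContOnCl ?_
      rw [closure_ball τ one_ne_zero]
      exact h4.mono fun z hz => (hball z hz).1
    have h6 := Complex.norm_deriv_le_of_forall_mem_sphere_norm_le one_pos h5 (C := 1)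
      fun z hz => hR1 z (hball z (sphere_subset_closedBall hz)).2
    have h7 : deriv (fun z => F z - z) τ = deriv F τ - 1 := by
      have h8 : DifferentiableAt ℂ F τ :=
        h.fd.differentiableAt ((Trap_open m).mem_nhds (hball τ (mem_closedBall_self zero_le_one)).1)
      have h9 : HasDerivAt (fun z => F z - z) (deriv F τ - 1) τ :=
        h8.hasDerivAt.sub (hasDerivAt_id' τ)
      exact h9.deriv
    rw [h7, div_one] at h6
    exact h6
  have hd2 : ‖deriv F τ‖ ≤ 2 := by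
    have h4 : deriv F τ = (deriv F τ - 1) + 1 := by ring
    rw [h4]
    refine (norm_add_le _ _).trans ?_
    rw [norm_one]
    linarith
  have hFim : (F τ).im ≤ -8 := by
    have h4 := hR1 τ (by linarith)
    have h5 := (Complex.abs_im_le_norm (F τ - τ)).trans h4
    rw [Complex.sub_im] at h5
    have h6 := abs_le.1 h5
    linarith
  have hg := hf.low hB (z := F τ) (by linarith)
  have h25 : (25 : ℝ) ≤ (1 - (F τ).im / 2) ^ 2 := by nlinarith
  have hg2 : ‖g (F τ)‖ ≤ 2 / 25 :=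
    hg.trans (div_le_div_of_nonneg_left (by norm_num) (by norm_num) h25)
  have hX : ‖Xf g γ F τ‖ ≤ 32 / 25 := by
    unfold Xf
    rw [norm_mul, norm_pow, norm_mul, Complex.norm_real, Real.norm_eq_abs,
      abs_of_nonneg (by linarith [h.γ1] : (0 : ℝ) ≤ γ)]
    have h4 : γ * ‖deriv F τ‖ ≤ 4 := by nlinarith [h.γ1, h.γ2, norm_nonneg (deriv F τ)]
    have h5 : 0 ≤ γ * ‖deriv F τ‖ := mul_nonneg (by linarith [h.γ1]) (norm_nonneg _)
    have h6 : (γ * ‖deriv F τ‖) ^ 2 ≤ 16 := by nlinarith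
    have h7 : ‖g (F τ)‖ * (γ * ‖deriv F τ‖) ^ 2 ≤ 2 / 25 * 16 :=
      mul_le_mul hg2 h6 (sq_nonneg _) (by norm_num)
    linarith
  have h8 := sre_sq' (Xf g γ F τ)
  have h9 := Complex.re_le_norm (Xf g γ F τ)
  have h10 := Real.pi_gt_three
  have h11 := sre_nonneg (Xf g γ F τ)
  nlinarith

private theorem Trap_cont {g : ℂ → ℂ} {b γ m : ℝ} {F : ℂ → ℂ} (h : Zl g b γ m F) :
    ContinuousOn (Xf g γ F) {τ : ℂ | τ.im < m} := by
  have h1 : ContinuousOn (fun τ => g (F τ)) {τ : ℂ | τ.im < m} :=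
    h.gd.continuousOn.comp h.fd.continuousOn fun τ hτ => h.im τ hτ
  have h2 : ContinuousOn (deriv F) {τ : ℂ | τ.im < m} :=
    (h.fd.deriv (Trap_open m)).continuousOn
  exact h1.mul ((continuousOn_const.mul h2).pow 2)

/-- the last point of a vertical ray outside the open strip -/
theorem strip_of_no_touch {g : ℂ → ℂ} {B : ℕ} {γ m C7 : ℝ} {F : ℂ → ℂ} (hf : Zf B g) (hB : 2 ≤ B)
    (h : Zl g B γ m F)
    (hno : ∀ τ : ℂ, τ.im < m → τ.im ≤ C7 → Vz g γ F τ → sre (Xf g γ F τ) ≠ Real.pi / 2) :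
    ∀ τ : ℂ, τ.im < m → τ.im ≤ C7 → sre (Xf g γ F τ) < Real.pi / 2 := by
  intro τ hτ hτ7
  by_contra hcon
  push Not at hcon
  obtain ⟨R, hR⟩ := X_small hf hB h
  obtain ⟨u, hu⟩ : ∃ u : ℝ → ℝ, u = fun s : ℝ => sre (Xf g γ F (τ - s * I)) := ⟨_, rfl⟩
  have him : ∀ s : ℝ, (τ - s * I).im = τ.im - s := by
    intro s
    simp
  have huc : ContinuousOn u (Ici 0) := by
    rw [hu]
    refine sre_cont.comp_continuousOn ((Trap_cont h).comp ?_ ?_)
    · fun_prop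
    · intro s hs
      have hs' : (0 : ℝ) ≤ s := hs
      show (τ - s * I).im < m
      rw [him]
      linarith
  obtain ⟨S0, hS0⟩ : ∃ S0 : ℝ, S0 = max 0 (R + τ.im) := ⟨_, rfl⟩
  have hS00 : 0 ≤ S0 := by
    rw [hS0]
    exact le_max_left _ _
  have hfar : ∀ s : ℝ, S0 ≤ s → u s < Real.pi / 2 := by
    intro s hs
    rw [hu]
    refine hR _ ?_
    rw [him]
    have h1 : R + τ.im ≤ S0 := by
      rw [hS0]
      exact le_max_right _ _
    linarith
  obtain ⟨S, hS⟩ : ∃ S : Set ℝ, S = {s ∈ Icc 0 S0 | Real.pi / 2 ≤ u s} := ⟨_, rfl⟩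
  have hSne : S.Nonempty := by
    refine ⟨0, ?_⟩
    rw [hS]
    refine ⟨⟨le_refl _, hS00⟩, ?_⟩
    rw [hu]
    simpa using hcon
  have hSc : IsCompact S := by
    have h1 : IsClosed S := by
      rw [hS]
      exact (huc.mono Icc_subset_Ici_self).preimage_isClosed_of_isClosed isClosed_Icc isClosed_Ici
    refine (isCompact_Icc (a := (0 : ℝ)) (b := S0)).of_isClosed_subset h1 ?_
    rw [hS]
    exact fun s hs => hs.1
  obtain ⟨s1, hs1, hmax⟩ := hSc.exists_isGreatest hSne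
  have hs1' : s1 ∈ Icc 0 S0 ∧ Real.pi / 2 ≤ u s1 := by
    rw [hS] at hs1
    exact hs1
  have hlt : ∀ s : ℝ, s1 < s → u s < Real.pi / 2 := by
    intro s hs
    rcases le_total s S0 with h1 | h1
    · by_contra h2
      push Not at h2
      have h3 : s ∈ S := by
        rw [hS]
        exact ⟨⟨by linarith [hs1'.1.1], h1⟩, h2⟩
      exact absurd (hmax h3) (not_le.2 hs)
    · exact hfar s h1
  have hle : u s1 ≤ Real.pi / 2 := by
    have h1 : Tendsto u (𝓝[>] s1) (𝓝 (u s1)) := by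
      have h2 : ContinuousWithinAt u (Ici 0) s1 := huc s1 hs1'.1.1
      exact h2.mono_left (nhdsWithin_mono _ fun s hs =>
        le_trans hs1'.1.1 (le_of_lt (mem_Ioi.1 hs)))
    refine le_of_tendsto h1 ?_
    filter_upwards [self_mem_nhdsWithin] with s hs
    exact (hlt s hs).le
  have heq : u s1 = Real.pi / 2 := le_antisymm hle hs1'.2
  refine hno (τ - s1 * I) ?_ ?_ ?_ ?_
  · rw [him]
    linarith [hs1'.1.1]
  · rw [him]
    linarith [hs1'.1.1]
  · intro s hs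
    have h1 : τ - s1 * I - s * I = τ - ((s1 + s : ℝ) : ℂ) * I := by
      push_cast
      ring
    rw [h1]
    rcases eq_or_lt_of_le hs with h2 | h2
    · rw [← h2, add_zero]
      have h3 := heq
      rw [hu] at h3
      exact h3.le
    · have h3 := hlt (s1 + s) (by linarith)
      rw [hu] at h3
      exact h3.le
  · have h3 := heq
    rw [hu] at h3
    exact h3

/-- THE TRAP -/
theorem trap {q : ℂ → ℂ} {C : ℝ} (hC : 0 < C) (hqd : DifferentiableOn ℂ q Hm)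
    (hqb : ∀ z : ℂ, 2 ≤ -z.im → ‖q z‖ ≤ C / z.im ^ 2) (hne : ∃ z ∈ Hm, q z ≠ 0)
    (hs : ∀ B : ℕ, ∃ M : ℝ, ∀ z : ℂ, 2 ≤ -z.im → ‖q z‖ * (-z.im) ^ B ≤ M)
    (K1 : ℝ) : ∃ K : ℝ, K1 ≤ K ∧ 1 ≤ K ∧ ∀ γ ∈ Icc K (2 * K), ∀ (v : ℝ) (f : ℂ → ℂ),
      Sl q C γ v f → Asy f → (∀ τ ∈ Hp v, ‖Xf q γ f τ‖ + (Xf q γ f τ).re < Real.pi ^ 2 / 2) ∧
        ∀ x : ℝ, ¬ IAt v f x := by
  obtain ⟨A, hA⟩ := exists_stripC
  obtain ⟨C7, B1, hB1⟩ := line_above hA
  obtain ⟨B2, hB2⟩ := no_touch hA C7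
  have hdec : ∀ B : ℕ, ∃ D0 : ℝ, ∀ z : ℂ, D0 ≤ -z.im → ‖q z‖ * (-z.im) ^ B ≤ 1 := by
    intro B
    obtain ⟨M, hM⟩ := hs (B + 1)
    refine ⟨max 2 M, fun z hz => ?_⟩
    have h1 : (2 : ℝ) ≤ -z.im := (le_max_left _ _).trans hz
    have h2 : M ≤ -z.im := (le_max_right _ _).trans hz
    have h3 := hM z h1
    rw [pow_succ, ← mul_assoc] at h3
    have h4 : 0 < -z.im := by linarith
    have h5 : ‖q z‖ * (-z.im) ^ B * (-z.im) ≤ 1 * (-z.im) := by linarith
    exact le_of_mul_le_mul_right h5 h4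
  obtain ⟨K0, hK0⟩ : ∃ K0 : ℝ, K0 = max K1 1 := ⟨_, rfl⟩
  have hK01 : 1 ≤ K0 := by
    rw [hK0]
    exact le_max_right _ _
  have hK0K : K1 ≤ K0 := by
    rw [hK0]
    exact le_max_left _ _
  obtain ⟨B3, hB31, hB3⟩ := touch hqd hqb hne hdec (max 4 (C * K0 ^ 2))
  obtain ⟨B, hB⟩ : ∃ B : ℕ, B = max (max B1 B2) (max B3 2) := ⟨_, rfl⟩
  have hBB1 : B1 ≤ B := by
    rw [hB]
    exact (le_max_left _ _).trans (le_max_left _ _)
  have hBB2 : B2 ≤ B := by
    rw [hB]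
    exact (le_max_right _ _).trans (le_max_left _ _)
  have hBB3 : B3 ≤ B := by
    rw [hB]
    exact (le_max_left _ _).trans (le_max_right _ _)
  have hB2' : 2 ≤ B := by
    rw [hB]
    exact (le_max_right _ _).trans (le_max_right _ _)
  have hB0 : 0 < B := by omega
  have hB' : (0 : ℝ) < B := by exact_mod_cast hB0
  obtain ⟨x0, D, hRD, hD2, hpos, hmaj⟩ := hB3 B hBB3
  have hD4 : 4 ≤ D := (le_max_left _ _).trans hRD
  have hDC : C * K0 ^ 2 ≤ D := (le_max_right _ _).trans hRD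
  have hD0 : 0 < D := by linarith
  obtain ⟨N, hN⟩ : ∃ N : ℝ, N = ‖q ((x0 : ℂ) - D * I)‖ := ⟨_, rfl⟩
  rw [← hN] at hpos hmaj
  obtain ⟨κ, hκ⟩ : ∃ κ : ℝ, κ = 1 / √N := ⟨_, rfl⟩
  have hsN : 0 < √N := Real.sqrt_pos.2 hpos
  have hκ0 : 0 < κ := by
    rw [hκ]
    positivity
  have hκN : κ ^ 2 * N = 1 := by
    rw [hκ, div_pow, one_pow, Real.sq_sqrt hpos.le]
    field_simp
  have hKκ : K0 ≤ κ := by
    have h1 : N ≤ C / D ^ 2 := by
      have h2 := hqb ((x0 : ℂ) - D * I) (by simp; linarith)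
      rw [← hN] at h2
      have h3 : ((x0 : ℂ) - D * I).im = -D := by simp
      rw [h3, neg_sq] at h2
      exact h2
    have h2 : K0 ^ 2 * N ≤ 1 := by
      calc K0 ^ 2 * N ≤ K0 ^ 2 * (C / D ^ 2) := mul_le_mul_of_nonneg_left h1 (sq_nonneg _)
        _ = C * K0 ^ 2 / D ^ 2 := by ring
        _ ≤ 1 := by
          rw [div_le_one (by positivity)]
          nlinarith
    have h3 : K0 ^ 2 * N ≤ κ ^ 2 * N := by rw [hκN]; exact h2
    have h4 : K0 ^ 2 ≤ κ ^ 2 := le_of_mul_le_mul_right h3 hpos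
    exact (sq_le_sq₀ (by linarith) hκ0.le).1 h4
  refine ⟨κ, hK0K.trans hKκ, hK01.trans hKκ, fun γ hγ v f hS hAs => ?_⟩
  obtain ⟨g, hg⟩ : ∃ g : ℂ → ℂ, g = zg q κ x0 D B := ⟨_, rfl⟩
  obtain ⟨F, hF⟩ : ∃ F : ℂ → ℂ, F = zF f x0 D B := ⟨_, rfl⟩
  have hZl : Zl g B (γ / κ) ((D - v) * B / D) F := by
    rw [hg, hF]
    exact zoom_Zl hS hAs hκ0 hD0 hB0 hγ.1 hγ.2
  have hZf : Zf B g := by
    rw [hg]
    exact zoom_Zf hqd hB0 hD4 hκN hmaj
  have hno : ∀ τ : ℂ, τ.im < (D - v) * B / D → τ.im ≤ C7 → Vz g (γ / κ) F τ →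
      sre (Xf g (γ / κ) F τ) ≠ Real.pi / 2 := by
    intro τ hτ hτ7 hV
    rw [hg, hF] at hV ⊢
    rw [hg] at hZf
    exact hB2 B hBB2 q C γ v f κ x0 D hS hAs hκ0 hγ.1 hγ.2 hD0 hZf τ hτ hτ7 hV
  have hstrip := strip_of_no_touch hZf hB2' hZl hno
  have hg0 : ‖g 0‖ = 1 := by
    rw [hg]
    show ‖(κ : ℂ) ^ 2 * q ((x0 : ℂ) - D * I + ((D / B : ℝ) : ℂ) * 0)‖ = 1
    rw [mul_zero, add_zero, norm_mul, norm_pow, Complex.norm_real, Real.norm_eq_abs, sq_abs, ← hN,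
      hκN]
  have hm : (D - v) * B / D ≤ C7 :=
    hB1 B hBB1 g (γ / κ) _ F hZf hZl hg0 fun τ hτ hτ7 => (hstrip τ hτ hτ7).le
  have hall : ∀ τ ∈ Hp v, sre (Xf q γ f τ) < Real.pi / 2 := by
    intro τ hτ
    obtain ⟨mu, hmu⟩ : ∃ mu : ℝ, mu = D / B := ⟨_, rfl⟩
    have hmu0 : 0 < mu := by
      rw [hmu]
      positivity
    have hmuc : (mu : ℂ) ≠ 0 := by exact_mod_cast hmu0.ne'
    obtain ⟨τ', hτ'⟩ : ∃ τ' : ℂ, τ' = (τ - ((x0 : ℂ) - D * I)) / mu := ⟨_, rfl⟩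
    have hz : zp x0 D B τ' = τ := by
      unfold zp
      rw [← hmu, hτ']
      field_simp
      ring
    have h1 : τ'.im < (D - v) * B / D := by
      rw [← zp_mem (x0 := x0) hD0 hB0, hz]
      exact hτ
    have h2 := hstrip τ' h1 (h1.le.trans hm)
    rw [hg, hF, Xf_zoom hS.fd hD0 hB0 hκ0 h1, hz] at h2
    exact h2
  refine ⟨fun τ hτ => ?_, fun x hI => ?_⟩
  · have h1 := hall τ hτ
    have h2 := sre_sq' (Xf q γ f τ)
    have h3 := sre_nonneg (Xf q γ f τ)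
    nlinarith [Real.pi_pos]
  · -- no point of type `I`
    have hder : ∀ s ∈ Ioi (0 : ℝ), HasDerivAt (fun s : ℝ => (f ((x : ℂ) - (v + s : ℝ) * I)).im)
        (-(deriv f ((x : ℂ) - (v + s : ℝ) * I)).re) s := by
      intro s hs
      have hs' : (0 : ℝ) < s := hs
      have hmem : ((x : ℂ) - (v + s : ℝ) * I) ∈ Hp v := by
        show ((x : ℂ) - (v + s : ℝ) * I).im < -v
        simp
        linarith
      have hop : IsOpen (Hp v) := isOpen_lt Complex.continuous_im continuous_const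
      have h1 := (hS.fd.differentiableAt (hop.mem_nhds hmem)).hasDerivAt
      have h2 : HasDerivAt (fun s : ℝ => (x : ℂ) - ((v + s : ℝ) : ℂ) * I) (-(1 * I)) s := by
        have h3 : HasDerivAt (fun s : ℝ => ((v + s : ℝ) : ℂ)) 1 s := by
          have h4 := ((hasDerivAt_id s).const_add v).ofReal_comp
          simpa using h4
        exact (h3.mul_const I).const_sub (x : ℂ)
      have h3 := h1.scomp s h2
      have h4 := (Complex.imCLM.hasFDerivAt.comp_hasDerivAt s h3)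
      refine h4.congr_deriv ?_
      simp
    have hre : ∀ s ∈ Ioi (0 : ℝ), 0 ≤ (deriv f ((x : ℂ) - (v + s : ℝ) * I)).re := by
      intro s hs
      have hs' : (0 : ℝ) < s := hs
      have hmem : ((x : ℂ) - (v + s : ℝ) * I) ∈ Hp v := by
        show ((x : ℂ) - (v + s : ℝ) * I).im < -v
        simp
        linarith
      have h1 := der_strip hS hmem (hall _ hmem).le
      exact le_trans (by positivity) h1
    have hanti : AntitoneOn (fun s : ℝ => (f ((x : ℂ) - (v + s : ℝ) * I)).im) (Ioi 0) := by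
      refine antitoneOn_of_deriv_nonpos (convex_Ioi 0)
        (fun s hs => (hder s hs).continuousAt.continuousWithinAt) (fun s hs => ?_)
        fun s hs => ?_
      · rw [interior_Ioi] at hs
        exact (hder s hs).differentiableAt.differentiableWithinAt
      · rw [interior_Ioi] at hs
        rw [(hder s hs).deriv]
        have := hre s hs
        linarith
    have h1 : ∀ᶠ s : ℝ in 𝓝[>] 0, (f ((x : ℂ) - (v + s : ℝ) * I)).im <
        (f ((x : ℂ) - (v + 1 : ℝ) * I)).im := hI.eventually_lt_atBot _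
    have h2 : ∀ᶠ s : ℝ in 𝓝[>] 0, s < 1 := by
      filter_upwards [Ioo_mem_nhdsGT (zero_lt_one (α := ℝ))] with s hs
      exact hs.2
    obtain ⟨s, hs1, hs2, hs3⟩ := (h1.and (h2.and self_mem_nhdsWithin)).exists
    have h3 := hanti (show s ∈ Ioi (0 : ℝ) from hs3)
      (show (1 : ℝ) ∈ Ioi (0 : ℝ) from mem_Ioi.2 zero_lt_one) hs2.le
    exact absurd hs1 (not_lt.2 h3)

end Pool.Agent.MP_ae5b4e_an_TI
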