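import Pool.Agent.Lib.MP_ae5b4e_an_TI.StrA
import Pool.Agent.Lib.MP_ae5b4e_an_PK.Defs

/-!
# POR (iii), N2, type I: THE TRAP (block TI). The zoom

`Zf B g`: a field in the zoom of parameter `B` (near a label of almost maximal `|q| depth ^ B`);
`Zl g b γ m F`: a label `F` on the D-side `Im τ < m` for the field `g` on `Im z < b`, real parameter
`γ ∈ [1, 2]`; `Vz` = the vertical ray below the point is in the closed strip `|Re y| ≤ π / 2`.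
`Pz`, `sre`: `TI/StrA.lean`.
-/

set_option autoImplicit false

noncomputable section

namespace Pool.Agent.MP_ae5b4e_an_TI

open Complex Set Filter Topology Metric
open Pool.Agent.MP_ae5b4e_an_T
open Pool.Agent.MP_ae5b4e_an_PK (Asy)
open Pool.Agent.MP_ae5b4e_an_M (S1 C1f Gf)

/-- a field in the zoom of parameter `B` -/
structure Zf (B : ℕ) (g : ℂ → ℂ) : Prop where
  gd : DifferentiableOn ℂ g {z : ℂ | z.im < B}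
  gb : ∀ z : ℂ, z.im ≤ B / 2 → ‖g z‖ ≤ (1 + 1 / B) * (1 / (1 - z.im / B)) ^ B

/-- a label in the zoom: field `g` on `Im z < b`, real parameter `γ`, D-side `Im τ < m` -/
structure Zl (g : ℂ → ℂ) (b γ m : ℝ) (F : ℂ → ℂ) : Prop where
  γ1 : 1 ≤ γ
  γ2 : γ ≤ 2
  gd : DifferentiableOn ℂ g {z : ℂ | z.im < b}
  fd : DifferentiableOn ℂ F {τ : ℂ | τ.im < m}
  im : ∀ τ : ℂ, τ.im < m → (F τ).im < b
  s1 : ∀ τ : ℂ, τ.im < m → S1 (Xf g γ F τ) ≠ 0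
  dv : ∀ τ : ℂ, τ.im < m → deriv F τ * Pz (Xf g γ F τ) = 1
  asy : ∀ ε : ℝ, 0 < ε → ∃ R : ℝ, ∀ τ : ℂ, R ≤ -τ.im → ‖F τ - τ‖ ≤ ε

/-- the vertical ray below `τ` (`τ` included) is in the closed strip -/
def Vz (g : ℂ → ℂ) (γ : ℝ) (F : ℂ → ℂ) (τ : ℂ) : Prop :=
  ∀ s : ℝ, 0 ≤ s → sre (Xf g γ F (τ - s * I)) ≤ Real.pi / 2

/-- the bounds of the closed strip used below, with one constant -/
structure StripC (A : ℝ) : Prop where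
  one : 1 ≤ A
  re : ∀ x : ℂ, sre x ≤ Real.pi / 2 → ‖Pz x‖ ≤ A * (Pz x).re
  g2 : ∀ x : ℂ, sre x ≤ Real.pi / 2 → ‖x * Pz x ^ 2‖ ≤ A
  psi : ∀ x : ℂ, sre x ≤ Real.pi / 2 → ‖Pz x - 1‖ ≤ A * min 1 ‖x * Pz x ^ 2‖

/-- zoom of the field: centre `x0 - i D`, unit `D / B`, factor `κ²` -/
def zg (q : ℂ → ℂ) (κ x0 D : ℝ) (B : ℕ) (z : ℂ) : ℂ :=
  (κ : ℂ) ^ 2 * q ((x0 : ℂ) - D * I + ((D / B : ℝ) : ℂ) * z)

/-- zoom of the label -/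
def zF (f : ℂ → ℂ) (x0 D : ℝ) (B : ℕ) (τ : ℂ) : ℂ :=
  (f ((x0 : ℂ) - D * I + ((D / B : ℝ) : ℂ) * τ) - ((x0 : ℂ) - D * I)) / ((D / B : ℝ) : ℂ)

theorem Zl.w {g : ℂ → ℂ} {b γ m : ℝ} {F : ℂ → ℂ} (h : Zl g b γ m F) {τ : ℂ} (hτ : τ.im < m) :
    Xf g γ F τ * Pz (Xf g γ F τ) ^ 2 = (γ : ℂ) ^ 2 * g (F τ) := by
  have h1 := h.dv τ hτ
  have h2 : Xf g γ F τ * Pz (Xf g γ F τ) ^ 2 =
      (γ : ℂ) ^ 2 * g (F τ) * (deriv F τ * Pz (Xf g γ F τ)) ^ 2 := by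
    conv_lhs => rw [show Xf g γ F τ * Pz (Xf g γ F τ) ^ 2 =
      (g (F τ) * (γ * deriv F τ) ^ 2) * Pz (Xf g γ F τ) ^ 2 from rfl]
    ring
  rw [h2, h1]
  ring

end Pool.Agent.MP_ae5b4e_an_TI
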