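import Pool.Agent.Lib.MP_ae5b4e_an_TI.Defs

/-!
# POR (iii), N2, type I, THE TRAP, part E2: the zoom

A function on a large ball bounded by `2 (1 - Im z / B) ^ (- B)` is close to
`F 0 * exp (- I z)` on bounded sets, together with its derivative.
-/

set_option autoImplicit false

noncomputable section

namespace Pool.Agent.MP_ae5b4e_an_TI

open Complex Set Filter Topology Metric

/-- the majorant times `exp (- t)` is at most `e` for `2 t ^ 2 ≤ B` -/
theorem maj_le {B t : ℝ} (hB : 2 ≤ B) (ht : 2 * t ^ 2 ≤ B) :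
    (1 - t / B) ^ (-B) * Real.exp (-t) ≤ Real.exp 1 := by
  have hB0 : 0 < B := by linarith
  have hs : |t| ≤ B / 2 := by
    have h1 : t ^ 2 ≤ (B / 2) ^ 2 := by nlinarith
    exact abs_le_of_sq_le_sq h1 (by linarith)
  have h3 : |t / B| ≤ 1 / 2 := by
    rw [abs_div, abs_of_pos hB0, div_le_iff₀ hB0]
    linarith
  obtain ⟨h4, h5⟩ := abs_le.1 h3
  obtain ⟨u, hu⟩ : ∃ u, u = t / B := ⟨_, rfl⟩
  rw [← hu] at h4 h5
  have hu0 : 0 < 1 - u := by linarith
  have hl : -u - 2 * u ^ 2 ≤ Real.log (1 - u) := by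
    refine le_trans ?_ (Real.one_sub_inv_le_log_of_pos hu0)
    have h6 : (1 - u)⁻¹ ≤ 1 + u + 2 * u ^ 2 := by
      rw [inv_le_iff_one_le_mul₀ hu0]
      nlinarith [mul_nonneg (sq_nonneg u) (by linarith : (0 : ℝ) ≤ 1 - 2 * u)]
    linarith
  rw [← hu, Real.rpow_def_of_pos hu0, ← Real.exp_add]
  refine Real.exp_le_exp.2 ?_
  have h8 := mul_le_mul_of_nonneg_right hl hB0.le
  have h9 : u * B = t := by
    rw [hu]
    field_simp
  have h10 : 2 * u ^ 2 * B ≤ 1 := by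
    have h11 : 2 * u ^ 2 * B = 2 * t ^ 2 / B := by
      rw [hu]
      field_simp
    rw [h11, div_le_one hB0]
    exact ht
  nlinarith

theorem norm_exp_I_mul (z : ℂ) : ‖exp (I * z)‖ = Real.exp (-z.im) := by
  rw [Complex.norm_exp]
  simp

theorem norm_exp_neg_I_mul (z : ℂ) : ‖exp (-(I * z))‖ = Real.exp z.im := by
  rw [Complex.norm_exp]
  simp

/-- **E2, the zoom.** -/
theorem zoom (R ε : ℝ) (hR : 0 ≤ R) (hε : 0 < ε) : ∃ B0 : ℝ, 2 ≤ B0 ∧ ∀ B : ℝ, B0 ≤ B →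
    2 * R ≤ B ∧ ∀ F : ℂ → ℂ, DifferentiableOn ℂ F (ball 0 (B / 2)) →
    (∀ z ∈ ball (0 : ℂ) (B / 2), ‖F z‖ ≤ 2 * (1 - z.im / B) ^ (-B)) →
    ∀ z : ℂ, ‖z‖ ≤ R → ‖F z - F 0 * exp (-(I * z))‖ ≤ ε ∧ ‖deriv F z + I * F z‖ ≤ ε := by
  -- on `‖z‖ < ρ`, `ρ = √(B / 2)`, `h = F exp (I z)` is bounded by `2 e`
  obtain ⟨c, hc⟩ : ∃ c, c = 4 * Real.exp 1 * Real.exp R * (R + 1) := ⟨_, rfl⟩
  have hc0 : 0 < c := by
    rw [hc]
    positivity
  obtain ⟨ρ0, hρ0⟩ : ∃ ρ0, ρ0 = 2 * (R + 1) + c / ε := ⟨_, rfl⟩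
  have hρ1 : 2 * (R + 1) ≤ ρ0 := by
    rw [hρ0]
    have : 0 ≤ c / ε := by positivity
    linarith
  have hρ2 : c ≤ ρ0 * ε := by
    rw [hρ0, add_mul, div_mul_cancel₀ _ hε.ne']
    nlinarith
  refine ⟨2 * ρ0 ^ 2, by nlinarith, fun B hB => ⟨by nlinarith, fun F hF hb z hz => ?_⟩⟩
  have hρpos : 0 < ρ0 := by linarith
  have hB2 : 2 ≤ B := by nlinarith
  have hsub : ∀ z : ℂ, ‖z‖ < ρ0 → z ∈ ball (0 : ℂ) (B / 2) := by
    intro z hz
    rw [mem_ball_zero_iff]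
    nlinarith
  obtain ⟨h, hh⟩ : ∃ h : ℂ → ℂ, h = fun z => F z * exp (I * z) := ⟨_, rfl⟩
  have hhd : DifferentiableOn ℂ h (ball 0 ρ0) := by
    rw [hh]
    refine (hF.mono fun z hz => hsub z (mem_ball_zero_iff.1 hz)).mul ?_
    exact (Differentiable.cexp (by fun_prop)).differentiableOn
  have hhb : ∀ z ∈ ball (0 : ℂ) ρ0, ‖h z‖ ≤ 2 * Real.exp 1 := by
    intro z hz
    have hz1 := mem_ball_zero_iff.1 hz
    have h1 := hb z (hsub z hz1)
    have h2 : 2 * z.im ^ 2 ≤ B := by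
      have h3 : |z.im| ≤ ‖z‖ := abs_im_le_norm z
      have h4 : z.im ^ 2 ≤ ρ0 ^ 2 := by
        rw [← sq_abs]
        have h5 : 0 ≤ |z.im| := abs_nonneg _
        nlinarith
      linarith
    rw [hh]
    simp only [norm_mul, norm_exp_I_mul]
    calc ‖F z‖ * Real.exp (-z.im) ≤ 2 * (1 - z.im / B) ^ (-B) * Real.exp (-z.im) :=
          mul_le_mul_of_nonneg_right h1 (Real.exp_pos _).le
      _ = 2 * ((1 - z.im / B) ^ (-B) * Real.exp (-z.im)) := by ring
      _ ≤ 2 * Real.exp 1 := by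
          have := maj_le hB2 h2
          linarith
  -- derivative of `h`
  have hder : ∀ w : ℂ, ‖w‖ ≤ R → ‖deriv h w‖ ≤ 2 * Real.exp 1 / (ρ0 / 2) := by
    intro w hw
    refine norm_deriv_le_of_forall_mem_sphere_norm_le (by linarith) ?_ ?_
    · have h1 : closedBall w (ρ0 / 2) ⊆ ball 0 ρ0 := by
        intro x hx
        rw [mem_closedBall, dist_eq_norm] at hx
        rw [mem_ball_zero_iff]
        calc ‖x‖ = ‖(x - w) + w‖ := by rw [sub_add_cancel]
          _ ≤ ‖x - w‖ + ‖w‖ := norm_add_le _ _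
          _ < ρ0 := by linarith
      refine DifferentiableOn.diffContOnCl ?_
      rw [closure_ball _ (by linarith : ρ0 / 2 ≠ 0)]
      exact hhd.mono h1
    · intro x hx
      refine hhb x ?_
      rw [mem_sphere, dist_eq_norm] at hx
      rw [mem_ball_zero_iff]
      calc ‖x‖ = ‖(x - w) + w‖ := by rw [sub_add_cancel]
        _ ≤ ‖x - w‖ + ‖w‖ := norm_add_le _ _
        _ < ρ0 := by linarith
  have hkey : 2 * Real.exp 1 / (ρ0 / 2) * Real.exp R * (R + 1) ≤ ε := by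
    have h1 : 2 * Real.exp 1 / (ρ0 / 2) * Real.exp R * (R + 1) = c / ρ0 := by
      rw [hc]
      field_simp
      ring
    rw [h1, div_le_iff₀ hρpos]
    linarith
  have hzball : z ∈ ball (0 : ℂ) ρ0 := by
    rw [mem_ball_zero_iff]
    linarith
  have hE : Real.exp z.im ≤ Real.exp R :=
    Real.exp_le_exp.2 (((le_abs_self _).trans (abs_im_le_norm z)).trans hz)
  have hFh : ∀ w : ℂ, F w = h w * exp (-(I * w)) := by
    intro w
    rw [hh]
    simp only
    rw [mul_assoc, ← Complex.exp_add, add_neg_cancel, Complex.exp_zero, mul_one]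
  have hD0 : 0 ≤ 2 * Real.exp 1 / (ρ0 / 2) := by positivity
  constructor
  · have h0 : h 0 = F 0 := by rw [hh]; simp
    have h1 : ‖h z - h 0‖ ≤ 2 * Real.exp 1 / (ρ0 / 2) * ‖z - 0‖ := by
      refine (convex_closedBall (0 : ℂ) R).norm_image_sub_le_of_norm_deriv_le ?_ ?_ ?_ ?_
      · intro x hx
        have hx1 : ‖x‖ ≤ R := by simpa using hx
        exact hhd.differentiableAt (isOpen_ball.mem_nhds (by
          rw [mem_ball_zero_iff]; linarith))
      · intro x hx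
        exact hder x (by simpa using hx)
      · simpa using hR
      · simpa using hz
    rw [hFh z, ← h0, ← sub_mul, norm_mul, norm_exp_neg_I_mul]
    rw [sub_zero] at h1
    calc ‖h z - h 0‖ * Real.exp z.im
        ≤ (2 * Real.exp 1 / (ρ0 / 2) * ‖z‖) * Real.exp R :=
          mul_le_mul h1 hE (Real.exp_pos _).le (by positivity)
      _ ≤ 2 * Real.exp 1 / (ρ0 / 2) * Real.exp R * (R + 1) := by
          have h2 : 0 ≤ 2 * Real.exp 1 / (ρ0 / 2) * Real.exp R := by positivity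
          nlinarith
      _ ≤ ε := hkey
  · have h1 : HasDerivAt h (deriv h z) z :=
      (hhd.differentiableAt (isOpen_ball.mem_nhds hzball)).hasDerivAt
    have h3 : HasDerivAt (fun w : ℂ => -(I * w)) (-I) z := by
      have h4 : HasDerivAt (fun w : ℂ => -(I * w)) (-(I * 1)) z :=
        ((hasDerivAt_id z).const_mul I).neg
      rwa [mul_one] at h4
    have h2 : HasDerivAt (fun w => exp (-(I * w))) (exp (-(I * z)) * (-I)) z := h3.cexp
    have h4 : HasDerivAt F (deriv h z * exp (-(I * z)) + h z * (exp (-(I * z)) * (-I))) z := by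
      have h5 := h1.mul h2
      refine h5.congr_of_eventuallyEq ?_
      exact Filter.Eventually.of_forall fun w => hFh w
    rw [h4.deriv, hFh z]
    have h6 : deriv h z * exp (-(I * z)) + h z * (exp (-(I * z)) * -I) +
        I * (h z * exp (-(I * z))) = deriv h z * exp (-(I * z)) := by ring
    rw [h6, norm_mul, norm_exp_neg_I_mul]
    calc ‖deriv h z‖ * Real.exp z.im ≤ 2 * Real.exp 1 / (ρ0 / 2) * Real.exp R :=
          mul_le_mul (hder z hz) hE (Real.exp_pos _).le hD0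
      _ ≤ 2 * Real.exp 1 / (ρ0 / 2) * Real.exp R * (R + 1) := by
          have h7 : 0 ≤ 2 * Real.exp 1 / (ρ0 / 2) * Real.exp R := by positivity
          nlinarith
      _ ≤ ε := hkey

/-- E2 over E1 (`touch`): the zoom of `q` at depth `D`, unit `D / B`, at every real place `x` -/
theorem zoom_nat {q : ℂ → ℂ} (hq : DifferentiableOn ℂ q {z | z.im < 0}) {B : ℕ} (hB : 1 ≤ B)
    {x0 D : ℝ} (hD : 4 ≤ D) (h0 : 0 < ‖q (x0 - D * I)‖)
    (ht : ∀ z : ℂ, 2 ≤ -z.im → ‖q z‖ ≤ (1 + 1 / B) * ‖q (x0 - D * I)‖ * (D / -z.im) ^ B)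
    (x : ℝ) :
    DifferentiableOn ℂ (fun z : ℂ => ((‖q (x0 - D * I)‖⁻¹ : ℝ) : ℂ) *
        q (x - D * I + (D / B : ℝ) * z)) (ball 0 ((B : ℝ) / 2)) ∧
      ∀ z ∈ ball (0 : ℂ) ((B : ℝ) / 2),
        ‖((‖q (x0 - D * I)‖⁻¹ : ℝ) : ℂ) * q (x - D * I + (D / B : ℝ) * z)‖ ≤
          2 * (1 - z.im / B) ^ (-(B : ℝ)) := by
  have hB1 : (1 : ℝ) ≤ (B : ℝ) := by exact_mod_cast hB
  have hB0 : (0 : ℝ) < B := by linarith
  have hD0 : (0 : ℝ) < D := by linarith
  have him : ∀ z : ℂ, -(x - D * I + (D / B : ℝ) * z).im = D * (1 - z.im / B) := by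
    intro z
    have h3 : (x - D * I + (D / B : ℝ) * z).im = -D + D / B * z.im := by
      rw [Complex.add_im, Complex.im_ofReal_mul]
      simp
    rw [h3]
    field_simp
    ring
  have hu : ∀ z ∈ ball (0 : ℂ) ((B : ℝ) / 2), 1 / 2 < 1 - z.im / B := by
    intro z hz
    have h1 : z.im < (B : ℝ) / 2 :=
      ((le_abs_self _).trans (abs_im_le_norm z)).trans_lt (mem_ball_zero_iff.1 hz)
    have h2 : z.im / B < 1 / 2 := by
      rw [div_lt_iff₀ hB0]
      linarith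
    linarith
  have hdep : ∀ z ∈ ball (0 : ℂ) ((B : ℝ) / 2), 2 ≤ -(x - D * I + (D / B : ℝ) * z).im := by
    intro z hz
    rw [him z]
    have := hu z hz
    nlinarith
  constructor
  · refine DifferentiableOn.const_mul ?_ _
    refine hq.comp (by fun_prop) ?_
    intro z hz
    have := hdep z hz
    show (x - D * I + (D / B : ℝ) * z).im < 0
    linarith
  · intro z hz
    have h1 := ht _ (hdep z hz)
    have h2 := hu z hz
    have hup : 0 < 1 - z.im / B := by linarith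
    have h3 : D / -(x - D * I + (D / B : ℝ) * z).im = (1 - z.im / B)⁻¹ := by
      rw [him z]
      field_simp
    rw [h3] at h1
    rw [norm_mul, Complex.norm_real, Real.norm_of_nonneg (inv_nonneg.2 h0.le)]
    rw [Real.rpow_neg hup.le, Real.rpow_natCast, ← inv_pow]
    have h4 : (1 : ℝ) + 1 / B ≤ 2 := by
      have : 1 / (B : ℝ) ≤ 1 := by
        rw [div_le_one hB0]
        exact hB1
      linarith
    have h5 : 0 ≤ ((1 - z.im / B)⁻¹) ^ B := pow_nonneg (inv_nonneg.2 hup.le) _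
    calc ‖q (x0 - D * I)‖⁻¹ * ‖q (x - D * I + (D / B : ℝ) * z)‖
        ≤ ‖q (x0 - D * I)‖⁻¹ * ((1 + 1 / B) * ‖q (x0 - D * I)‖ * ((1 - z.im / B)⁻¹) ^ B) :=
          mul_le_mul_of_nonneg_left h1 (inv_nonneg.2 h0.le)
      _ = (1 + 1 / B) * ((1 - z.im / B)⁻¹) ^ B := by
          field_simp
      _ ≤ 2 * ((1 - z.im / B)⁻¹) ^ B := mul_le_mul_of_nonneg_right h4 h5

/-- **E2** in the language of `TI/Defs.lean` -/
theorem close (R eps : ℝ) (heps : 0 < eps) : ∃ B0 : ℕ, ∀ B : ℕ, B0 ≤ B → ∀ g : ℂ → ℂ, Zf B g →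
    ∀ x : ℝ, ∀ z ∈ closedBall (x : ℂ) R, ‖g z - g x * cexp (-I * (z - x))‖ ≤ eps ∧
      ‖deriv g z + I * g z‖ ≤ eps := by
  obtain ⟨b, hb2, hb⟩ := zoom (max R 0) eps (le_max_right _ _) heps
  refine ⟨⌈b⌉₊, fun B hB g hg x z hz => ?_⟩
  have hBb : b ≤ (B : ℝ) := Nat.ceil_le.1 hB
  have hB2 : (2 : ℝ) ≤ (B : ℝ) := hb2.trans hBb
  have hB0 : (0 : ℝ) < (B : ℝ) := by linarith
  obtain ⟨-, hF⟩ := hb B hBb
  have him : ∀ w : ℂ, ((x : ℂ) + w).im = w.im := by
    intro w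
    simp
  have hlt : ∀ w ∈ ball (0 : ℂ) ((B : ℝ) / 2), w.im < (B : ℝ) / 2 := fun w hw =>
    ((le_abs_self _).trans (abs_im_le_norm w)).trans_lt (mem_ball_zero_iff.1 hw)
  have h1 : DifferentiableOn ℂ (fun w => g ((x : ℂ) + w)) (ball 0 ((B : ℝ) / 2)) := by
    refine hg.gd.comp (by fun_prop) ?_
    intro w hw
    show ((x : ℂ) + w).im < B
    rw [him]
    linarith [hlt w hw]
  have h2 : ∀ w ∈ ball (0 : ℂ) ((B : ℝ) / 2),
      ‖g ((x : ℂ) + w)‖ ≤ 2 * (1 - w.im / B) ^ (-(B : ℝ)) := by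
    intro w hw
    have h3 := hg.gb ((x : ℂ) + w) (by rw [him]; exact (hlt w hw).le)
    rw [him] at h3
    have hup : 0 < 1 - w.im / B := by
      have h4 : w.im / B < 1 := by
        rw [div_lt_one hB0]
        linarith [hlt w hw]
      linarith
    rw [Real.rpow_neg hup.le, Real.rpow_natCast]
    rw [one_div_pow] at h3
    have h5 : (1 : ℝ) + 1 / B ≤ 2 := by
      have : 1 / (B : ℝ) ≤ 1 := by
        rw [div_le_one hB0]
        linarith
      linarith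
    have h6 : 0 ≤ ((1 - w.im / B) ^ B)⁻¹ := inv_nonneg.2 (pow_nonneg hup.le _)
    calc ‖g ((x : ℂ) + w)‖ ≤ (1 + 1 / B) * (1 / (1 - w.im / B) ^ B) := h3
      _ = (1 + 1 / B) * ((1 - w.im / B) ^ B)⁻¹ := by rw [one_div ((1 - w.im / B) ^ B)]
      _ ≤ 2 * ((1 - w.im / B) ^ B)⁻¹ := mul_le_mul_of_nonneg_right h5 h6
  have hz' : ‖z - x‖ ≤ max R 0 := by
    rw [mem_closedBall, dist_eq_norm] at hz
    exact hz.trans (le_max_left _ _)
  obtain ⟨h3, h4⟩ := hF _ h1 h2 (z - x) hz'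
  have e1 : (x : ℂ) + (z - x) = z := by ring
  have e2 : deriv (fun w => g ((x : ℂ) + w)) (z - x) = deriv g z := by
    rw [deriv_comp_const_add, e1]
  rw [e2] at h4
  simp only [add_zero, e1] at h3 h4
  refine ⟨?_, h4⟩
  rwa [neg_mul]

end Pool.Agent.MP_ae5b4e_an_TI
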