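import Pool.Agent.Lib.MP_ae5b4e_an_WB.GE

/-!
# POR (iii), N2, TYPE I, trap (E6): inequalities on the half strip `3 π / 8 ≤ Re y ≤ π / 2`

`ud y = G y / sin² y = exp (1 - y cot y) / sin y`. On `3 π / 8 ≤ a ≤ π / 2`, `b ≥ 0`, `y = a + i b`:
`arg (ud y) = A - χ ∈ [0, π / 2]`, `A = - Im (y cot y)`, `χ = arg (sin y)`, and it is at least `1 / 5` for
`b ≥ π / 4`.
-/

set_option autoImplicit false

noncomputable section

namespace Pool.Agent.MP_ae5b4e_an_TI

open Complex Set Filter Topology Metric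
open Pool.Agent.MP_ae5b4e_an_WB
open scoped ComplexConjugate

/-- `G y / sin² y` -/
def ud (y : ℂ) : ℂ := G y / sin y ^ 2

private theorem E6a_pi : 3.1415 < Real.pi ∧ Real.pi < 3.1416 :=
  ⟨Real.pi_gt_d4, Real.pi_lt_d4⟩

/-- bounds of sine and cosine -/
private theorem E6a_sc {a : ℝ} (ha : 3 * Real.pi / 8 ≤ a) (ha' : a ≤ Real.pi / 2) :
    0.92 ≤ Real.sin a ∧ Real.sin a ≤ 1 ∧ 0 ≤ Real.cos a ∧ Real.cos a ≤ Real.pi / 2 - a := by
  obtain ⟨p1, p2⟩ := E6a_pi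
  have h1 : Real.sin a = Real.cos (Real.pi / 2 - a) := by rw [Real.cos_pi_div_two_sub]
  have h2 : Real.cos a = Real.sin (Real.pi / 2 - a) := by rw [Real.sin_pi_div_two_sub]
  have h3 := Real.one_sub_sq_div_two_le_cos (x := Real.pi / 2 - a)
  refine ⟨?_, Real.sin_le_one a, Real.cos_nonneg_of_mem_Icc ⟨by linarith, ha'⟩, ?_⟩
  · rw [h1]
    have h4 : (Real.pi / 2 - a) ^ 2 ≤ 0.4 ^ 2 := pow_le_pow_left₀ (by linarith) (by linarith) 2
    linarith
  · rw [h2]
    exact Real.sin_le (by linarith)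

/-- hyperbolic facts -/
private theorem E6a_hyp {b : ℝ} (hb : 0 ≤ b) : 0 ≤ Real.sinh b ∧ 1 ≤ Real.cosh b ∧
    Real.cosh b ^ 2 = 1 + Real.sinh b ^ 2 ∧ b ≤ Real.sinh b ∧
    Real.sinh b * Real.cosh b ≤ Real.sinh b ^ 2 + 1 / 2 ∧
    Real.exp b ^ 2 / 4 ≤ Real.sinh b ^ 2 + 1 / 2 := by
  have h1 : 0 ≤ Real.sinh b := Real.sinh_nonneg_iff.2 hb
  have h2 : Real.cosh b ^ 2 = 1 + Real.sinh b ^ 2 := by
    have := Real.cosh_sq b
    linarith
  have h3 : Real.exp b * Real.exp (-b) = 1 := by rw [← Real.exp_add]; simp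
  have h4 := Real.exp_pos b
  have h5 := Real.exp_pos (-b)
  refine ⟨h1, Real.one_le_cosh b, h2, Real.self_le_sinh_iff.2 hb, ?_, ?_⟩
  · rw [Real.sinh_eq, Real.cosh_eq]
    nlinarith
  · rw [Real.sinh_eq]
    nlinarith [sq_nonneg (Real.exp (-b))]

/-- the main real inequalities; `A = N⁻¹ (a sh ch - b sin a cos a)`, `N = sin² a + sh²` -/
private theorem E6a_A {a b : ℝ} (ha : 3 * Real.pi / 8 ≤ a) (ha' : a ≤ Real.pi / 2) (hb : 0 ≤ b) :
    (a - Real.sin a * Real.cos a) * (Real.sinh b / Real.cosh b) ≤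
      (a * (Real.sinh b * Real.cosh b) - b * (Real.sin a * Real.cos a)) /
        (Real.sin a ^ 2 + Real.sinh b ^ 2) ∧
    (a * (Real.sinh b * Real.cosh b) - b * (Real.sin a * Real.cos a)) /
        (Real.sin a ^ 2 + Real.sinh b ^ 2) ≤ Real.pi / 2 := by
  obtain ⟨p1, p2⟩ := E6a_pi
  obtain ⟨s1, s2, c1, c2⟩ := E6a_sc ha ha'
  obtain ⟨h1, h2, h3, h4, h5, -⟩ := E6a_hyp hb
  generalize Real.sin a = s at s1 s2 ⊢
  generalize Real.cos a = c at c1 c2 ⊢
  generalize Real.sinh b = sh at h1 h3 h4 h5 ⊢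
  generalize Real.cosh b = ch at h2 h3 h5 ⊢
  have hN : 0 < s ^ 2 + sh ^ 2 := by nlinarith
  have hch : 0 < ch := by linarith
  have hsc : s * c ≤ a := by nlinarith
  have hsc0 : 0 ≤ s * c := mul_nonneg (by linarith) c1
  have hbs : b ≤ sh * ch := by nlinarith
  have ha0 : 0 < a := by linarith
  constructor
  · rw [← mul_div_assoc, div_le_div_iff₀ hch hN]
    have e1 : s ^ 2 + sh ^ 2 ≤ ch ^ 2 := by nlinarith
    have e2 : (a - s * c) * sh * (s ^ 2 + sh ^ 2) ≤ (a - s * c) * sh * ch ^ 2 :=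
      mul_le_mul_of_nonneg_left e1 (mul_nonneg (by linarith) h1)
    have e3 : b * (s * c) ≤ sh * ch * (s * c) := mul_le_mul_of_nonneg_right hbs hsc0
    have e4 : b * (s * c) * ch ≤ sh * ch * (s * c) * ch := mul_le_mul_of_nonneg_right e3 hch.le
    nlinarith
  · rw [div_le_iff₀ hN]
    have e1 : sh * ch ≤ s ^ 2 + sh ^ 2 := by nlinarith
    have e2 : a * (sh * ch) ≤ a * (s ^ 2 + sh ^ 2) := mul_le_mul_of_nonneg_left e1 ha0.le
    have e3 : a * (s ^ 2 + sh ^ 2) ≤ Real.pi / 2 * (s ^ 2 + sh ^ 2) :=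
      mul_le_mul_of_nonneg_right ha' hN.le
    nlinarith [mul_nonneg hb hsc0]

/-- `a - sin a cos a - cot a ≥ .35` -/
private theorem E6a_c {a : ℝ} (ha : 3 * Real.pi / 8 ≤ a) (ha' : a ≤ Real.pi / 2) :
    0.35 ≤ a - Real.sin a * Real.cos a - Real.cos a / Real.sin a := by
  obtain ⟨p1, p2⟩ := E6a_pi
  obtain ⟨s1, s2, c1, c2⟩ := E6a_sc ha ha'
  generalize Real.sin a = s at s1 s2 ⊢
  generalize Real.cos a = c at c1 c2 ⊢
  have hs : 0 < s := by linarith
  have h1 : s * c ≤ c := by nlinarith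
  have h2 : c / s ≤ c / 0.92 := div_le_div_of_nonneg_left c1 (by norm_num) s1
  have h3 : c / 0.92 ≤ 1.09 * c := by
    rw [div_le_iff₀ (by norm_num)]
    nlinarith
  linarith

private theorem E6a_tanh {b : ℝ} (hb : Real.pi / 4 ≤ b) : 0.6 ≤ Real.sinh b / Real.cosh b := by
  obtain ⟨p1, p2⟩ := E6a_pi
  have hch := Real.cosh_pos b
  rw [le_div_iff₀ hch, Real.sinh_eq, Real.cosh_eq]
  have h3 : Real.exp b * Real.exp (-b) = 1 := by rw [← Real.exp_add]; simp
  have h4 := Real.exp_pos b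
  have h5 := Real.exp_pos (-b)
  have h6 : 2 ≤ Real.exp b := by
    have e1 : Real.exp 0.75 ≤ Real.exp b := Real.exp_le_exp.2 (by linarith)
    have e2 : (2 : ℝ) ≤ Real.exp 0.75 := by
      have e3 : Real.exp 0.75 ^ 4 = Real.exp 3 := by
        rw [← Real.exp_nat_mul]; norm_num
      have e4 : Real.exp 3 = Real.exp 1 ^ 3 := by
        rw [← Real.exp_nat_mul]; norm_num
      have e5 := Real.exp_one_gt_d9
      have e6 : (2.7 : ℝ) ^ 3 ≤ Real.exp 1 ^ 3 := pow_le_pow_left₀ (by norm_num) (by linarith) 3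
      by_contra hlt
      have e7 : Real.exp 0.75 ^ 4 < 2 ^ 4 :=
        pow_lt_pow_left₀ (not_le.1 hlt) (Real.exp_pos _).le (by norm_num)
      rw [e3, e4] at e7
      norm_num at e6 e7
      linarith
    linarith
  nlinarith

/-- the components of `ud` -/
theorem ud_comp {a b : ℝ} (hN : 0 < Real.sin a ^ 2 + Real.sinh b ^ 2) {A P : ℝ}
    (hA : A = (a * (Real.sinh b * Real.cosh b) - b * (Real.sin a * Real.cos a)) /
        (Real.sin a ^ 2 + Real.sinh b ^ 2))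
    (hP : P = (a * (Real.sin a * Real.cos a) + b * (Real.sinh b * Real.cosh b)) /
        (Real.sin a ^ 2 + Real.sinh b ^ 2)) :
    sin ((a : ℂ) + b * I) = ⟨Real.sin a * Real.cosh b, Real.cos a * Real.sinh b⟩ ∧
    sin ((a : ℂ) + b * I) ≠ 0 ∧
    ‖sin ((a : ℂ) + b * I)‖ ^ 2 = Real.sin a ^ 2 + Real.sinh b ^ 2 ∧
    ud ((a : ℂ) + b * I) = (Real.exp (1 - P) / (Real.sin a ^ 2 + Real.sinh b ^ 2) : ℝ) *
      ⟨Real.cos A * (Real.sin a * Real.cosh b) + Real.sin A * (Real.cos a * Real.sinh b),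
        Real.sin A * (Real.sin a * Real.cosh b) - Real.cos A * (Real.cos a * Real.sinh b)⟩ := by
  have hs : sin ((a : ℂ) + b * I) = ⟨Real.sin a * Real.cosh b, Real.cos a * Real.sinh b⟩ := by
    rw [Complex.sin_add_mul_I]
    apply Complex.ext
    · simp [← Complex.ofReal_sin, ← Complex.ofReal_cos, ← Complex.ofReal_sinh, ← Complex.ofReal_cosh]
    · simp [← Complex.ofReal_sin, ← Complex.ofReal_cos, ← Complex.ofReal_sinh, ← Complex.ofReal_cosh]
  have hc : cos ((a : ℂ) + b * I) = ⟨Real.cos a * Real.cosh b, -(Real.sin a * Real.sinh b)⟩ := by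
    rw [Complex.cos_add_mul_I]
    apply Complex.ext
    · simp [← Complex.ofReal_sin, ← Complex.ofReal_cos, ← Complex.ofReal_sinh, ← Complex.ofReal_cosh]
    · simp [← Complex.ofReal_sin, ← Complex.ofReal_cos, ← Complex.ofReal_sinh, ← Complex.ofReal_cosh]
  have hch : Real.cosh b ^ 2 = 1 + Real.sinh b ^ 2 := by
    have := Real.cosh_sq b
    linarith
  have hcs : Real.cos a ^ 2 = 1 - Real.sin a ^ 2 := by
    have := Real.sin_sq_add_cos_sq a
    linarith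
  have hn : ‖sin ((a : ℂ) + b * I)‖ ^ 2 = Real.sin a ^ 2 + Real.sinh b ^ 2 := by
    rw [← Complex.normSq_eq_norm_sq, hs, Complex.normSq_mk]
    linear_combination Real.sin a ^ 2 * hch + Real.sinh b ^ 2 * hcs
  have h0 : sin ((a : ℂ) + b * I) ≠ 0 := by
    intro h
    rw [h, norm_zero] at hn
    norm_num at hn
    linarith
  refine ⟨hs, h0, hn, ?_⟩
  obtain ⟨N, hNd⟩ : ∃ N : ℝ, N = Real.sin a ^ 2 + Real.sinh b ^ 2 := ⟨_, rfl⟩
  rw [← hNd] at hN hn hA hP ⊢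
  have hN0 : (N : ℂ) ≠ 0 := by exact_mod_cast hN.ne'
  have hinv : (sin ((a : ℂ) + b * I))⁻¹ =
      (1 / N : ℝ) * ⟨Real.sin a * Real.cosh b, -(Real.cos a * Real.sinh b)⟩ := by
    rw [Complex.inv_def, Complex.normSq_eq_norm_sq, hn, hs]
    apply Complex.ext
    · simp
      ring
    · simp
      ring
  have hcot : ((a : ℂ) + b * I) * (cos ((a : ℂ) + b * I) / sin ((a : ℂ) + b * I)) =
      (P : ℂ) - A * I := by
    rw [div_eq_mul_inv, hinv, hc]
    apply Complex.ext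
    · simp
      rw [hP]
      field_simp
      linear_combination (b * Real.cosh b * Real.sinh b) * hcs +
        (a * Real.sin a * Real.cos a) * hch
    · simp
      rw [hA]
      field_simp
      linear_combination (-a * Real.cosh b * Real.sinh b) * hcs +
        (b * Real.sin a * Real.cos a) * hch
  have hexp : exp (1 - ((a : ℂ) + b * I) * (cos ((a : ℂ) + b * I) / sin ((a : ℂ) + b * I))) =
      (Real.exp (1 - P) : ℝ) * ⟨Real.cos A, Real.sin A⟩ := by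
    rw [hcot]
    have e1 : (1 : ℂ) - ((P : ℂ) - A * I) = ((1 - P : ℝ) : ℂ) + A * I := by
      push_cast
      ring
    rw [e1, Complex.exp_add, Complex.exp_mul_I, ← Complex.ofReal_exp]
    congr 1
    apply Complex.ext
    · simp [← Complex.ofReal_sin, ← Complex.ofReal_cos]
    · simp [← Complex.ofReal_sin, ← Complex.ofReal_cos]
  have hud : ud ((a : ℂ) + b * I) =
      exp (1 - ((a : ℂ) + b * I) * (cos ((a : ℂ) + b * I) / sin ((a : ℂ) + b * I))) *
        (sin ((a : ℂ) + b * I))⁻¹ := by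
    unfold ud G
    field_simp
  rw [hud, hexp, hinv]
  apply Complex.ext
  · simp
    ring
  · simp
    ring


/-- `ud` in polar form -/
private theorem E6a_polar {a b : ℝ} (ha : 3 * Real.pi / 8 ≤ a) (ha' : a ≤ Real.pi / 2)
    (hb : 0 ≤ b) : ∃ ψ : ℝ, 0 ≤ ψ ∧ ψ ≤ Real.pi / 2 ∧ (Real.pi / 4 ≤ b → 0.21 ≤ ψ) ∧
      (ud ((a : ℂ) + b * I)).re = ‖ud ((a : ℂ) + b * I)‖ * Real.cos ψ ∧
      (ud ((a : ℂ) + b * I)).im = ‖ud ((a : ℂ) + b * I)‖ * Real.sin ψ ∧
      ‖ud ((a : ℂ) + b * I)‖ ≤ 6 * Real.exp (-b) ∧ sin ((a : ℂ) + b * I) ≠ 0 ∧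
      ‖((a : ℂ) + b * I) / sin ((a : ℂ) + b * I) ^ 2‖ ≤ 7 * Real.exp (-b) := by
  obtain ⟨p1, p2⟩ := E6a_pi
  obtain ⟨s1, s2, c1, c2⟩ := E6a_sc ha ha'
  obtain ⟨h1, h2, h3, h4, h5, h6⟩ := E6a_hyp hb
  obtain ⟨a1, a2⟩ := E6a_A ha ha' hb
  have a3 := E6a_c ha ha'
  have hN : 0 < Real.sin a ^ 2 + Real.sinh b ^ 2 := by nlinarith
  obtain ⟨A, hA⟩ : ∃ A : ℝ, A = (a * (Real.sinh b * Real.cosh b) -
    b * (Real.sin a * Real.cos a)) / (Real.sin a ^ 2 + Real.sinh b ^ 2) := ⟨_, rfl⟩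
  obtain ⟨P, hP⟩ : ∃ P : ℝ, P = (a * (Real.sin a * Real.cos a) +
    b * (Real.sinh b * Real.cosh b)) / (Real.sin a ^ 2 + Real.sinh b ^ 2) := ⟨_, rfl⟩
  obtain ⟨-, hs0, hsn, hud⟩ := ud_comp hN hA hP
  rw [← hA] at a1 a2
  have hP0 : 0 ≤ P := by
    rw [hP]
    refine div_nonneg ?_ hN.le
    have e1 : 0 ≤ Real.sin a * Real.cos a := mul_nonneg (by linarith) c1
    have e2 : 0 ≤ Real.sinh b * Real.cosh b := mul_nonneg h1 (by linarith)
    have e3 : 0 ≤ a := by linarith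
    positivity
  have hsin : 0 < Real.sin a := by linarith
  have hch : 0 < Real.cosh b := by linarith
  obtain ⟨κ, hκ⟩ : ∃ κ : ℝ, κ = (Real.cos a * Real.sinh b) / (Real.sin a * Real.cosh b) :=
    ⟨_, rfl⟩
  have hκ0 : 0 ≤ κ := by rw [hκ]; positivity
  have hκ1 : κ = Real.cos a / Real.sin a * (Real.sinh b / Real.cosh b) := by
    rw [hκ]
    field_simp
  have hT0 : 0 ≤ Real.sinh b / Real.cosh b := by positivity
  have hχ0 : 0 ≤ Real.arctan κ := Real.arctan_nonneg.2 hκ0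
  have hχ1 : Real.arctan κ ≤ κ := by
    have e1 := Real.le_tan hχ0 (Real.arctan_lt_pi_div_two κ)
    rwa [Real.tan_arctan] at e1
  have hψ : 0.35 * (Real.sinh b / Real.cosh b) ≤ A - Real.arctan κ := by
    have e1 : 0.35 * (Real.sinh b / Real.cosh b) ≤
        (a - Real.sin a * Real.cos a - Real.cos a / Real.sin a) *
          (Real.sinh b / Real.cosh b) := mul_le_mul_of_nonneg_right a3 hT0
    have e2 : (a - Real.sin a * Real.cos a - Real.cos a / Real.sin a) *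
          (Real.sinh b / Real.cosh b) = (a - Real.sin a * Real.cos a) *
          (Real.sinh b / Real.cosh b) - κ := by
      rw [hκ1]
      ring
    linarith
  -- norm
  obtain ⟨S, hS⟩ : ∃ S : ℝ, S = √(Real.sin a ^ 2 + Real.sinh b ^ 2) := ⟨_, rfl⟩
  have hS0 : 0 < S := by
    rw [hS]
    exact Real.sqrt_pos.2 hN
  have hS2 : S ^ 2 = Real.sin a ^ 2 + Real.sinh b ^ 2 := by
    rw [hS]
    exact Real.sq_sqrt hN.le
  have hcs : Real.cos a ^ 2 = 1 - Real.sin a ^ 2 := by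
    have := Real.sin_sq_add_cos_sq a
    linarith
  have hrr : (Real.sin a * Real.cosh b) ^ 2 + (Real.cos a * Real.sinh b) ^ 2 = S ^ 2 := by
    rw [hS2]
    linear_combination Real.sin a ^ 2 * h3 + Real.sinh b ^ 2 * hcs
  have hE : 0 < Real.exp (1 - P) := Real.exp_pos _
  have hvn : ‖(⟨Real.cos A * (Real.sin a * Real.cosh b) + Real.sin A * (Real.cos a * Real.sinh b),
        Real.sin A * (Real.sin a * Real.cosh b) - Real.cos A * (Real.cos a * Real.sinh b)⟩ : ℂ)‖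
        = S := by
    have e1 : ‖(⟨Real.cos A * (Real.sin a * Real.cosh b) + Real.sin A * (Real.cos a * Real.sinh b),
        Real.sin A * (Real.sin a * Real.cosh b) - Real.cos A * (Real.cos a * Real.sinh b)⟩ : ℂ)‖
        ^ 2 = S ^ 2 := by
      rw [← Complex.normSq_eq_norm_sq, Complex.normSq_mk, ← hrr]
      have e2 := Real.sin_sq_add_cos_sq A
      linear_combination ((Real.sin a * Real.cosh b) ^ 2 + (Real.cos a * Real.sinh b) ^ 2) * e2
    exact (sq_eq_sq₀ (norm_nonneg _) hS0.le).1 e1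
  have hnorm : ‖ud ((a : ℂ) + b * I)‖ = Real.exp (1 - P) / S := by
    rw [hud, norm_mul, hvn, Complex.norm_real, Real.norm_of_nonneg (by positivity), ← hS2]
    field_simp
  -- the components
  have hcosχ : 0 < Real.cos (Real.arctan κ) := Real.cos_arctan_pos κ
  have hk2 : κ * Real.cos (Real.arctan κ) = Real.sin (Real.arctan κ) := by
    have e1 := Real.tan_arctan κ
    rw [Real.tan_eq_sin_div_cos, div_eq_iff hcosχ.ne'] at e1
    exact e1.symm
  have hr2 : Real.cos a * Real.sinh b = κ * (Real.sin a * Real.cosh b) := by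
    rw [hκ]
    field_simp
  have hr1 : Real.sin a * Real.cosh b = S * Real.cos (Real.arctan κ) := by
    have e1 : (Real.sin a * Real.cosh b) ^ 2 = (S * Real.cos (Real.arctan κ)) ^ 2 := by
      have e2 := Real.sin_sq_add_cos_sq (Real.arctan κ)
      rw [← hk2] at e2
      have e3 : (Real.sin a * Real.cosh b) ^ 2 * (1 + κ ^ 2) = S ^ 2 := by
        rw [← hrr, hr2]
        ring
      rw [mul_pow S, ← e3]
      linear_combination (-(Real.sin a * Real.cosh b) ^ 2) * e2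
    exact (sq_eq_sq₀ (by positivity) (by positivity)).1 e1
  have hr2' : Real.cos a * Real.sinh b = S * Real.sin (Real.arctan κ) := by
    rw [hr2, hr1, ← hk2]
    ring
  refine ⟨A - Real.arctan κ, ?_, ?_, ?_, ?_, ?_, ?_, hs0, ?_⟩
  · have e1 : 0 ≤ 0.35 * (Real.sinh b / Real.cosh b) := by positivity
    linarith
  · linarith
  · intro hb4
    have e1 := E6a_tanh hb4
    linarith
  · rw [hnorm, hud, hr1, hr2', Real.cos_sub, Complex.re_ofReal_mul, ← hS2]
    field_simp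
  · rw [hnorm, hud, hr1, hr2', Real.sin_sub, Complex.im_ofReal_mul, ← hS2]
    field_simp
  · rw [hnorm, div_le_iff₀ hS0]
    have e1 : Real.exp b / 2 ≤ S := by
      have e2 : (Real.exp b / 2) ^ 2 ≤ S ^ 2 := by
        rw [hS2]
        have e3 : (1 : ℝ) / 2 ≤ Real.sin a ^ 2 := by nlinarith
        have e4 : (Real.exp b / 2) ^ 2 = Real.exp b ^ 2 / 4 := by ring
        rw [e4]
        linarith
      exact (sq_le_sq₀ (by positivity) hS0.le).1 e2
    have e5 : Real.exp (1 - P) ≤ Real.exp 1 := Real.exp_le_exp.2 (by linarith)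
    have e6 := Real.exp_one_lt_d9
    have e7 : Real.exp b * Real.exp (-b) = 1 := by rw [← Real.exp_add]; simp
    have e8 : 6 * Real.exp (-b) * (Real.exp b / 2) ≤ 6 * Real.exp (-b) * S :=
      mul_le_mul_of_nonneg_left e1 (by positivity)
    have e9 : 6 * Real.exp (-b) * (Real.exp b / 2) = 3 := by
      linear_combination 3 * e7
    linarith
  · rw [norm_div, norm_pow, hsn]
    have e3 : (1 : ℝ) / 2 ≤ Real.sin a ^ 2 := by nlinarith
    have e7 : Real.exp b * Real.exp (-b) = 1 := by rw [← Real.exp_add]; simp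
    have e8 : ‖(a : ℂ) + b * I‖ ≤ a + b := by
      refine (norm_add_le _ _).trans ?_
      rw [norm_mul, Complex.norm_I, mul_one, Complex.norm_real, Complex.norm_real,
        Real.norm_of_nonneg (by linarith), Real.norm_of_nonneg hb]
    rw [div_le_iff₀ hN]
    have e9 : 7 * Real.exp (-b) * (Real.exp b ^ 2 / 4) ≤
        7 * Real.exp (-b) * (Real.sin a ^ 2 + Real.sinh b ^ 2) :=
      mul_le_mul_of_nonneg_left (by linarith) (by positivity)
    have e10 : 7 * Real.exp (-b) * (Real.exp b ^ 2 / 4) = 7 / 4 * Real.exp b := by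
      linear_combination (7 / 4 * Real.exp b) * e7
    have e11 := Real.add_one_le_exp b
    linarith

/-- the region of the path, `σ = ± 1` is the sign of the imaginary part -/
def Rg (σ : ℝ) : Set ℂ := {y | 3 * Real.pi / 8 ≤ y.re ∧ y.re ≤ Real.pi / 2 ∧ 0 ≤ σ * y.im}

theorem ud_conj (y : ℂ) : ud (conj y) = conj (ud y) := by
  unfold ud
  rw [G_conj, Complex.sin_conj, map_div₀, map_pow]

/-- the sine and the speeds -/
theorem ud_bounds {σ : ℝ} (hσ : σ = 1 ∨ σ = -1) {y : ℂ} (hy : y ∈ Rg σ) :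
    sin y ≠ 0 ∧ ‖ud y‖ ≤ 6 * Real.exp (-(σ * y.im)) ∧
      ‖y / sin y ^ 2‖ ≤ 7 * Real.exp (-(σ * y.im)) := by
  obtain ⟨h1, h2, h3⟩ := hy
  rcases hσ with rfl | rfl
  · rw [one_mul] at h3 ⊢
    obtain ⟨ψ, -, -, -, -, -, e1, e2, e3⟩ := E6a_polar h1 h2 h3
    rw [Complex.re_add_im] at e1 e2 e3
    exact ⟨e2, e1, e3⟩
  · have h3' : 0 ≤ (conj y).im := by
      rw [Complex.conj_im]
      linarith
    obtain ⟨ψ, -, -, -, -, -, e1, e2, e3⟩ := E6a_polar h1 h2 h3'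
    have e4 : ((y.re : ℝ) : ℂ) + ((conj y).im : ℝ) * I = conj y := by
      conv_rhs => rw [← Complex.re_add_im (conj y), Complex.conj_re]
    rw [e4] at e1 e2 e3
    have e5 : -(-1 * y.im) = -(conj y).im := by
      rw [Complex.conj_im]
      ring
    rw [e5]
    refine ⟨?_, ?_, ?_⟩
    · intro h
      apply e2
      rw [Complex.sin_conj, h, map_zero]
    · rwa [ud_conj, Complex.norm_conj] at e1
    · rwa [Complex.sin_conj, ← map_pow, ← map_div₀, Complex.norm_conj] at e3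

private theorem E6a_dir {u d c : ℂ} {m : ℝ} (hc : ‖c - 1‖ ≤ 1 / 9) (hd : ‖d‖ ≤ m)
    (h : (u * d).re ≤ -(‖u‖ * m / 9)) : (u * d * c).re ≤ 0 := by
  have e1 : u * d * c = u * d + u * d * (c - 1) := by ring
  have e2 : (u * d * (c - 1)).re ≤ ‖u‖ * m * (1 / 9) := by
    refine (Complex.re_le_norm _).trans ?_
    rw [norm_mul, norm_mul]
    have e3 : ‖u‖ * ‖d‖ ≤ ‖u‖ * m := mul_le_mul_of_nonneg_left hd (norm_nonneg _)
    exact mul_le_mul e3 hc (norm_nonneg _) ((mul_nonneg (norm_nonneg _) (norm_nonneg _)).trans e3)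
  rw [e1, Complex.add_re]
  linarith

private theorem E6a_nd (σ : ℝ) (hσ : σ = 1 ∨ σ = -1) : ‖(-(1 / 2) + σ * I : ℂ)‖ ≤ 9 / 8 := by
  have e1 : ‖(-(1 / 2) + σ * I : ℂ)‖ ^ 2 = 5 / 4 := by
    rw [← Complex.normSq_eq_norm_sq, Complex.normSq_apply]
    have h2 : σ * σ = 1 := by rcases hσ with rfl | rfl <;> norm_num
    have e2 : (-(1 / 2) + σ * I : ℂ).re = -(1 / 2) := by simp
    have e3 : (-(1 / 2) + σ * I : ℂ).im = σ := by simp
    rw [e2, e3, h2]
    norm_num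
  by_contra hlt
  have e2 : (9 / 8 : ℝ) ^ 2 < ‖(-(1 / 2) + σ * I : ℂ)‖ ^ 2 :=
    pow_lt_pow_left₀ (not_le.1 hlt) (by norm_num) (by norm_num)
  rw [e1] at e2
  norm_num at e2

/-- first leg: direction `-1/2 + σ i` -/
theorem dir1 {σ : ℝ} (hσ : σ = 1 ∨ σ = -1) {y : ℂ} (hy : y ∈ Rg σ) {c : ℂ}
    (hc : ‖c - 1‖ ≤ 1 / 9) : (ud y * (-(1 / 2) + σ * I) * c).re ≤ 0 := by
  refine E6a_dir hc (E6a_nd σ hσ) ?_
  have key : ∀ u : ℂ, ∀ ψ : ℝ, 0 ≤ ψ → ψ ≤ Real.pi / 2 → u.re = ‖u‖ * Real.cos ψ →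
      u.im = ‖u‖ * Real.sin ψ → (u * (-(1 / 2) + 1 * I)).re ≤ -(‖u‖ * (9 / 8) / 9) := by
    intro u ψ h0 h1 hr hi
    have e0 : (u * (-(1 / 2) + 1 * I)).re = -(u.re / 2) - u.im := by
      simp
      ring
    rw [e0, hr, hi]
    have e1 : 0 ≤ Real.cos ψ := Real.cos_nonneg_of_mem_Icc ⟨by linarith [Real.pi_pos], h1⟩
    have e2 : 0 ≤ Real.sin ψ := Real.sin_nonneg_of_nonneg_of_le_pi h0 (by linarith [Real.pi_pos])
    have e3 : 1 ≤ Real.cos ψ + Real.sin ψ := by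
      have e4 := Real.sin_sq_add_cos_sq ψ
      nlinarith [Real.cos_le_one ψ, Real.sin_le_one ψ]
    have e4 := norm_nonneg u
    nlinarith
  obtain ⟨h1, h2, h3⟩ := hy
  rcases hσ with rfl | rfl
  · rw [one_mul] at h3
    obtain ⟨ψ, f1, f2, -, f4, f5, -, -, -⟩ := E6a_polar h1 h2 h3
    rw [Complex.re_add_im] at f4 f5
    have := key _ ψ f1 f2 f4 f5
    rwa [Complex.ofReal_one]
  · have h3' : 0 ≤ (conj y).im := by
      rw [Complex.conj_im]
      linarith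
    obtain ⟨ψ, f1, f2, -, f4, f5, -, -, -⟩ := E6a_polar h1 h2 h3'
    have e4 : ((y.re : ℝ) : ℂ) + ((conj y).im : ℝ) * I = conj y := by
      conv_rhs => rw [← Complex.re_add_im (conj y), Complex.conj_re]
    rw [e4] at f4 f5
    have e5 := key _ ψ f1 f2 f4 f5
    rw [ud_conj, Complex.norm_conj] at e5
    have e6 : (ud y * (-(1 / 2) + ((-1 : ℝ) : ℂ) * I)).re = (conj (ud y) * (-(1 / 2) + 1 * I)).re := by
      simp
    rw [e6]
    exact e5

/-- second leg: direction `σ i` -/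
theorem dir2 {σ : ℝ} (hσ : σ = 1 ∨ σ = -1) {y : ℂ} (hy : y ∈ Rg σ) (hy4 : Real.pi / 4 ≤ σ * y.im)
    {c : ℂ} (hc : ‖c - 1‖ ≤ 1 / 9) : (ud y * (σ * I) * c).re ≤ 0 := by
  have hn : ‖((σ : ℂ) * I)‖ ≤ 1 := by
    rw [norm_mul, Complex.norm_I, mul_one, Complex.norm_real]
    rcases hσ with rfl | rfl <;> norm_num
  refine E6a_dir hc hn ?_
  have key : ∀ u : ℂ, ∀ ψ : ℝ, 0.21 ≤ ψ → ψ ≤ Real.pi / 2 →
      u.im = ‖u‖ * Real.sin ψ → (u * (1 * I)).re ≤ -(‖u‖ * 1 / 9) := by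
    intro u ψ h0 h1 hi
    have e0 : (u * (1 * I)).re = - u.im := by simp
    rw [e0, hi]
    have e1 := Real.mul_le_sin (x := ψ) (by linarith) h1
    have e2 : (1 : ℝ) / 9 ≤ Real.sin ψ := by
      refine le_trans ?_ e1
      have p2 := Real.pi_lt_d4
      have p0 := Real.pi_pos
      rw [div_mul_eq_mul_div, div_le_div_iff₀ (by norm_num) p0]
      nlinarith
    have e4 := norm_nonneg u
    nlinarith
  obtain ⟨h1, h2, h3⟩ := hy
  rcases hσ with rfl | rfl
  · rw [one_mul] at h3 hy4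
    obtain ⟨ψ, f1, f2, f3, f4, f5, -, -, -⟩ := E6a_polar h1 h2 h3
    rw [Complex.re_add_im] at f4 f5
    have := key _ ψ (f3 hy4) f2 f5
    rwa [Complex.ofReal_one]
  · have h3' : 0 ≤ (conj y).im := by
      rw [Complex.conj_im]
      linarith
    have hy4' : Real.pi / 4 ≤ (conj y).im := by
      rw [Complex.conj_im]
      linarith
    obtain ⟨ψ, f1, f2, f3, f4, f5, -, -, -⟩ := E6a_polar h1 h2 h3'
    have e4 : ((y.re : ℝ) : ℂ) + ((conj y).im : ℝ) * I = conj y := by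
      conv_rhs => rw [← Complex.re_add_im (conj y), Complex.conj_re]
    rw [e4] at f4 f5
    have e5 := key _ ψ (f3 hy4') f2 f5
    rw [ud_conj, Complex.norm_conj] at e5
    have e6 : (ud y * (((-1 : ℝ) : ℂ) * I)).re = (conj (ud y) * (1 * I)).re := by
      simp
    rw [e6]
    exact e5

end Pool.Agent.MP_ae5b4e_an_TI
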