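import Pool.Agent.Lib.MP_ae5b4e_an_WB.GB

/-!
# POR (iii), N2, TYPE I, trap (E6): the logarithm of `G` on the strip `0 < Re y < π`
-/

set_option autoImplicit false

noncomputable section

namespace Pool.Agent.MP_ae5b4e_an_TI

open Complex Set Filter Topology Metric
open Pool.Agent.MP_ae5b4e_an_WB

/-- logarithm of `G y / e` -/
def Lg (y : ℂ) : ℂ := log (sin y) - y * (cos y / sin y)

private theorem E6b_slit {y : ℂ} (h1 : 0 < y.re) (h2 : y.re < Real.pi) : sin y ∈ slitPlane := by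
  rw [Complex.mem_slitPlane_iff]
  left
  have e1 : (sin y).re = Real.sin y.re * Real.cosh y.im := by
    conv_lhs => rw [← Complex.re_add_im y, Complex.sin_add_mul_I]
    simp [← Complex.ofReal_sin, ← Complex.ofReal_cos, ← Complex.ofReal_sinh, ← Complex.ofReal_cosh]
  rw [e1]
  exact mul_pos (Real.sin_pos_of_pos_of_lt_pi h1 h2) (Real.cosh_pos _)

theorem hasDerivAt_Lg {y : ℂ} (h1 : 0 < y.re) (h2 : y.re < Real.pi) :
    HasDerivAt Lg (y / sin y ^ 2) y := by
  have hsl := E6b_slit h1 h2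
  have hs : sin y ≠ 0 := Complex.slitPlane_ne_zero hsl
  have e1 : HasDerivAt (fun y => log (sin y)) (cos y / sin y) y := (hasDerivAt_sin y).clog hsl
  have e2 := (hasStrictDerivAt_ctg hs).hasDerivAt
  have e3 := (hasDerivAt_id y).mul e2
  have e4 := e1.sub e3
  refine e4.congr_deriv ?_
  simp only [id_eq]
  field_simp
  ring

theorem exp_Lg {y : ℂ} (hs : sin y ≠ 0) : exp (Lg y) * exp 1 = G y := by
  unfold Lg G
  rw [Complex.exp_sub, Complex.exp_log hs, Complex.exp_sub]
  have := Complex.exp_ne_zero (y * (cos y / sin y))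
  field_simp

theorem exp_Lg_sub {y y1 : ℂ} (hs : sin y ≠ 0) (hs1 : sin y1 ≠ 0) :
    G y1 ^ 2 * exp (2 * (Lg y - Lg y1)) = G y ^ 2 := by
  rw [← exp_Lg hs, ← exp_Lg hs1, mul_sub, Complex.exp_sub, two_mul, Complex.exp_add, two_mul,
    Complex.exp_add]
  have := Complex.exp_ne_zero (Lg y1)
  field_simp

end Pool.Agent.MP_ae5b4e_an_TI
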