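import Mathlib

/-!
# POR (iii), N2, TYPE I, trap (E6): inverse of the logarithm of `q` where `q' / q` is nearly constant
-/

set_option autoImplicit false

noncomputable section

namespace Pool.Agent.MP_ae5b4e_an_TI

open Complex Set Filter Topology Metric
open scoped NNReal

/-- primitive of `q' / q` on a ball -/
private theorem E6c_log {q : ℂ → ℂ} {p : ℂ} {R : ℝ} (hR : 0 < R)
    (hd : DifferentiableOn ℂ q (ball p R)) (h0 : ∀ z ∈ ball p R, q z ≠ 0) :
    ∃ g : ℂ → ℂ, g p = 0 ∧ (∀ z ∈ ball p R, HasDerivAt g (deriv q z / q z) z) ∧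
      ∀ z ∈ ball p R, q z = q p * exp (g z) := by
  have hd' : DifferentiableOn ℂ (deriv q) (ball p R) := hd.deriv isOpen_ball
  have hq : DifferentiableOn ℂ (fun z => deriv q z / q z) (ball p R) := hd'.div hd h0
  obtain ⟨g, hgc, hg⟩ := hq.isExactOn_ball.with_val_at p 0
  refine ⟨g, hgc, hg, ?_⟩
  have hcc : p ∈ ball p R := mem_ball_self hR
  have hPd : ∀ z ∈ ball p R, HasDerivAt (fun z => q z * exp (-g z)) 0 z := by
    intro z hz
    have h1 : HasDerivAt q (deriv q z) z := (hd.differentiableAt (isOpen_ball.mem_nhds hz)).hasDerivAt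
    have h2 := h1.mul ((hg z hz).neg.cexp)
    refine h2.congr_deriv ?_
    have := h0 z hz
    field_simp
    ring
  have hPdiff : DifferentiableOn ℂ (fun z => q z * exp (-g z)) (ball p R) :=
    fun z hz => (hPd z hz).differentiableAt.differentiableWithinAt
  intro z hz
  have h1 : q z * exp (-g z) = q p * exp (-g p) :=
    isOpen_ball.is_const_of_deriv_eq_zero (convex_ball p R).isPreconnected hPdiff
      (fun w hw => (hPd w hw).deriv) hz hcc
  rw [hgc, neg_zero, Complex.exp_zero, mul_one, Complex.exp_neg] at h1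
  have h3 := Complex.exp_ne_zero (g z)
  field_simp at h1
  rw [h1, mul_comm]

/-- INVERSE OF THE LOGARITHM. `Z w` is the point with `q (Z w) = q p exp w` -/
theorem exists_Z {q : ℂ → ℂ} {p : ℂ} {μ ρ : ℝ} (hμ : 0 < μ) (hρ : 0 < ρ)
    (hd : DifferentiableOn ℂ q (ball p (ρ * μ))) (h0 : ∀ z ∈ ball p (ρ * μ), q z ≠ 0)
    (hlog : ∀ z ∈ ball p (ρ * μ), ‖deriv q z / q z + I / μ‖ ≤ 1 / (10 * μ)) :
    ∃ Z : ℂ → ℂ, Z 0 = p ∧ ∀ w ∈ ball (0 : ℂ) (9 / 10 * ρ), Z w ∈ ball p (ρ * μ) ∧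
      q (Z w) = q p * exp w ∧ HasDerivAt Z (q (Z w) / deriv q (Z w)) w := by
  have hR : 0 < ρ * μ := mul_pos hρ hμ
  obtain ⟨g, hg0, hg, hge⟩ := E6c_log hR hd h0
  have hμc : (μ : ℂ) ≠ 0 := by exact_mod_cast hμ.ne'
  have ha0 : -(I / (μ : ℂ)) ≠ 0 := neg_ne_zero.2 (div_ne_zero I_ne_zero hμc)
  obtain ⟨A, hA⟩ : ∃ A : ℂ ≃L[ℂ] ℂ, A = ContinuousLinearEquiv.unitsEquivAut ℂ
    (Units.mk0 (-(I / (μ : ℂ))) ha0) := ⟨_, rfl⟩
  have hAa : ∀ x : ℂ, (A : ℂ →L[ℂ] ℂ) x = x * -(I / (μ : ℂ)) := by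
    intro x
    rw [hA]
    rfl
  have hAs : ∀ x : ℂ, A.symm x = x * (-(I / (μ : ℂ)))⁻¹ := by
    intro x
    rw [hA]
    rfl
  obtain ⟨c, hc⟩ : ∃ c : ℝ≥0, (c : ℝ) = 1 / (10 * μ) := ⟨⟨1 / (10 * μ), by positivity⟩, rfl⟩
  have happ : ApproximatesLinearOn g (A : ℂ →L[ℂ] ℂ) (ball p (ρ * μ)) c := by
    intro x hx y hy
    have h1 := (convex_ball p (ρ * μ)).norm_image_sub_le_of_norm_hasDerivWithin_le
      (f := fun z => g z + I / μ * z) (f' := fun z => deriv q z / q z + I / μ * 1)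
      (C := 1 / (10 * μ)) (fun z hz => ((hg z hz).add
        ((hasDerivAt_id z).const_mul (I / (μ : ℂ)))).hasDerivWithinAt)
      (fun z hz => by rw [mul_one]; exact hlog z hz) hy hx
    rw [hc, hAa]
    refine le_of_eq_of_le ?_ h1
    congr 1
    ring
  have hN : (‖((A.symm : ℂ ≃L[ℂ] ℂ) : ℂ →L[ℂ] ℂ)‖₊ : ℝ) = μ := by
    rw [coe_nnnorm]
    apply le_antisymm
    · refine ContinuousLinearMap.opNorm_le_bound _ hμ.le fun x => ?_
      rw [ContinuousLinearEquiv.coe_coe, hAs, norm_mul, norm_inv, norm_neg, norm_div,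
        Complex.norm_I, Complex.norm_real, Real.norm_of_nonneg hμ.le, one_div, inv_inv, mul_comm]
    · have h1 := ((A.symm : ℂ ≃L[ℂ] ℂ) : ℂ →L[ℂ] ℂ).le_opNorm 1
      rw [ContinuousLinearEquiv.coe_coe, hAs, norm_mul, norm_inv, norm_neg, norm_div,
        Complex.norm_I, Complex.norm_real, Real.norm_of_nonneg hμ.le, one_div, inv_inv,
        norm_one, one_mul, mul_one] at h1
      exact h1
  have hcN : Subsingleton ℂ ∨ c < ‖((A.symm : ℂ ≃L[ℂ] ℂ) : ℂ →L[ℂ] ℂ)‖₊⁻¹ := by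
    right
    rw [← NNReal.coe_lt_coe, NNReal.coe_inv, hN, hc, one_div, mul_inv]
    have h1 : 0 < μ⁻¹ := inv_pos.2 hμ
    linarith
  obtain ⟨e, he⟩ : ∃ e : OpenPartialHomeomorph ℂ ℂ,
    e = happ.toOpenPartialHomeomorph g (ball p (ρ * μ)) hcN isOpen_ball := ⟨_, rfl⟩
  have hes : e.source = ball p (ρ * μ) := by rw [he]; rfl
  have hec : ∀ x, e x = g x := by intro x; rw [he]; rfl
  have htar : ∀ w ∈ ball (0 : ℂ) (9 / 10 * ρ), w ∈ e.target := by
    intro w hw
    rw [mem_ball_zero_iff] at hw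
    have h1 := happ.closedBall_subset_target hcN isOpen_ball (b := p) (ε := ‖w‖ * μ * (10 / 9))
      (by positivity) (by
        intro z hz
        rw [mem_closedBall] at hz
        rw [mem_ball]
        refine lt_of_le_of_lt hz ?_
        nlinarith)
    rw [he]
    apply h1
    rw [mem_closedBall, hg0, dist_zero_right, NNReal.coe_inv, hN, hc]
    have h2 : (μ⁻¹ - 1 / (10 * μ)) * (‖w‖ * μ * (10 / 9)) = ‖w‖ := by
      field_simp
      ring
    rw [h2]
  refine ⟨e.symm, ?_, ?_⟩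
  · have h1 : e p = 0 := by rw [hec, hg0]
    rw [← h1]
    exact e.left_inv (by rw [hes]; exact mem_ball_self hR)
  · intro w hw
    have hwt := htar w hw
    have h1 : e.symm w ∈ ball p (ρ * μ) := by
      rw [← hes]
      exact e.map_target hwt
    have h2 : g (e.symm w) = w := by
      rw [← hec]
      exact e.right_inv hwt
    refine ⟨h1, ?_, ?_⟩
    · have h3 := hge _ h1
      rwa [h2] at h3
    · have h3 : deriv q (e.symm w) / q (e.symm w) ≠ 0 := by
        intro h4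
        have h5 := hlog _ h1
        rw [h4, zero_add, norm_div, Complex.norm_I, Complex.norm_real,
          Real.norm_of_nonneg hμ.le, one_div_le_one_div hμ (by positivity)] at h5
        linarith
      have h4 : HasDerivAt e (deriv q (e.symm w) / q (e.symm w)) (e.symm w) := by
        have h5 : (e : ℂ → ℂ) = g := funext hec
        rw [h5]
        exact hg _ h1
      have h5 := e.hasDerivAt_symm hwt h3 h4
      rwa [inv_div] at h5

end Pool.Agent.MP_ae5b4e_an_TI
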