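import Pool.Agent.Lib.MP_ae5b4e_an_WB.GI
import Pool.Agent.Lib.MP_ae5b4e_an_T.GrC

/-!
# POR (iii), N2, TYPE I, trap (E6): continuation of the state along a path
-/

set_option autoImplicit false

noncomputable section

namespace Pool.Agent.MP_ae5b4e_an_TI

open Complex Set Filter Topology Metric
open Pool.Agent.MP_ae5b4e_an_WB
open Pool.Agent.MP_ae5b4e_an_T

/-- holomorphic local inverse -/
private theorem E6d_inv {f : ℂ → ℂ} {p : ℂ} (ha : AnalyticAt ℂ f p) (hf : deriv f p ≠ 0) :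
    ∃ g : ℂ → ℂ, g (f p) = p ∧ ContinuousAt g (f p) ∧
      ∀ᶠ w in 𝓝 (f p), f (g w) = w ∧ HasDerivAt g (deriv f (g w))⁻¹ w := by
  have hs : HasStrictDerivAt f (deriv f p) p := ha.hasStrictDerivAt
  have hF := hs.hasStrictFDerivAt_equiv hf
  obtain ⟨e, he⟩ : ∃ e : OpenPartialHomeomorph ℂ ℂ, e = hF.toOpenPartialHomeomorph f := ⟨_, rfl⟩
  have hec : (e : ℂ → ℂ) = f := by rw [he]; rfl
  have hps : p ∈ e.source := by rw [he]; exact hF.mem_toOpenPartialHomeomorph_source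
  have hpt : f p ∈ e.target := by
    have := e.map_source hps
    rwa [hec] at this
  have hgp : e.symm (f p) = p := by
    have := e.left_inv hps
    rwa [hec] at this
  have hcont : ContinuousAt e.symm (f p) := e.continuousAt_symm hpt
  refine ⟨e.symm, hgp, hcont, ?_⟩
  have h1 : ∀ᶠ w in 𝓝 p, AnalyticAt ℂ f w ∧ deriv f w ≠ 0 :=
    ha.eventually_analyticAt.and (ha.deriv.continuousAt.eventually_ne hf)
  have h2 : ∀ᶠ w in 𝓝 (f p), AnalyticAt ℂ f (e.symm w) ∧ deriv f (e.symm w) ≠ 0 := by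
    have h3 : Tendsto e.symm (𝓝 (f p)) (𝓝 p) := by
      have := hcont.tendsto
      rwa [hgp] at this
    exact h3.eventually h1
  filter_upwards [h2, e.open_target.mem_nhds hpt] with w hw hwt
  refine ⟨?_, ?_⟩
  · have := e.right_inv hwt
    rwa [hec] at this
  · exact e.hasDerivAt_symm hwt hw.2 (by rw [hec]; exact hw.1.differentiableAt.hasDerivAt)

/-- CONTINUATION. `y` a path, `z` the labels with `G (y t)² = γ² q (z t)`, `T' = (G y / y) z'`; if `T` stays in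
the half plane and the state is right at `t = 0`, it is right for all `t` -/
theorem cont {q : ℂ → ℂ} {C γ v : ℝ} {f : ℂ → ℂ} (h : Sl q C γ v f) {t1 : ℝ} {y z T z' : ℝ → ℂ}
    (hyc : Continuous y) (hys : ∀ t ∈ Icc (0 : ℝ) t1, sin (y t) ≠ 0)
    (hz : ∀ t ∈ Icc (0 : ℝ) t1, HasDerivAt z (z' t) t)
    (hG : ∀ t ∈ Icc (0 : ℝ) t1, G (y t) ^ 2 = (γ : ℂ) ^ 2 * q (z t))
    (hT : ∀ t ∈ Icc (0 : ℝ) t1, HasDerivAt T (G (y t) / y t * z' t) t)
    (hTm : ∀ t ∈ Icc (0 : ℝ) t1, T t ∈ Hp v) (h0 : f (T 0) = z 0)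
    (hX0 : Xf q γ f (T 0) = y 0 ^ 2) :
    ∀ t ∈ Icc (0 : ℝ) t1, f (T t) = z t ∧ Xf q γ f (T t) = y t ^ 2 := by
  have hfc : ∀ τ ∈ Hp v, ContinuousAt f τ := fun τ hτ =>
    (h.fd.differentiableAt ((Hp_open v).mem_nhds hτ)).continuousAt
  have hXc : ∀ τ ∈ Hp v, ContinuousAt (Xf q γ f) τ := fun τ hτ =>
    ((Xf_diff h).differentiableAt ((Hp_open v).mem_nhds hτ)).continuousAt
  have hq : ∀ t ∈ Icc (0 : ℝ) t1, q (z t) ≠ 0 := by
    intro t ht h1
    have h2 := hG t ht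
    rw [h1, mul_zero] at h2
    exact pow_ne_zero 2 (G_ne_zero (hys t ht)) h2
  have hcl : IsClosed ({t | f (T t) = z t ∧ Xf q γ f (T t) = y t ^ 2} ∩ Icc 0 t1) := by
    have h1 : ContinuousOn (fun t => (f (T t) - z t, Xf q γ f (T t) - y t ^ 2)) (Icc 0 t1) := by
      intro t ht
      have hTc := (hT t ht).continuousAt
      have h2 : ContinuousAt (fun t => f (T t)) t :=
        ContinuousAt.comp (g := f) (hfc _ (hTm t ht)) hTc
      have h3 : ContinuousAt (fun t => Xf q γ f (T t)) t :=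
        ContinuousAt.comp (g := Xf q γ f) (hXc _ (hTm t ht)) hTc
      exact ((h2.sub (hz t ht).continuousAt).prodMk
        (h3.sub (hyc.continuousAt.pow 2))).continuousWithinAt
    have h2 := h1.preimage_isClosed_of_isClosed isClosed_Icc (isClosed_singleton (x := (0, 0)))
    convert h2 using 1
    ext t
    constructor
    · rintro ⟨⟨e1, e2⟩, e3⟩
      refine ⟨e3, ?_⟩
      simp only [mem_preimage, mem_singleton_iff, Prod.mk.injEq]
      exact ⟨sub_eq_zero.2 e1, sub_eq_zero.2 e2⟩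
    · rintro ⟨e3, e4⟩
      simp only [mem_preimage, mem_singleton_iff, Prod.mk.injEq] at e4
      exact ⟨⟨sub_eq_zero.1 e4.1, sub_eq_zero.1 e4.2⟩, e3⟩
  refine fun t ht => IsClosed.Icc_subset_of_forall_mem_nhdsWithin hcl ⟨h0, hX0⟩ ?_ ht
  rintro x ⟨⟨hfx, hXx⟩, hx⟩
  have hxI : x ∈ Icc (0 : ℝ) t1 := ⟨hx.1, hx.2.le⟩
  have hTx := hTm x hxI
  have hqx : q (f (T x)) ≠ 0 := by rw [hfx]; exact hq x hxI
  have hsx := hys x hxI
  have hyx : y x ≠ 0 := ne_zero_of_sin hsx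
  obtain ⟨-, -, hfd⟩ := y_spec h hTx hqx hXx.symm
  have hfd0 : deriv f (T x) ≠ 0 := by
    rw [hfd]
    exact div_ne_zero hyx (G_ne_zero hsx)
  obtain ⟨g, hg1, hg2, hg3⟩ := E6d_inv (h.fd.analyticAt ((Hp_open v).mem_nhds hTx)) hfd0
  rw [hfx] at hg1 hg2 hg3
  -- all statements hold on the right of `x`
  have hIcc : ∀ᶠ t in 𝓝[≥] x, t ∈ Icc (0 : ℝ) t1 := Icc_mem_nhdsGE_of_mem hx
  have hzx : Tendsto z (𝓝[≥] x) (𝓝 (z x)) :=
    (hz x hxI).continuousAt.tendsto.mono_left nhdsWithin_le_nhds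
  have hm1 : ∀ᶠ t in 𝓝[≥] x, f (g (z t)) = z t ∧
      HasDerivAt g (deriv f (g (z t)))⁻¹ (z t) := hzx.eventually hg3
  have hmT : Tendsto (fun t => g (z t)) (𝓝[≥] x) (𝓝 (T x)) := by
    have e1 : Tendsto g (𝓝 (z x)) (𝓝 (T x)) := by
      have := hg2.tendsto
      rwa [hg1] at this
    exact e1.comp hzx
  have hm2 : ∀ᶠ t in 𝓝[≥] x, g (z t) ∈ Hp v := hmT.eventually ((Hp_open v).mem_nhds hTx)
  have hXt : Tendsto (fun t => Xf q γ f (g (z t))) (𝓝[≥] x) (𝓝 (y x ^ 2)) := by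
    have e1 : Tendsto (Xf q γ f) (𝓝 (T x)) (𝓝 (y x ^ 2)) := by
      have := (hXc _ hTx).tendsto
      rwa [hXx] at this
    exact e1.comp hmT
  obtain ⟨Y, hY⟩ : ∃ Y : ℝ → ℂ, Y = fun t => y x * (Xf q γ f (g (z t)) / y x ^ 2) ^ (1 / 2 : ℂ) :=
    ⟨_, rfl⟩
  have hyx2 : y x ^ 2 ≠ 0 := pow_ne_zero 2 hyx
  have hY2 : ∀ᶠ t in 𝓝[≥] x, Y t ^ 2 = Xf q γ f (g (z t)) := by
    have e1 : ∀ᶠ t in 𝓝[≥] x, Xf q γ f (g (z t)) ≠ 0 := hXt.eventually_ne hyx2
    filter_upwards [e1] with t ht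
    have e2 : Xf q γ f (g (z t)) / y x ^ 2 ≠ 0 := div_ne_zero ht hyx2
    rw [hY]
    simp only
    rw [mul_pow, ← Complex.cpow_nat_mul]
    have e3 : ((2 : ℕ) : ℂ) * (1 / 2) = 1 := by norm_num
    rw [e3, Complex.cpow_one]
    field_simp
  have hYt : Tendsto Y (𝓝[≥] x) (𝓝 (y x)) := by
    have e1 : Tendsto (fun t => Xf q γ f (g (z t)) / y x ^ 2) (𝓝[≥] x) (𝓝 1) := by
      have e2 := hXt.div_const (y x ^ 2)
      rwa [div_self hyx2] at e2
    have e3 : ContinuousAt (fun w : ℂ => w ^ (1 / 2 : ℂ)) 1 :=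
      continuousAt_cpow_const Complex.one_mem_slitPlane
    have e4 : Tendsto (fun t => (Xf q γ f (g (z t)) / y x ^ 2) ^ (1 / 2 : ℂ)) (𝓝[≥] x) (𝓝 1) := by
      have e5 := e3.tendsto.comp e1
      rwa [Complex.one_cpow] at e5
    have e6 := e4.const_mul (y x)
    rw [mul_one] at e6
    rw [hY]
    exact e6
  have hyt : Tendsto y (𝓝[≥] x) (𝓝 (y x)) := hyc.continuousAt.tendsto.mono_left nhdsWithin_le_nhds
  have hGG : ∀ᶠ t in 𝓝[≥] x, G (Y t) = G (y t) := by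
    have e1 : Tendsto (fun t => G (Y t) + G (y t)) (𝓝[≥] x) (𝓝 (G (y x) + G (y x))) :=
      ((continuousAt_G hsx).tendsto.comp hYt).add ((continuousAt_G hsx).tendsto.comp hyt)
    have e2 : G (y x) + G (y x) ≠ 0 := by
      rw [← two_mul]
      exact mul_ne_zero two_ne_zero (G_ne_zero hsx)
    filter_upwards [e1.eventually_ne e2, hY2, hm1, hm2, hIcc] with t h1 h2 h3 h4 h5
    have e3 : q (f (g (z t))) ≠ 0 := by rw [h3.1]; exact hq t h5
    obtain ⟨-, e4, -⟩ := y_spec h h4 e3 h2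
    rw [h3.1, ← hG t h5] at e4
    have e5 : (G (Y t) - G (y t)) * (G (Y t) + G (y t)) = 0 := by linear_combination e4
    rcases mul_eq_zero.1 e5 with e6 | e6
    · exact sub_eq_zero.1 e6
    · exact absurd e6 h1
  have hYy : ∀ᶠ t in 𝓝[≥] x, Y t = y t := eventually_eq_of_G_eq hsx hYt hyt hGG
  have hall : ∀ᶠ t in 𝓝[≥] x, t ∈ Icc (0 : ℝ) t1 ∧ f (g (z t)) = z t ∧
      Xf q γ f (g (z t)) = y t ^ 2 ∧
      HasDerivAt (fun t => g (z t)) (G (y t) / y t * z' t) t := by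
    filter_upwards [hIcc, hm1, hm2, hY2, hYy] with t h1 h2 h3 h4 h5
    rw [h5] at h4
    have e3 : q (f (g (z t))) ≠ 0 := by rw [h2.1]; exact hq t h1
    obtain ⟨-, -, e4⟩ := y_spec h h3 e3 h4
    refine ⟨h1, h2.1, h4.symm, ?_⟩
    have e5 := h2.2
    rw [e4, inv_div] at e5
    have e6 := HasDerivAt.scomp (h := z) (g₁ := g) t e5 (hz t h1)
    rw [smul_eq_mul, mul_comm] at e6
    exact e6
  obtain ⟨u, hxu, hu⟩ := (mem_nhdsGE_iff_exists_Ico_subset' hx.2).1 hall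
  have hmem : Ioo x u ∈ 𝓝[>] x := Ioo_mem_nhdsGT hxu
  filter_upwards [hmem] with t ht
  have hsub : ∀ s ∈ Icc x t, s ∈ Ico x u := fun s hs => ⟨hs.1, lt_of_le_of_lt hs.2 ht.2⟩
  have hc : ContinuousOn (fun s => g (z s) - T s) (Icc x t) := by
    intro s hs
    obtain ⟨e1, -, -, e4⟩ := hu (hsub s hs)
    exact (e4.continuousAt.sub (hT s e1).continuousAt).continuousWithinAt
  have hcd := constant_of_has_deriv_right_zero hc (fun s hs => by
    obtain ⟨e1, -, -, e4⟩ := hu (hsub s ⟨hs.1, hs.2.le⟩)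
    have e5 := e4.sub (hT s e1)
    rw [sub_self] at e5
    exact e5.hasDerivWithinAt) t ⟨ht.1.le, le_refl t⟩
  have hmt : g (z t) = T t := by
    have e1 : g (z t) - T t = g (z x) - T x := hcd
    rw [hg1, sub_self] at e1
    exact sub_eq_zero.1 e1
  obtain ⟨-, e2, e3, -⟩ := hu ⟨ht.1.le, ht.2⟩
  rw [hmt] at e2 e3
  exact ⟨e2, e3⟩

end Pool.Agent.MP_ae5b4e_an_TI
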