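import Pool.Agent.Lib.MP_ae5b4e_an_TI.E6a
import Pool.Agent.Lib.MP_ae5b4e_an_TI.E6b
import Pool.Agent.Lib.MP_ae5b4e_an_TI.E6c
import Pool.Agent.Lib.MP_ae5b4e_an_TI.E6d

/-!
# POR (iii), N2, TYPE I, trap (E6): one leg of the path
-/

set_option autoImplicit false

noncomputable section

namespace Pool.Agent.MP_ae5b4e_an_TI

open Complex Set Filter Topology Metric MeasureTheory
open Pool.Agent.MP_ae5b4e_an_WB
open Pool.Agent.MP_ae5b4e_an_T

/-- a function with the speed `c e^(-t)` moves at most `c` -/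
private theorem E6e_move {F : ℝ → ℂ} {F' : ℝ → ℂ} {t1 c : ℝ}
    (hF : ∀ t ∈ Icc (0 : ℝ) t1, HasDerivAt F (F' t) t)
    (hb : ∀ t ∈ Icc (0 : ℝ) t1, ‖F' t‖ ≤ c * Real.exp (-t)) (hc : 0 ≤ c) :
    ∀ t ∈ Icc (0 : ℝ) t1, ‖F t - F 0‖ ≤ c := by
  intro t ht
  have h1 := image_norm_le_of_norm_deriv_right_le_deriv_boundary' (f := fun t => F t - F 0)
    (f' := F') (a := 0) (b := t1) (B := fun t => c * (1 - Real.exp (-t)))
    (B' := fun t => c * Real.exp (-t))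
    (fun s hs => ((hF s hs).sub_const _).continuousAt.continuousWithinAt)
    (fun s hs => ((hF s ⟨hs.1, hs.2.le⟩).sub_const _).hasDerivWithinAt)
    (by simp)
    (by fun_prop)
    (fun s _ => by
      have e1 : HasDerivAt (fun t : ℝ => Real.exp (-t)) (Real.exp (-s) * (-1)) s :=
        ((hasDerivAt_id s).neg).exp
      have e2 := (e1.const_sub 1).const_mul c
      refine (e2.congr_deriv ?_).hasDerivWithinAt
      ring)
    (fun s hs => hb s ⟨hs.1, hs.2.le⟩) ht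
  refine h1.trans ?_
  have e1 := Real.exp_pos (-t)
  nlinarith

/-- `q / q'` where `q' / q` is nearly `- i / μ` -/
private theorem E6e_c {Q : ℂ} {μ : ℝ} (hμ : 0 < μ) (h : ‖Q + I / μ‖ ≤ 1 / (10 * μ)) :
    ∃ c : ℂ, ‖c - 1‖ ≤ 1 / 9 ∧ Q⁻¹ = I * μ * c ∧ ‖Q⁻¹‖ ≤ 10 / 9 * μ ∧ Q ≠ 0 := by
  have hμc : (μ : ℂ) ≠ 0 := by exact_mod_cast hμ.ne'
  obtain ⟨η, hη⟩ : ∃ η : ℂ, η = I * μ * (Q + I / μ) := ⟨_, rfl⟩
  have hn : ‖η‖ ≤ 1 / 10 := by
    rw [hη, norm_mul, norm_mul, Complex.norm_I, one_mul, Complex.norm_real,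
      Real.norm_of_nonneg hμ.le]
    calc μ * ‖Q + I / μ‖ ≤ μ * (1 / (10 * μ)) := mul_le_mul_of_nonneg_left h hμ.le
      _ = 1 / 10 := by field_simp
  have h1 : I * μ * Q = 1 + η := by
    rw [hη]
    have e1 : I * μ * (Q + I / μ) = I * μ * Q + I * I := by
      field_simp
    rw [e1, Complex.I_mul_I]
    ring
  have h2 : 9 / 10 ≤ ‖1 + η‖ := by
    have e1 := norm_sub_norm_le (1 : ℂ) (-η)
    rw [norm_one, norm_neg, sub_neg_eq_add] at e1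
    linarith
  have h3 : (1 + η) ≠ 0 := by
    intro h0
    rw [h0, norm_zero] at h2
    norm_num at h2
  have hQ : Q ≠ 0 := by
    intro h0
    rw [h0, mul_zero] at h1
    exact h3 h1.symm
  have h4 : Q⁻¹ = I * μ * (1 + η)⁻¹ := by
    rw [← h1]
    field_simp
  have h5 : ‖(1 + η)⁻¹‖ ≤ 10 / 9 := by
    rw [norm_inv]
    calc ‖1 + η‖⁻¹ ≤ (9 / 10)⁻¹ := inv_anti₀ (by norm_num) h2
      _ = 10 / 9 := by norm_num
  refine ⟨(1 + η)⁻¹, ?_, h4, ?_, hQ⟩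
  · have e1 : (1 + η)⁻¹ - 1 = -(η * (1 + η)⁻¹) := by
      field_simp
      ring
    rw [e1, norm_neg, norm_mul]
    calc ‖η‖ * ‖(1 + η)⁻¹‖ ≤ 1 / 10 * (10 / 9) :=
          mul_le_mul hn h5 (norm_nonneg _) (by norm_num)
      _ = 1 / 9 := by norm_num
  · rw [h4, norm_mul, norm_mul, Complex.norm_I, one_mul, Complex.norm_real,
      Real.norm_of_nonneg hμ.le, mul_comm]
    exact mul_le_mul_of_nonneg_right h5 hμ.le

/-- ONE LEG. -/
theorem leg {q : ℂ → ℂ} {C γ v : ℝ} {f : ℂ → ℂ} (h : Sl q C γ v f) {τ0 : ℂ} (hτ0 : τ0 ∈ Hp v)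
    {y0 d : ℂ} {σ t1 : ℝ} (hσ : σ = 1 ∨ σ = -1) (ht1 : 0 ≤ t1) (hy0 : y0 ^ 2 = Xf q γ f τ0)
    (hdim : d.im = σ) (hd : ‖d‖ ≤ 9 / 8) (hR : ∀ t ∈ Icc (0 : ℝ) t1, y0 + t * d ∈ Rg σ)
    (hdir : ∀ t ∈ Icc (0 : ℝ) t1, ∀ c : ℂ, ‖c - 1‖ ≤ 1 / 9 → (ud (y0 + t * d) * d * c).re ≤ 0)
    {μ : ℝ} (hμ : 0 < μ) (hb : ball (f τ0) (18 * μ) ⊆ Hm)
    (h0 : ∀ z ∈ ball (f τ0) (18 * μ), q z ≠ 0)
    (hlog : ∀ z ∈ ball (f τ0) (18 * μ), ‖deriv q z / q z + I / μ‖ ≤ 1 / (10 * μ)) :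
    ∃ τ' : ℂ, τ'.im ≤ τ0.im ∧ ‖τ' - τ0‖ ≤ 15 * μ ∧ Xf q γ f τ' = (y0 + t1 * d) ^ 2 ∧
      ‖f τ' - f τ0‖ ≤ 35 / 2 * μ := by
  have hσσ : σ * σ = 1 := by rcases hσ with rfl | rfl <;> norm_num
  have h00 : (0 : ℝ) ∈ Icc (0 : ℝ) t1 := ⟨le_refl 0, ht1⟩
  have hy00 : y0 ∈ Rg σ := by
    have := hR 0 h00
    simpa using this
  have hpi := Real.pi_pos
  obtain ⟨y, hy⟩ : ∃ y : ℝ → ℂ, y = fun t : ℝ => y0 + (t : ℂ) * d := ⟨_, rfl⟩
  have hyt : ∀ t, y t = y0 + t * d := fun t => by rw [hy]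
  have hyc : Continuous y := by
    rw [hy]
    fun_prop
  have hyd : ∀ t, HasDerivAt y d t := by
    intro t
    have e1 : HasDerivAt (fun t : ℝ => ((t : ℝ) : ℂ) * d) (1 * d) t :=
      (Complex.ofRealCLM.hasDerivAt (x := t)).mul_const d
    rw [one_mul] at e1
    rw [hy]
    exact e1.const_add y0
  have hyR : ∀ t ∈ Icc (0 : ℝ) t1, y t ∈ Rg σ := fun t ht => by rw [hyt]; exact hR t ht
  have hys : ∀ t ∈ Icc (0 : ℝ) t1, sin (y t) ≠ 0 := fun t ht => (ud_bounds hσ (hyR t ht)).1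
  have hexp : ∀ t ∈ Icc (0 : ℝ) t1, Real.exp (-(σ * (y t).im)) ≤ Real.exp (-t) := by
    intro t ht
    apply Real.exp_le_exp.2
    have e1 : (y t).im = y0.im + t * σ := by
      rw [hyt, Complex.add_im, Complex.im_ofReal_mul, hdim]
    have e2 := hy00.2.2
    rw [e1]
    have e3 : σ * (y0.im + t * σ) = σ * y0.im + t * (σ * σ) := by ring
    rw [e3, hσσ]
    linarith
  -- the logarithm
  obtain ⟨w, hw⟩ : ∃ w : ℝ → ℂ, w = fun t => 2 * (Lg (y t) - Lg y0) := ⟨_, rfl⟩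
  have hwd : ∀ t ∈ Icc (0 : ℝ) t1, HasDerivAt w (2 * (y t / sin (y t) ^ 2 * d)) t := by
    intro t ht
    obtain ⟨r1, r2, -⟩ := hyR t ht
    have e1 := hasDerivAt_Lg (y := y t) (by linarith) (by linarith)
    have e2 := HasDerivAt.scomp (h := y) (g₁ := Lg) t e1 (hyd t)
    rw [smul_eq_mul, mul_comm] at e2
    rw [hw]
    exact (e2.sub_const _).const_mul 2
  have hw0 : w 0 = 0 := by
    rw [hw]
    simp [hyt]
  have hwb : ∀ t ∈ Icc (0 : ℝ) t1, ‖2 * (y t / sin (y t) ^ 2 * d)‖ ≤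
      63 / 4 * Real.exp (-t) := by
    intro t ht
    obtain ⟨-, -, e1⟩ := ud_bounds hσ (hyR t ht)
    have e2 := hexp t ht
    rw [norm_mul, norm_mul, RCLike.norm_ofNat]
    have e3 : ‖y t / sin (y t) ^ 2‖ ≤ 7 * Real.exp (-t) := by linarith
    have e4 : ‖y t / sin (y t) ^ 2‖ * ‖d‖ ≤ 7 * Real.exp (-t) * (9 / 8) :=
      mul_le_mul e3 hd (norm_nonneg _) (by positivity)
    linarith
  have hwn : ∀ t ∈ Icc (0 : ℝ) t1, w t ∈ ball (0 : ℂ) (9 / 10 * 18) := by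
    intro t ht
    have e1 := E6e_move hwd hwb (by norm_num) t ht
    rw [hw0, sub_zero] at e1
    rw [mem_ball_zero_iff]
    linarith
  obtain ⟨Z, hZ0, hZ⟩ := exists_Z hμ (by norm_num : (0 : ℝ) < 18)
    (h.qd.mono hb) h0 hlog
  obtain ⟨z, hz⟩ : ∃ z : ℝ → ℂ, z = fun t => Z (w t) := ⟨_, rfl⟩
  have hzt : ∀ t, z t = Z (w t) := fun t => by rw [hz]
  have hz0 : z 0 = f τ0 := by rw [hzt, hw0, hZ0]
  obtain ⟨z', hz'⟩ : ∃ z' : ℝ → ℂ, z' = fun t =>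
    q (z t) / deriv q (z t) * (2 * (y t / sin (y t) ^ 2 * d)) := ⟨_, rfl⟩
  have hzd : ∀ t ∈ Icc (0 : ℝ) t1, HasDerivAt z (z' t) t := by
    intro t ht
    obtain ⟨-, -, e1⟩ := hZ _ (hwn t ht)
    have e2 := HasDerivAt.scomp (h := w) (g₁ := Z) t e1 (hwd t ht)
    rw [smul_eq_mul, mul_comm] at e2
    rw [hz', hz]
    exact e2
  have hzb : ∀ t ∈ Icc (0 : ℝ) t1, z t ∈ ball (f τ0) (18 * μ) := by
    intro t ht
    rw [hzt]
    exact (hZ _ (hwn t ht)).1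
  have hqz : ∀ t ∈ Icc (0 : ℝ) t1, q (z t) = q (f τ0) * exp (w t) := by
    intro t ht
    rw [hzt]
    exact (hZ _ (hwn t ht)).2.1
  have hG0 : G y0 ^ 2 = (γ : ℂ) ^ 2 * q (f τ0) :=
    (y_spec h hτ0 (h0 _ (mem_ball_self (by positivity))) hy0).2.1
  have hG : ∀ t ∈ Icc (0 : ℝ) t1, G (y t) ^ 2 = (γ : ℂ) ^ 2 * q (z t) := by
    intro t ht
    have e1 := exp_Lg_sub (hys t ht) ((ud_bounds hσ hy00).1)
    rw [hqz t ht, ← mul_assoc, ← hG0, ← e1, hw]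
  -- the constants `c t`
  have hcc : ∀ t ∈ Icc (0 : ℝ) t1, ∃ c : ℂ, ‖c - 1‖ ≤ 1 / 9 ∧
      q (z t) / deriv q (z t) = I * μ * c ∧ ‖q (z t) / deriv q (z t)‖ ≤ 10 / 9 * μ ∧
      deriv q (z t) ≠ 0 := by
    intro t ht
    obtain ⟨c, e1, e2, e3, e4⟩ := E6e_c hμ (hlog _ (hzb t ht))
    rw [inv_div] at e2 e3
    refine ⟨c, e1, e2, e3, ?_⟩
    intro e5
    rw [e5, zero_div] at e4
    exact e4 rfl
  -- the integrand
  obtain ⟨φ, hφ⟩ : ∃ φ : ℝ → ℂ, φ = fun t => G (y t) / y t * z' t := ⟨_, rfl⟩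
  have hφt : ∀ t ∈ Icc (0 : ℝ) t1, φ t = 2 * (ud (y t) * d) * (q (z t) / deriv q (z t)) := by
    intro t ht
    have e1 := hys t ht
    have e2 := ne_zero_of_sin e1
    rw [hφ, hz']
    simp only
    unfold ud
    field_simp
  have hφc : ContinuousOn φ (Icc 0 t1) := by
    intro t ht
    have e1 := hys t ht
    have e2 := ne_zero_of_sin e1
    have e3 : ContinuousAt z t := (hzd t ht).continuousAt
    have e4 : ContinuousAt (fun t => G (y t)) t :=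
      ContinuousAt.comp (g := G) (continuousAt_G e1) hyc.continuousAt
    have e5 : ContinuousAt (fun t => q (z t)) t :=
      ContinuousAt.comp (g := q) ((h.qd.mono hb).differentiableAt
        (isOpen_ball.mem_nhds (hzb t ht))).continuousAt e3
    have e6 : ContinuousAt (fun t => deriv q (z t)) t :=
      ContinuousAt.comp (g := deriv q) (((h.qd.mono hb).deriv isOpen_ball).differentiableAt
        (isOpen_ball.mem_nhds (hzb t ht))).continuousAt e3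
    have e7 : ContinuousAt (fun t => sin (y t)) t :=
      ContinuousAt.comp (g := sin) continuous_sin.continuousAt hyc.continuousAt
    rw [hφ, hz']
    refine ContinuousAt.continuousWithinAt ?_
    exact (e4.div hyc.continuousAt e2).mul ((e5.div e6 (hcc t ht).choose_spec.2.2.2).mul
      (((hyc.continuousAt.div (e7.pow 2) (pow_ne_zero 2 e1)).mul_const d).const_mul 2))
  have hφim : ∀ t ∈ Icc (0 : ℝ) t1, (φ t).im ≤ 0 := by
    intro t ht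
    obtain ⟨c, e1, e2, -, -⟩ := hcc t ht
    have e3 := hdir t ht c e1
    rw [← hyt] at e3
    have e4 : φ t = ((2 * μ : ℝ) : ℂ) * (I * (ud (y t) * d * c)) := by
      rw [hφt t ht, e2]
      push_cast
      ring
    rw [e4, Complex.im_ofReal_mul, Complex.I_mul_im]
    nlinarith
  have hφn : ∀ t ∈ Icc (0 : ℝ) t1, ‖φ t‖ ≤ 15 * μ * Real.exp (-t) := by
    intro t ht
    obtain ⟨c, -, -, e2, -⟩ := hcc t ht
    obtain ⟨-, e1, -⟩ := ud_bounds hσ (hyR t ht)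
    have e3 := hexp t ht
    rw [hφt t ht, norm_mul, norm_mul, norm_mul, RCLike.norm_ofNat]
    have e4 : ‖ud (y t)‖ ≤ 6 * Real.exp (-t) := by linarith
    have e5 : ‖ud (y t)‖ * ‖d‖ ≤ 6 * Real.exp (-t) * (9 / 8) :=
      mul_le_mul e4 hd (norm_nonneg _) (by positivity)
    have e6 : 2 * (‖ud (y t)‖ * ‖d‖) * ‖q (z t) / deriv q (z t)‖ ≤
        2 * (6 * Real.exp (-t) * (9 / 8)) * (10 / 9 * μ) :=
      mul_le_mul (by linarith) e2 (norm_nonneg _) (by positivity)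
    linarith
  -- the path
  obtain ⟨ψ, hψ⟩ : ∃ ψ : ℝ → ℂ, ψ = fun t => φ (max 0 (min t t1)) := ⟨_, rfl⟩
  have hψc : Continuous ψ := by
    rw [hψ]
    refine hφc.comp_continuous (by fun_prop) fun t => ⟨le_max_left _ _, max_le ht1 (min_le_right _ _)⟩
  have hψt : ∀ t ∈ Icc (0 : ℝ) t1, ψ t = φ t := by
    intro t ht
    rw [hψ]
    simp only
    rw [min_eq_left ht.2, max_eq_right ht.1]
  obtain ⟨T, hT⟩ : ∃ T : ℝ → ℂ, T = fun t => τ0 + ∫ s in (0 : ℝ)..t, ψ s := ⟨_, rfl⟩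
  have hTd : ∀ t ∈ Icc (0 : ℝ) t1, HasDerivAt T (φ t) t := by
    intro t ht
    have e1 := (hψc.integral_hasStrictDerivAt 0 t).hasDerivAt
    rw [hψt t ht] at e1
    rw [hT]
    exact e1.const_add τ0
  have hT0 : T 0 = τ0 := by
    rw [hT]
    simp
  have hTim : ∀ t ∈ Icc (0 : ℝ) t1, (T t).im ≤ τ0.im := by
    intro t ht
    have e1 : ∀ s ∈ Icc (0 : ℝ) t1, HasDerivAt (fun s => (T s).im) (φ s).im s := by
      intro s hs
      exact (Complex.imCLM.hasFDerivAt.comp_hasDerivAt s (hTd s hs))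
    have e2 : AntitoneOn (fun s => (T s).im) (Icc 0 t1) := by
      refine antitoneOn_of_hasDerivWithinAt_nonpos (f' := fun s => (φ s).im) (convex_Icc 0 t1)
        (fun s hs => (e1 s hs).continuousAt.continuousWithinAt) (fun s hs => ?_) (fun s hs => ?_)
      · exact (e1 s (interior_subset hs)).hasDerivWithinAt
      · exact hφim s (interior_subset hs)
    have e3 := e2 h00 ht ht.1
    simp only at e3
    rwa [hT0] at e3
  have hTm : ∀ t ∈ Icc (0 : ℝ) t1, T t ∈ Hp v := by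
    intro t ht
    have e1 := hTim t ht
    have e2 : τ0.im < -v := hτ0
    show (T t).im < -v
    linarith
  have hfin := cont h hyc hys hzd hG (fun t ht => by
    have := hTd t ht
    rwa [hφ] at this) hTm (by rw [hT0, hz0]) (by rw [hT0, ← hy0, hyt]; simp)
  have h11 : t1 ∈ Icc (0 : ℝ) t1 := ⟨ht1, le_refl t1⟩
  obtain ⟨f1, f2⟩ := hfin t1 h11
  refine ⟨T t1, hTim t1 h11, ?_, ?_, ?_⟩
  · have e1 := E6e_move hTd hφn (by positivity) t1 h11
    rwa [hT0] at e1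
  · rw [f2, hyt]
  · have e1 := E6e_move (c := 35 / 2 * μ) hzd (fun t ht => by
      obtain ⟨c, -, -, e2, -⟩ := hcc t ht
      have e3 := hwb t ht
      rw [hz']
      simp only
      rw [norm_mul]
      have e4 : ‖q (z t) / deriv q (z t)‖ * ‖2 * (y t / sin (y t) ^ 2 * d)‖ ≤
          10 / 9 * μ * (63 / 4 * Real.exp (-t)) :=
        mul_le_mul e2 e3 (norm_nonneg _) (by positivity)
      linarith) (by positivity) t1 h11
    rwa [hz0, ← f1] at e1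

end Pool.Agent.MP_ae5b4e_an_TI
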