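import Pool.Agent.Lib.MP_ae5b4e_an_TI.E6e

/-!
# POR (iii), N2, TYPE I, trap (E6): no point of the half plane with `|Re y| = π / 2` near which
`q' / q` is nearly constant
-/

set_option autoImplicit false

noncomputable section

namespace Pool.Agent.MP_ae5b4e_an_TI

open Complex Set Filter Topology Metric MeasureTheory
open Pool.Agent.MP_ae5b4e_an_WB
open Pool.Agent.MP_ae5b4e_an_T

/-- a square root with real part `π / 2` -/
private theorem E6f_root {X : ℂ} (hX : ‖X‖ + X.re = Real.pi ^ 2 / 2) :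
    ∃ y : ℂ, y ^ 2 = X ∧ y.re = Real.pi / 2 := by
  obtain ⟨y0, hy0⟩ : ∃ y : ℂ, y ^ 2 = X := by
    refine ⟨X ^ (1 / 2 : ℂ), ?_⟩
    rw [← Complex.cpow_nat_mul]
    norm_num
  have hpi := Real.pi_pos
  have h1 : y0.re ^ 2 = (Real.pi / 2) ^ 2 := by
    have e1 : ‖X‖ = y0.re ^ 2 + y0.im ^ 2 := by
      rw [← hy0, norm_pow, ← Complex.normSq_eq_norm_sq, Complex.normSq_apply]
      ring
    have e2 : X.re = y0.re ^ 2 - y0.im ^ 2 := by
      rw [← hy0, sq, Complex.mul_re]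
      ring
    rw [e1, e2] at hX
    linarith
  rcases sq_eq_sq_iff_eq_or_eq_neg.1 h1 with h2 | h2
  · exact ⟨y0, hy0, h2⟩
  · refine ⟨-y0, by rw [neg_sq, hy0], ?_⟩
    rw [Complex.neg_re, h2, neg_neg]

/-- (E6). There is no point `τ1` of the half plane with `|Re y| = π / 2`, `y² = Xf`, such that `q' / q` is
nearly `- i / μ` on the ball of radius `40 μ` about the label. -/
theorem no_half {q : ℂ → ℂ} {C γ v : ℝ} {f : ℂ → ℂ} (h : Sl q C γ v f) {τ1 : ℂ} (hτ : τ1 ∈ Hp v)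
    (hre : ‖Xf q γ f τ1‖ + (Xf q γ f τ1).re = Real.pi ^ 2 / 2) {μ : ℝ} (hμ : 0 < μ)
    (hb : ball (f τ1) (40 * μ) ⊆ Hm) (h0 : ∀ z ∈ ball (f τ1) (40 * μ), q z ≠ 0)
    (hlog : ∀ z ∈ ball (f τ1) (40 * μ), ‖deriv q z / q z + I / μ‖ ≤ 1 / (10 * μ)) : False := by
  have hpi := Real.pi_pos
  obtain ⟨y1, hy1, hy1r⟩ := E6f_root hre
  obtain ⟨σ, hσ, hσy⟩ : ∃ σ : ℝ, (σ = 1 ∨ σ = -1) ∧ 0 ≤ σ * y1.im := by
    rcases le_total 0 y1.im with h1 | h1
    · exact ⟨1, Or.inl rfl, by rwa [one_mul]⟩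
    · exact ⟨-1, Or.inr rfl, by linarith⟩
  have hσσ : σ * σ = 1 := by rcases hσ with rfl | rfl <;> norm_num
  -- first leg
  obtain ⟨d1, hd1⟩ : ∃ d : ℂ, d = -(1 / 2) + σ * I := ⟨_, rfl⟩
  have hd1r : d1.re = -(1 / 2) := by rw [hd1]; simp
  have hd1i : d1.im = σ := by rw [hd1]; simp
  have hd1n : ‖d1‖ ≤ 9 / 8 := by
    have e1 : ‖d1‖ ^ 2 = 5 / 4 := by
      rw [← Complex.normSq_eq_norm_sq, Complex.normSq_apply, hd1r, hd1i, hσσ]
      norm_num
    by_contra hlt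
    have e2 : (9 / 8 : ℝ) ^ 2 < ‖d1‖ ^ 2 :=
      pow_lt_pow_left₀ (not_le.1 hlt) (by norm_num) (by norm_num)
    rw [e1] at e2
    norm_num at e2
  have hR1 : ∀ t ∈ Icc (0 : ℝ) (Real.pi / 4), y1 + t * d1 ∈ Rg σ := by
    intro t ht
    have e1 : (y1 + t * d1).re = Real.pi / 2 - t / 2 := by
      rw [Complex.add_re, Complex.re_ofReal_mul, hd1r, hy1r]
      ring
    have e2 : (y1 + t * d1).im = y1.im + t * σ := by
      rw [Complex.add_im, Complex.im_ofReal_mul, hd1i]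
    refine ⟨?_, ?_, ?_⟩
    · rw [e1]
      linarith [ht.2]
    · rw [e1]
      linarith [ht.1]
    · rw [e2]
      have e3 : σ * (y1.im + t * σ) = σ * y1.im + t * (σ * σ) := by ring
      rw [e3, hσσ]
      linarith [ht.1]
  have hm18 : ball (f τ1) (18 * μ) ⊆ ball (f τ1) (40 * μ) := ball_subset_ball (by linarith)
  obtain ⟨τ2, g1, g2, g3, g4⟩ := leg h hτ hσ (by positivity : 0 ≤ Real.pi / 4) hy1 hd1i hd1n hR1
    (fun t ht c hc => by rw [hd1]; rw [hd1] at hR1; exact dir1 hσ (hR1 t ht) hc) hμ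
    (hm18.trans hb) (fun z hz => h0 z (hm18 hz)) (fun z hz => hlog z (hm18 hz))
  have hτ2 : τ2 ∈ Hp v := by
    have e2 : τ1.im < -v := hτ
    show τ2.im < -v
    linarith
  -- second leg
  obtain ⟨y2, hy2⟩ : ∃ y2 : ℂ, y2 = y1 + ((Real.pi / 4 : ℝ) : ℂ) * d1 := ⟨_, rfl⟩
  rw [← hy2] at g3
  have hy2r : y2.re = 3 * Real.pi / 8 := by
    rw [hy2, Complex.add_re, Complex.re_ofReal_mul, hd1r, hy1r]
    ring
  have hy2i : Real.pi / 4 ≤ σ * y2.im := by
    have e2 : y2.im = y1.im + Real.pi / 4 * σ := by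
      rw [hy2, Complex.add_im, Complex.im_ofReal_mul, hd1i]
    rw [e2]
    have e3 : σ * (y1.im + Real.pi / 4 * σ) = σ * y1.im + Real.pi / 4 * (σ * σ) := by ring
    rw [e3, hσσ]
    linarith
  obtain ⟨d2, hd2⟩ : ∃ d : ℂ, d = σ * I := ⟨_, rfl⟩
  have hd2r : d2.re = 0 := by rw [hd2]; simp
  have hd2i : d2.im = σ := by rw [hd2]; simp
  have hd2n : ‖d2‖ ≤ 9 / 8 := by
    rw [hd2, norm_mul, Complex.norm_I, mul_one, Complex.norm_real]
    rcases hσ with rfl | rfl <;> norm_num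
  have hy2t : ∀ t : ℝ, (y2 + t * d2).re = 3 * Real.pi / 8 ∧
      σ * (y2 + t * d2).im = σ * y2.im + t := by
    intro t
    refine ⟨?_, ?_⟩
    · rw [Complex.add_re, Complex.re_ofReal_mul, hd2r, hy2r]
      ring
    · rw [Complex.add_im, Complex.im_ofReal_mul, hd2i]
      linear_combination t * hσσ
  have hm2 : ball (f τ2) (18 * μ) ⊆ ball (f τ1) (40 * μ) := by
    refine ball_subset_ball' ?_
    rw [dist_eq_norm]
    linarith
  have hleg2 : ∀ t1 : ℝ, 0 ≤ t1 → ∃ τ3 : ℂ, τ3.im ≤ τ1.im ∧ ‖τ3 - τ1‖ ≤ 30 * μ ∧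
      t1 ^ 2 ≤ ‖Xf q γ f τ3‖ := by
    intro t1 ht1
    obtain ⟨τ3, k1, k2, k3, -⟩ := leg h hτ2 hσ ht1 g3.symm hd2i hd2n
      (fun t ht => by
        obtain ⟨e1, e2⟩ := hy2t t
        refine ⟨by rw [e1], by rw [e1]; linarith, by rw [e2]; linarith [ht.1]⟩)
      (fun t ht c hc => by
        obtain ⟨e1, e2⟩ := hy2t t
        have e3 : y2 + t * d2 ∈ Rg σ :=
          ⟨by rw [e1], by rw [e1]; linarith, by rw [e2]; linarith [ht.1]⟩
        have e4 := dir2 hσ e3 (by rw [e2]; linarith [ht.1]) hc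
        rwa [← hd2] at e4) hμ
      (hm2.trans hb) (fun z hz => h0 z (hm2 hz)) (fun z hz => hlog z (hm2 hz))
    refine ⟨τ3, k1.trans g1, ?_, ?_⟩
    · have e1 : τ3 - τ1 = (τ3 - τ2) + (τ2 - τ1) := by ring
      rw [e1]
      refine (norm_add_le _ _).trans ?_
      linarith
    · rw [k3, norm_pow]
      refine pow_le_pow_left₀ ht1 ?_ 2
      have e1 := Complex.abs_im_le_norm (y2 + t1 * d2)
      have e2 : t1 ≤ |(y2 + t1 * d2).im| := by
        have e3 := (hy2t t1).2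
        have e4 : σ * (y2 + t1 * d2).im ≤ |(y2 + t1 * d2).im| := by
          rcases hσ with rfl | rfl
          · rw [one_mul]
            exact le_abs_self _
          · rw [neg_one_mul]
            exact neg_le_abs _
        linarith
      linarith
  -- compactness
  have hcpt : IsCompact (closedBall τ1 (30 * μ) ∩ {τ | τ.im ≤ τ1.im}) :=
    (isCompact_closedBall _ _).inter_right (isClosed_le Complex.continuous_im continuous_const)
  have hsub : closedBall τ1 (30 * μ) ∩ {τ | τ.im ≤ τ1.im} ⊆ Hp v := by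
    rintro τ ⟨-, h2⟩
    have e2 : τ1.im < -v := hτ
    show τ.im < -v
    exact lt_of_le_of_lt h2 e2
  obtain ⟨M, hM⟩ := hcpt.exists_bound_of_continuousOn ((Xf_diff h).continuousOn.mono hsub)
  obtain ⟨τ3, k1, k2, k3⟩ := hleg2 (|M| + 1) (by positivity)
  have e1 := hM τ3 ⟨by rw [mem_closedBall, dist_eq_norm]; exact k2, k1⟩
  have e2 := le_abs_self M
  nlinarith [abs_nonneg M]

end Pool.Agent.MP_ae5b4e_an_TI
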