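import Pool.Agent.Lib.MP_ae5b4e_an_TI.Near
import Pool.Agent.Lib.MP_ae5b4e_an_TI.E2

/-!
# The trap, (E5): the line of the touching place is not high
-/

set_option autoImplicit false

noncomputable section

namespace Pool.Agent.MP_ae5b4e_an_TI

open Complex Set Filter Topology Metric
open Pool.Agent.MP_ae5b4e_an_T
open Pool.Agent.MP_ae5b4e_an_PK (Asy)
open Pool.Agent.MP_ae5b4e_an_M (S1 C1f Gf)

/-- (E5). Proof. `C6 := A² (4 A + 24)`, `C7 := C6 + log (A + 1) + 1`. Suppose `C7 < m`; `τ := i C7`. `Vz` holds at `τ`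
(all points of the ray have `Im ≤ C7`), so `‖τ - F τ‖ ≤ C6` (`lab_up`), `Im (F τ) ≥ C7 - C6`, and `F τ` is in
`closedBall 0 (C7 + C6)`. `close` (E2) at the place `0` with `ε = 1 / 2`: `‖g (F τ)‖ ≥ e^(Im (F τ)) - 1 / 2 ≥
e (A + 1) - 1 / 2 > A`, but `‖g (F τ)‖ ≤ γ² ‖g (F τ)‖ = ‖X Pz X²‖ ≤ A` (`Zl.w`, `hA.g2`). -/
theorem line_above {A : ℝ} (hA : StripC A) : ∃ (C7 : ℝ) (B0 : ℕ), ∀ B : ℕ, B0 ≤ B →
    ∀ (g : ℂ → ℂ) (γ m : ℝ) (F : ℂ → ℂ), Zf B g → Zl g B γ m F → ‖g 0‖ = 1 →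
      (∀ τ : ℂ, τ.im < m → τ.im ≤ C7 → sre (Xf g γ F τ) ≤ Real.pi / 2) → m ≤ C7 := by
  have hA1 : (1 : ℝ) ≤ A := hA.one
  set C6 : ℝ := A ^ 2 * (4 * A + 24) with hC6
  have hC6p : 0 ≤ C6 := by positivity
  set C7 : ℝ := C6 + Real.log (A + 1) + 1 with hC7
  have hlog : 0 ≤ Real.log (A + 1) := Real.log_nonneg (by linarith)
  obtain ⟨B1, hB1⟩ := lab_up hA C7
  obtain ⟨B2, hB2⟩ := close (C7 + C6) (1 / 2) (by norm_num)
  refine ⟨C7, max B1 B2, ?_⟩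
  intro B hB g γ m F hf hl hg0 hst
  by_contra hcon
  have hm : C7 < m := not_le.mp hcon
  set τ : ℂ := (C7 : ℂ) * I with hτ
  have hτim : τ.im = C7 := by simp [hτ]
  have hτn : ‖τ‖ = C7 := by
    rw [hτ, norm_mul, norm_I, mul_one, Complex.norm_real, Real.norm_eq_abs, abs_of_nonneg]
    linarith
  have hτm : τ.im < m := by rw [hτim]; exact hm
  have hV : Vz g γ F τ := by
    intro s hs
    have him : (τ - s * I).im = C7 - s := by simp [hτ]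
    exact hst _ (by rw [him]; linarith) (by rw [him]; linarith)
  have hnear : ‖τ - F τ‖ ≤ C6 :=
    hB1 B (le_trans (le_max_left _ _) hB) g γ m F hf hl τ hτm hτim.le hV
  have hFn : ‖F τ‖ ≤ C7 + C6 := by
    have h1 : ‖F τ‖ ≤ ‖τ‖ + ‖τ - F τ‖ := by
      have h2 : F τ = τ - (τ - F τ) := by ring
      calc ‖F τ‖ = ‖τ - (τ - F τ)‖ := by rw [← h2]
        _ ≤ ‖τ‖ + ‖τ - F τ‖ := norm_sub_le _ _
    rw [hτn] at h1
    linarith
  have hFim : C7 - C6 ≤ (F τ).im := by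
    have h1 : (τ - F τ).im ≤ ‖τ - F τ‖ := le_trans (le_abs_self _) (abs_im_le_norm _)
    rw [sub_im, hτim] at h1
    linarith
  have hcl := (hB2 B (le_trans (le_max_right _ _) hB) g hf 0 (F τ) (by
    rw [mem_closedBall, dist_eq_norm, ofReal_zero, sub_zero]
    exact hFn)).1
  have hge : Real.exp (F τ).im - 1 / 2 ≤ ‖g (F τ)‖ := by
    have h1 : ‖g ((0 : ℝ) : ℂ) * cexp (-I * (F τ - ((0 : ℝ) : ℂ)))‖ = Real.exp (F τ).im := by
      rw [norm_mul, ofReal_zero, hg0, one_mul, sub_zero, neg_mul, norm_exp_neg_I_mul]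
    have h2 : ‖g ((0 : ℝ) : ℂ) * cexp (-I * (F τ - ((0 : ℝ) : ℂ)))‖ ≤
        ‖g (F τ)‖ + ‖g (F τ) - g ((0 : ℝ) : ℂ) * cexp (-I * (F τ - ((0 : ℝ) : ℂ)))‖ := by
      have h3 : g ((0 : ℝ) : ℂ) * cexp (-I * (F τ - ((0 : ℝ) : ℂ))) =
          g (F τ) - (g (F τ) - g ((0 : ℝ) : ℂ) * cexp (-I * (F τ - ((0 : ℝ) : ℂ)))) := by ring
      calc ‖g ((0 : ℝ) : ℂ) * cexp (-I * (F τ - ((0 : ℝ) : ℂ)))‖ =
          ‖g (F τ) - (g (F τ) - g ((0 : ℝ) : ℂ) * cexp (-I * (F τ - ((0 : ℝ) : ℂ))))‖ := by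
            rw [← h3]
        _ ≤ _ := norm_sub_le _ _
    rw [h1] at h2
    linarith
  have hexp : 2 * (A + 1) ≤ Real.exp (F τ).im := by
    have h1 : Real.exp (C7 - C6) ≤ Real.exp (F τ).im := Real.exp_le_exp.mpr hFim
    have h2 : Real.exp (C7 - C6) = (A + 1) * Real.exp 1 := by
      rw [show C7 - C6 = Real.log (A + 1) + 1 by rw [hC7]; ring, Real.exp_add,
        Real.exp_log (by linarith)]
    have h3 : (2 : ℝ) ≤ Real.exp 1 := by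
      have := Real.add_one_le_exp (1 : ℝ)
      linarith
    have h4 : (A + 1) * 2 ≤ (A + 1) * Real.exp 1 := by
      apply mul_le_mul_of_nonneg_left h3; linarith
    linarith
  have hle : ‖g (F τ)‖ ≤ A := by
    have h1 := hl.w hτm
    have h2 : ‖Xf g γ F τ * Pz (Xf g γ F τ) ^ 2‖ ≤ A :=
      hA.g2 _ (hst τ hτm hτim.le)
    rw [h1, norm_mul, norm_pow, Complex.norm_real, Real.norm_eq_abs,
      abs_of_nonneg (by linarith [hl.γ1])] at h2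
    have h3 : (1 : ℝ) ≤ γ ^ 2 := one_le_pow₀ hl.γ1
    have h4 : 1 * ‖g (F τ)‖ ≤ γ ^ 2 * ‖g (F τ)‖ :=
      mul_le_mul_of_nonneg_right h3 (norm_nonneg _)
    linarith
  linarith

end Pool.Agent.MP_ae5b4e_an_TI
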