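import Pool.Agent.Lib.MP_ae5b4e_an_TI.E2

/-!
# The trap, (E4): on the strip part of the D-side the label is near the place
-/

set_option autoImplicit false

noncomputable section

namespace Pool.Agent.MP_ae5b4e_an_TI

open Complex Set Filter Topology Metric
open Pool.Agent.MP_ae5b4e_an_T
open Pool.Agent.MP_ae5b4e_an_PK (Asy)
open Pool.Agent.MP_ae5b4e_an_M (S1 C1f Gf)

/-- the majorant below the real axis of the zoom.
Proof. `(1 + x / B) ^ B ≥ (1 + x / 2) ^ 2` for `x = - Im z ≥ 0`, `B ≥ 2` (`one_add_div_pow_le` type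
monotonicity; or, with `a := 1 + x / B`: `1 + x / 2 ≤ (1 + x / B) ^ (B / 2)` by Bernoulli for real
exponents `B / 2 ≥ 1` (`one_add_mul_self_le_rpow_one_add`), square). -/
theorem Zf.low {B : ℕ} {g : ℂ → ℂ} (h : Zf B g) (hB : 2 ≤ B) {z : ℂ} (hz : z.im ≤ 0) :
    ‖g z‖ ≤ 2 / (1 - z.im / 2) ^ 2 := by
  have hBr : (2 : ℝ) ≤ B := by exact_mod_cast hB
  have hB0 : (0 : ℝ) < B := by linarith
  have h1 := h.gb z (by linarith)
  obtain ⟨x, hx⟩ : ∃ x : ℝ, x = -z.im := ⟨_, rfl⟩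
  have hx0 : 0 ≤ x := by linarith
  have hzx : z.im = -x := by linarith
  rw [hzx] at h1 ⊢
  have e1 : (1 : ℝ) - -x / B = 1 + x / B := by ring
  have e2 : (1 : ℝ) - -x / 2 = 1 + x / 2 := by ring
  rw [e1] at h1
  rw [e2]
  have hs : 0 ≤ x / B := by positivity
  have h2 : 1 + (B : ℝ) / 2 * (x / B) ≤ (1 + x / B) ^ ((B : ℝ) / 2) :=
    one_add_mul_self_le_rpow_one_add (by linarith) (by linarith)
  have e3 : (B : ℝ) / 2 * (x / B) = x / 2 := by field_simp
  rw [e3] at h2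
  have h3 : (1 + x / 2) ^ 2 ≤ (1 + x / B) ^ B := by
    calc (1 + x / 2) ^ 2 ≤ ((1 + x / B) ^ ((B : ℝ) / 2)) ^ 2 :=
          pow_le_pow_left₀ (by positivity) h2 2
      _ = (1 + x / B) ^ B := by
          rw [← Real.rpow_natCast, ← Real.rpow_mul (by positivity), ← Real.rpow_natCast]
          congr 1
          push_cast
          ring
  have h4 : (1 / (1 + x / B)) ^ B ≤ 1 / (1 + x / 2) ^ 2 := by
    rw [one_div, one_div, inv_pow]
    exact inv_anti₀ (by positivity) h3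
  have h5 : (1 : ℝ) + 1 / B ≤ 2 := by
    have : (1 : ℝ) / B ≤ 1 := by
      rw [div_le_one hB0]
      linarith
    linarith
  calc ‖g z‖ ≤ (1 + 1 / B) * (1 / (1 + x / B)) ^ B := h1
    _ ≤ 2 * (1 / (1 + x / 2) ^ 2) := mul_le_mul h5 h4 (by positivity) (by norm_num)
    _ = 2 / (1 + x / 2) ^ 2 := by ring

/-- the point at height `t` on the vertical line over `x` -/
def vt (x t : ℝ) : ℂ := (x : ℂ) + t * I

theorem vt_re (x t : ℝ) : (vt x t).re = x := by simp [vt]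

theorem vt_im (x t : ℝ) : (vt x t).im = t := by simp [vt]

theorem vt_eta (τ : ℂ) : vt τ.re τ.im = τ := by
  unfold vt
  exact Complex.re_add_im τ

theorem hasDerivAt_vt (x t : ℝ) : HasDerivAt (vt x) I t := by
  have h1 : HasDerivAt (fun t : ℝ => (t : ℂ)) 1 t := Complex.ofRealCLM.hasDerivAt
  have h2 := (h1.mul_const I).const_add (x : ℂ)
  rw [one_mul] at h2
  exact h2

/-- mean value inequality for a complex path and a real bound -/
theorem seg_le {w w' : ℝ → ℂ} {S S' : ℝ → ℝ} {a b : ℝ} (hab : a ≤ b)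
    (hw : ∀ s ∈ Icc a b, HasDerivAt w (w' s) s) (hS : ∀ s ∈ Icc a b, HasDerivAt S (S' s) s)
    (hb : ∀ s ∈ Icc a b, ‖w' s‖ ≤ S' s) : ‖w b - w a‖ ≤ S b - S a := by
  have h1 := image_norm_le_of_norm_deriv_right_le_deriv_boundary' (f := fun s => w s - w a)
    (f' := w') (B := fun s => S s - S a) (B' := S') (a := a) (b := b) ?_ ?_ ?_ ?_ ?_ ?_
    (right_mem_Icc.2 hab)
  · exact h1
  · intro s hs
    exact ((hw s hs).sub_const (w a)).continuousAt.continuousWithinAt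
  · intro s hs
    exact ((hw s (Ico_subset_Icc_self hs)).sub_const (w a)).hasDerivWithinAt
  · simp
  · intro s hs
    exact ((hS s hs).sub_const (S a)).continuousAt.continuousWithinAt
  · intro s hs
    exact ((hS s (Ico_subset_Icc_self hs)).sub_const (S a)).hasDerivWithinAt
  · intro s hs
    exact hb s (Ico_subset_Icc_self hs)

section

variable {g : ℂ → ℂ} {b γ m : ℝ} {F : ℂ → ℂ} {x A : ℝ}

/-- derivative of the label path -/
theorem hasDerivAt_lp (h : Zl g b γ m F) {t : ℝ} (ht : t < m) :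
    HasDerivAt (fun t => F (vt x t)) (I * deriv F (vt x t)) t := by
  have ho : IsOpen {τ : ℂ | τ.im < m} := isOpen_lt continuous_im continuous_const
  have hm : vt x t ∈ {τ : ℂ | τ.im < m} := by
    show (vt x t).im < m
    rwa [vt_im]
  have h1 : HasDerivAt F (deriv F (vt x t)) (vt x t) :=
    (h.fd.differentiableAt (ho.mem_nhds hm)).hasDerivAt
  have h2 := HasDerivAt.scomp t h1 (hasDerivAt_vt x t)
  exact h2

theorem hasDerivAt_lp_im (h : Zl g b γ m F) {t : ℝ} (ht : t < m) :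
    HasDerivAt (fun t => (F (vt x t)).im) (deriv F (vt x t)).re t := by
  have h1 := Complex.imCLM.hasFDerivAt.comp_hasDerivAt t (hasDerivAt_lp (x := x) h ht)
  have h2 : Complex.imCLM (I * deriv F (vt x t)) = (deriv F (vt x t)).re := by
    simp
  rw [h2] at h1
  exact h1

/-- the derivative of the label in the strip -/
theorem Zl.der_le (hA : StripC A) (h : Zl g b γ m F) {τ : ℂ} (hτ : τ.im < m)
    (hs : sre (Xf g γ F τ) ≤ Real.pi / 2) : ‖deriv F τ‖ ≤ A * (deriv F τ).re := by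
  have h1 := h.dv τ hτ
  have h2 := hA.re _ hs
  obtain ⟨P, hP⟩ : ∃ P, P = Pz (Xf g γ F τ) := ⟨_, rfl⟩
  rw [← hP] at h1 h2
  have hP0 : P ≠ 0 := by
    intro h0
    rw [h0, mul_zero] at h1
    exact zero_ne_one h1
  have h3 : deriv F τ = P⁻¹ := eq_inv_of_mul_eq_one_left h1
  have hn : 0 < ‖P‖ := norm_pos_iff.2 hP0
  rw [h3, norm_inv, Complex.inv_re, ← Complex.sq_norm]
  rw [show A * (P.re / ‖P‖ ^ 2) = (A * P.re) / ‖P‖ ^ 2 by ring, inv_eq_one_div,
    div_le_div_iff₀ hn (by positivity)]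
  nlinarith

/-- the label path goes up, with bounded slope -/
theorem lp_slope (hA : StripC A) (h : Zl g b γ m F) {t0 : ℝ} (ht0 : t0 < m)
    (hs : ∀ t ≤ t0, sre (Xf g γ F (vt x t)) ≤ Real.pi / 2) {a c : ℝ} (hac : a ≤ c) (hc : c ≤ t0) :
    ‖F (vt x c) - F (vt x a)‖ ≤ A * ((F (vt x c)).im - (F (vt x a)).im) := by
  have h1 := seg_le (w := fun t => F (vt x t)) (w' := fun t => I * deriv F (vt x t))
    (S := fun t => A * (F (vt x t)).im) (S' := fun t => A * (deriv F (vt x t)).re) hac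
    (fun s hs' => hasDerivAt_lp h (by linarith [hs'.2]))
    (fun s hs' => (hasDerivAt_lp_im h (by linarith [hs'.2])).const_mul A) ?_
  · rw [← mul_sub] at h1
    exact h1
  · intro s hs'
    have h2 := h.der_le hA (τ := vt x s) (by rw [vt_im]; linarith [hs'.2]) (hs s (hs'.2.trans hc))
    rw [norm_mul, Complex.norm_I, one_mul]
    exact h2

theorem lp_mono (hA : StripC A) (h : Zl g b γ m F) {t0 : ℝ} (ht0 : t0 < m)
    (hs : ∀ t ≤ t0, sre (Xf g γ F (vt x t)) ≤ Real.pi / 2) {a c : ℝ} (hac : a ≤ c) (hc : c ≤ t0) :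
    (F (vt x a)).im ≤ (F (vt x c)).im := by
  have h1 := lp_slope hA h ht0 hs hac hc
  have h2 := norm_nonneg (F (vt x c) - F (vt x a))
  have h3 := hA.one
  by_contra hcon
  push Not at hcon
  nlinarith

/-- derivative of the difference of the label and its argument -/
theorem hasDerivAt_lw (h : Zl g b γ m F) {t : ℝ} (ht : t < m) :
    HasDerivAt (fun t => F (vt x t) - vt x t) (I * deriv F (vt x t) - I) t :=
  (hasDerivAt_lp h ht).sub (hasDerivAt_vt x t)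

theorem lw_bound (hA : StripC A) (h : Zl g b γ m F) {t : ℝ}
    (ht : t < m) (hs : sre (Xf g γ F (vt x t)) ≤ Real.pi / 2) {G : ℝ}
    (hG : ‖g (F (vt x t))‖ ≤ G) :
    ‖I * deriv F (vt x t) - I‖ ≤ A ^ 2 * (4 * G * (deriv F (vt x t)).re) := by
  have ht' : (vt x t).im < m := by rwa [vt_im]
  have h1 := h.dv _ ht'
  have h2 := h.w ht'
  have h3 := hA.psi _ hs
  have h4 := h.der_le hA ht' hs
  have hA1 := hA.one
  rw [h2] at h3
  have h5 : I * deriv F (vt x t) - I = -(I * (deriv F (vt x t) * (Pz (Xf g γ F (vt x t)) - 1))) := by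
    rw [mul_sub, h1]
    ring
  have hg : ‖(γ : ℂ) ^ 2 * g (F (vt x t))‖ ≤ 4 * G := by
    have hγ1 := h.γ1
    have hγ2 := h.γ2
    rw [norm_mul, norm_pow, Complex.norm_real, Real.norm_of_nonneg (by linarith)]
    have h6 : γ ^ 2 ≤ 4 := by nlinarith
    exact mul_le_mul h6 hG (norm_nonneg _) (by norm_num)
  rw [h5, norm_neg, norm_mul, norm_mul, Complex.norm_I, one_mul]
  have h6 : ‖Pz (Xf g γ F (vt x t)) - 1‖ ≤ A * (4 * G) :=
    h3.trans (mul_le_mul_of_nonneg_left ((min_le_right _ _).trans hg) (by linarith))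
  calc ‖deriv F (vt x t)‖ * ‖Pz (Xf g γ F (vt x t)) - 1‖
      ≤ (A * (deriv F (vt x t)).re) * (A * (4 * G)) :=
        mul_le_mul h4 h6 (norm_nonneg _) ((norm_nonneg _).trans h4)
    _ = _ := by ring

/-- the label path goes to `- i ∞` -/
theorem lp_low (h : Zl g b γ m F) (x : ℝ) (L : ℝ) : ∃ T : ℝ, ∀ t ≤ T, (F (vt x t)).im ≤ L := by
  obtain ⟨R, hR⟩ := h.asy 1 one_pos
  refine ⟨min (-R) (L - 1), fun t ht => ?_⟩
  have ht1 : t ≤ -R := ht.trans (min_le_left _ _)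
  have ht2 : t ≤ L - 1 := ht.trans (min_le_right _ _)
  have h1 := hR (vt x t) (by rw [vt_im]; linarith)
  have h2 := (abs_le.1 ((abs_im_le_norm _).trans h1)).2
  rw [sub_im, vt_im] at h2
  linarith

/-- the part of the path below the real axis of the zoom -/
theorem lw_deep (hA : StripC A) {B : ℕ} (hB : 2 ≤ B) (hZ : Zf B g) (h : Zl g b γ m F) {t0 : ℝ}
    (ht0 : t0 < m) (hs : ∀ t ≤ t0, sre (Xf g γ F (vt x t)) ≤ Real.pi / 2)
    (hu : (F (vt x t0)).im ≤ 0) : ‖F (vt x t0) - vt x t0‖ ≤ 16 * A ^ 2 := by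
  have hA1 := hA.one
  obtain ⟨u, hud⟩ : ∃ u : ℝ → ℝ, u = fun t => (F (vt x t)).im := ⟨_, rfl⟩
  obtain ⟨du, hdud⟩ : ∃ du : ℝ → ℝ, du = fun t => (deriv F (vt x t)).re := ⟨_, rfl⟩
  have hu' : ∀ t ≤ t0, HasDerivAt u (du t) t := by
    intro t ht
    rw [hud, hdud]
    exact hasDerivAt_lp_im h (by linarith)
  have hu0 : ∀ t ≤ t0, u t ≤ 0 := by
    intro t ht
    have h1 := lp_mono hA h ht0 hs ht le_rfl
    rw [hud]
    linarith
  -- the majorant
  have hS : ∀ t ≤ t0, HasDerivAt (fun t => A ^ 2 * (16 * (1 - u t / 2)⁻¹))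
      (A ^ 2 * (4 * (2 / (1 - u t / 2) ^ 2) * du t)) t := by
    intro t ht
    have hup : 0 < 1 - u t / 2 := by linarith [hu0 t ht]
    have h1 := ((((hu' t ht).div_const 2).const_sub 1).inv hup.ne').const_mul 16
    have h2 := h1.const_mul (A ^ 2)
    refine h2.congr_deriv ?_
    field_simp
    ring
  have hbd : ∀ t ≤ t0, ‖I * deriv F (vt x t) - I‖ ≤
      A ^ 2 * (4 * (2 / (1 - u t / 2) ^ 2) * du t) := by
    intro t ht
    have h1 := hZ.low hB (z := F (vt x t)) (by have := hu0 t ht; rwa [hud] at this)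
    have h2 := lw_bound hA h (by linarith : t < m) (hs t ht) h1
    rw [hud, hdud]
    exact h2
  have hmain : ‖F (vt x t0) - vt x t0‖ ≤ A ^ 2 * (16 * (1 - u t0 / 2)⁻¹) := by
    refine le_of_forall_pos_le_add fun ε hε => ?_
    obtain ⟨R, hR⟩ := h.asy ε hε
    obtain ⟨t, ht⟩ : ∃ t, t = min t0 (-R) := ⟨_, rfl⟩
    have ht1 : t ≤ t0 := by
      rw [ht]
      exact min_le_left _ _
    have ht2 : t ≤ -R := by
      rw [ht]
      exact min_le_right _ _
    have h1 := hR (vt x t) (by rw [vt_im]; linarith)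
    have h2 := seg_le (w := fun t => F (vt x t) - vt x t) (w' := fun t => I * deriv F (vt x t) - I)
      ht1 (fun s hs' => hasDerivAt_lw h (by linarith [hs'.2])) (fun s hs' => hS s hs'.2)
      (fun s hs' => hbd s hs'.2)
    have h3 : 0 ≤ A ^ 2 * (16 * (1 - u t / 2)⁻¹) := by
      have : 0 < 1 - u t / 2 := by linarith [hu0 t ht1]
      positivity
    have h4 : ‖F (vt x t0) - vt x t0‖ ≤ ‖(F (vt x t0) - vt x t0) - (F (vt x t) - vt x t)‖ +
        ‖F (vt x t) - vt x t‖ := by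
      have := norm_add_le ((F (vt x t0) - vt x t0) - (F (vt x t) - vt x t)) (F (vt x t) - vt x t)
      rwa [sub_add_cancel] at this
    linarith
  refine hmain.trans ?_
  have h1 : (1 - u t0 / 2)⁻¹ ≤ 1 := inv_le_one_of_one_le₀ (by linarith [hu0 t0 le_rfl])
  nlinarith [sq_nonneg A]

end

/-- (E4). On a vertical ray in the closed strip the label is near the place, with an absolute constant
(if `B` is large, depending on the height `H` of the label).

Proof. `z s := F (τ - i s)`, `t s := Im (z s)`, `φ s := τ - i s - z s` (`s ≥ 0`). `F' = 1 / Pz (X)`,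
`Re F' ≥ ‖F'‖ / A > 0` (`hA.re`), so `t' = - Re F' ≤ - ‖F'‖ / A < 0`; `t → - ∞`, `φ → 0` (`asy`).
`φ' = - i (1 - F') = - i (Pz X - 1) F'`, so `‖φ'‖ ≤ A min 1 ‖X Pz X²‖ ‖F'‖ ≤ A² min 1 (4 ‖g (z s)‖) (- t')`
(`Zl.w`, `γ ≤ 2`).
(1) Part `t ≤ 0`: `4 ‖g‖ ≤ 8 / (1 - t / 2)²` (`Zf.low`), primitive `16 / (1 - t / 2)` (`lw_deep`).
(2) Part `0 ≤ t ≤ t0 := Im (F τ) ≤ H` (if `t0 > 0`): there `‖z s - z 0‖ ≤ A (t0 - t) ≤ A H`, so
`z s ∈ closedBall x R`, `x := Re (z 0)`, `R := (A + 1) H + 1`. Put `ε := 1 / (H + 1)`. For `B ≥ B0 (R, ε)` (theorem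
`close`, file E2): `‖g z - g x e^(-i (z - x))‖ ≤ ε` on this ball. At `z 0`:
`γ² ‖g (z 0)‖ = ‖X Pz X²‖ ≤ A`, so `‖g x‖ e^(t0) ≤ A + 1`, and `‖g (z s)‖ ≤ (A + 1) e^(t - t0) + ε`; primitive of
`4 (A + 1) e^(t - t0) + 4 ε`: `4 (A + 1) e^(t - t0) + 4 ε t`, increment on `[0, t0]` at most
`4 (A + 1) + 4`. Total `≤ A² (4 A + 8) + 16 A²`. -/
theorem lab_near {A : ℝ} (hA : StripC A) (H : ℝ) : ∃ B0 : ℕ, ∀ B : ℕ, B0 ≤ B →
    ∀ (g : ℂ → ℂ) (γ m : ℝ) (F : ℂ → ℂ), Zf B g → Zl g B γ m F → ∀ τ : ℂ, τ.im < m →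
      Vz g γ F τ → (F τ).im ≤ H → ‖τ - F τ‖ ≤ A ^ 2 * (4 * A + 24) := by
  have hA1 := hA.one
  obtain ⟨H', hH'⟩ : ∃ H' : ℝ, H' = max H 0 := ⟨_, rfl⟩
  have hH0 : 0 ≤ H' := by
    rw [hH']
    exact le_max_right _ _
  have hHH : H ≤ H' := by
    rw [hH']
    exact le_max_left _ _
  obtain ⟨ε, hε⟩ : ∃ ε : ℝ, ε = 1 / (H' + 1) := ⟨_, rfl⟩
  have hε0 : 0 < ε := by
    rw [hε]
    positivity
  have hε1 : ε * (H' + 1) = 1 := by
    rw [hε]
    field_simp
  have hε2 : ε ≤ 1 := by nlinarith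
  obtain ⟨B1, hB1⟩ := close ((A + 1) * H' + 1) ε hε0
  refine ⟨max B1 2, fun B hB g γ m F hZ h τ hτ hV hH => ?_⟩
  have hB2 : 2 ≤ B := (le_max_right _ _).trans hB
  have hcl := hB1 B ((le_max_left _ _).trans hB) g hZ
  obtain ⟨x, hx⟩ : ∃ x, x = τ.re := ⟨_, rfl⟩
  obtain ⟨t0, ht0⟩ : ∃ t0, t0 = τ.im := ⟨_, rfl⟩
  have hτe : vt x t0 = τ := by
    rw [hx, ht0]
    exact vt_eta τ
  have htm : t0 < m := by rwa [ht0]
  have hs : ∀ t ≤ t0, sre (Xf g γ F (vt x t)) ≤ Real.pi / 2 := by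
    intro t ht
    have h1 := hV (t0 - t) (by linarith)
    have h2 : τ - ((t0 - t : ℝ) : ℂ) * I = vt x t := by
      rw [← hτe]
      unfold vt
      push_cast
      ring
    rwa [h2] at h1
  rw [← hτe] at hH ⊢
  rw [norm_sub_rev]
  rcases le_or_gt (F (vt x t0)).im 0 with hc | hc
  · have h1 := lw_deep hA hB2 hZ h htm hs hc
    nlinarith [sq_nonneg A]
  -- the point of the path at height `0`
  obtain ⟨T, hT⟩ := lp_low h x 0
  obtain ⟨T', hT'⟩ : ∃ T', T' = min T t0 := ⟨_, rfl⟩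
  have hT1 : T' ≤ t0 := by
    rw [hT']
    exact min_le_right _ _
  have hT2 : T' ≤ T := by
    rw [hT']
    exact min_le_left _ _
  have hcont : ContinuousOn (fun t => (F (vt x t)).im) (Icc T' t0) := fun t ht =>
    (hasDerivAt_lp_im h (by linarith [ht.2])).continuousAt.continuousWithinAt
  obtain ⟨t1, ht1, hu1⟩ : ∃ t1 ∈ Icc T' t0, (F (vt x t1)).im = 0 :=
    intermediate_value_Icc hT1 hcont ⟨hT T' hT2, hc.le⟩
  have h1 := lw_deep hA hB2 hZ h (by linarith [ht1.2] : t1 < m) (fun t ht => hs t (ht.trans ht1.2))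
    hu1.le
  obtain ⟨u, hud⟩ : ∃ u : ℝ → ℝ, u = fun t => (F (vt x t)).im := ⟨_, rfl⟩
  obtain ⟨du, hdud⟩ : ∃ du : ℝ → ℝ, du = fun t => (deriv F (vt x t)).re := ⟨_, rfl⟩
  have hu' : ∀ t ≤ t0, HasDerivAt u (du t) t := by
    intro t ht
    rw [hud, hdud]
    exact hasDerivAt_lp_im h (by linarith)
  obtain ⟨z0, hz0⟩ : ∃ z0, z0 = F (vt x t0) := ⟨_, rfl⟩
  obtain ⟨u0, hu0⟩ : ∃ u0 : ℝ, u0 = z0.im := ⟨_, rfl⟩
  have hu00 : u t0 = u0 := by rw [hud, hu0, hz0]
  have hu0H : u0 ≤ H' := by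
    rw [hu0, hz0]
    linarith
  have hu0p : 0 ≤ u0 := by
    rw [hu0, hz0]
    exact hc.le
  -- points of the path are in the ball
  have hball : ∀ s ∈ Icc t1 t0, F (vt x s) ∈ closedBall ((z0.re : ℝ) : ℂ) ((A + 1) * H' + 1) := by
    intro s hs'
    rw [mem_closedBall, dist_eq_norm]
    have h2 := lp_slope hA h htm hs hs'.2 le_rfl
    have h3 := lp_mono hA h htm hs hs'.1 hs'.2
    rw [← hz0] at h2
    have h4 : ‖z0 - ((z0.re : ℝ) : ℂ)‖ = u0 := by
      have h5 : z0 - ((z0.re : ℝ) : ℂ) = ((u0 : ℝ) : ℂ) * I := by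
        rw [hu0]
        apply Complex.ext <;> simp
      rw [h5, norm_mul, Complex.norm_I, mul_one, Complex.norm_real, Real.norm_of_nonneg hu0p]
    have h5 : ‖F (vt x s) - ((z0.re : ℝ) : ℂ)‖ ≤ ‖z0 - F (vt x s)‖ + ‖z0 - ((z0.re : ℝ) : ℂ)‖ := by
      have := norm_sub_le (z0 - ((z0.re : ℝ) : ℂ)) (z0 - F (vt x s))
      have e : (z0 - ((z0.re : ℝ) : ℂ)) - (z0 - F (vt x s)) = F (vt x s) - ((z0.re : ℝ) : ℂ) := by
        ring
      rw [e] at this
      linarith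
    rw [h4] at h5
    rw [hu1] at h3
    rw [← hu0] at h2
    have h6 : A * (u0 - (F (vt x s)).im) ≤ A * H' := by
      refine mul_le_mul_of_nonneg_left ?_ (by linarith)
      linarith
    nlinarith
  have hexp : ∀ z : ℂ, ‖cexp (-I * (z - ((z0.re : ℝ) : ℂ)))‖ = Real.exp z.im := by
    intro z
    rw [Complex.norm_exp]
    congr 1
    simp
  -- the field at the real part of the last label
  have hga : ‖g ((z0.re : ℝ) : ℂ)‖ * Real.exp u0 ≤ A + 1 := by
    have h2 := (hcl z0.re z0 (by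
      have := hball t0 ⟨ht1.2, le_rfl⟩
      rwa [← hz0] at this)).1
    have ht0m : (vt x t0).im < m := by rwa [vt_im]
    have h3 := hA.g2 _ (hs t0 le_rfl)
    rw [h.w ht0m, ← hz0, norm_mul, norm_pow, Complex.norm_real,
      Real.norm_of_nonneg (by linarith [h.γ1])] at h3
    have h4 : ‖g z0‖ ≤ A := by
      have h5 : 1 ≤ γ ^ 2 := by nlinarith [h.γ1]
      nlinarith [norm_nonneg (g z0)]
    have h6 : ‖g ((z0.re : ℝ) : ℂ) * cexp (-I * (z0 - ((z0.re : ℝ) : ℂ)))‖ ≤ A + ε := by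
      have := norm_sub_norm_le (g ((z0.re : ℝ) : ℂ) * cexp (-I * (z0 - ((z0.re : ℝ) : ℂ)))) (g z0)
      rw [norm_sub_rev] at this
      linarith
    rw [norm_mul, hexp, ← hu0] at h6
    linarith
  have hG : ∀ s ∈ Icc t1 t0, ‖g (F (vt x s))‖ ≤ (A + 1) * Real.exp (u s - u0) + ε := by
    intro s hs'
    have h2 := (hcl z0.re _ (hball s hs')).1
    have h3 : ‖g (F (vt x s))‖ ≤
        ‖g ((z0.re : ℝ) : ℂ) * cexp (-I * (F (vt x s) - ((z0.re : ℝ) : ℂ)))‖ + ε := by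
      have := norm_sub_norm_le (g (F (vt x s)))
        (g ((z0.re : ℝ) : ℂ) * cexp (-I * (F (vt x s) - ((z0.re : ℝ) : ℂ))))
      linarith
    rw [norm_mul, hexp] at h3
    have h4 : ‖g ((z0.re : ℝ) : ℂ)‖ * Real.exp (F (vt x s)).im ≤ (A + 1) * Real.exp (u s - u0) := by
      have h5 : Real.exp (F (vt x s)).im = Real.exp u0 * Real.exp (u s - u0) := by
        rw [← Real.exp_add, hud]
        congr 1
        ring
      rw [h5, ← mul_assoc]
      exact mul_le_mul_of_nonneg_right hga (Real.exp_pos _).le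
    linarith
  have hS : ∀ s ∈ Icc t1 t0,
      HasDerivAt (fun s => A ^ 2 * (4 * ((A + 1) * Real.exp (u s - u0) + ε * u s)))
        (A ^ 2 * (4 * ((A + 1) * Real.exp (u s - u0) + ε) * du s)) s := by
    intro s hs'
    have h2 := hu' s hs'.2
    have h3 := (((((h2.sub_const u0).exp).const_mul (A + 1)).add (h2.const_mul ε)).const_mul
      4).const_mul (A ^ 2)
    refine h3.congr_deriv ?_
    ring
  have h2 := seg_le (w := fun t => F (vt x t) - vt x t) (w' := fun t => I * deriv F (vt x t) - I)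
    ht1.2 (fun s hs' => hasDerivAt_lw h (by linarith [hs'.2])) hS
    (fun s hs' => by
      have h3 := lw_bound hA h (by linarith [hs'.2] : s < m) (hs s hs'.2) (hG s hs')
      rw [hdud]
      exact h3)
  have hut1 : u t1 = 0 := by
    rw [hud]
    exact hu1
  rw [hu00, hut1, sub_self, Real.exp_zero] at h2
  have h3 : 0 ≤ (A + 1) * Real.exp (0 - u0) := by positivity
  have h4 : ε * u0 ≤ 1 := by nlinarith
  have h5 : A ^ 2 * (4 * ((A + 1) * 1 + ε * u0)) -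
      A ^ 2 * (4 * ((A + 1) * Real.exp (0 - u0) + ε * 0)) ≤ A ^ 2 * (4 * A + 8) := by
    rw [← mul_sub]
    refine mul_le_mul_of_nonneg_left ?_ (sq_nonneg A)
    linarith
  have h6 : ‖F (vt x t0) - vt x t0‖ ≤ ‖(F (vt x t0) - vt x t0) - (F (vt x t1) - vt x t1)‖ +
      ‖F (vt x t1) - vt x t1‖ := by
    have := norm_add_le ((F (vt x t0) - vt x t0) - (F (vt x t1) - vt x t1)) (F (vt x t1) - vt x t1)
    rwa [sub_add_cancel] at this
  calc ‖F (vt x t0) - vt x t0‖ ≤ A ^ 2 * (4 * A + 8) + 16 * A ^ 2 := by linarith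
    _ = A ^ 2 * (4 * A + 24) := by ring

/-- (E4) without the bound of the label.

Proof. `H := max (C7 + A² (4 A + 24) + 1) 0`. Suppose `Im (F τ) > H`; along the ray `s ↦ Im (F (τ - i s))` is
continuous and tends to `- ∞`: there is `s > 0` with `Im (F (τ - i s)) = H`; `Vz` holds at `τ - i s`, so
`lab_near` gives `H ≤ Im (τ - i s) + A² (4 A + 24) ≤ C7 + A² (4 A + 24) < H`. -/
theorem lab_up {A : ℝ} (hA : StripC A) (C7 : ℝ) : ∃ B0 : ℕ, ∀ B : ℕ, B0 ≤ B →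
    ∀ (g : ℂ → ℂ) (γ m : ℝ) (F : ℂ → ℂ), Zf B g → Zl g B γ m F → ∀ τ : ℂ, τ.im < m →
      τ.im ≤ C7 → Vz g γ F τ → ‖τ - F τ‖ ≤ A ^ 2 * (4 * A + 24) := by
  obtain ⟨H, hH⟩ : ∃ H : ℝ, H = C7 + A ^ 2 * (4 * A + 24) + 1 := ⟨_, rfl⟩
  obtain ⟨B0, hB0⟩ := lab_near hA H
  refine ⟨B0, fun B hB g γ m F hZ h τ hτ hC hV => ?_⟩
  have hn := hB0 B hB g γ m F hZ h
  rcases le_or_gt (F τ).im H with hc | hc
  · exact hn τ hτ hV hc
  exfalso
  obtain ⟨x, hx⟩ : ∃ x, x = τ.re := ⟨_, rfl⟩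
  obtain ⟨t0, ht0⟩ : ∃ t0, t0 = τ.im := ⟨_, rfl⟩
  have hτe : vt x t0 = τ := by
    rw [hx, ht0]
    exact vt_eta τ
  have htm : t0 < m := by rwa [ht0]
  obtain ⟨T, hT⟩ := lp_low h x H
  obtain ⟨T', hT'⟩ : ∃ T', T' = min T t0 := ⟨_, rfl⟩
  have hT1 : T' ≤ t0 := by
    rw [hT']
    exact min_le_right _ _
  have hT2 : T' ≤ T := by
    rw [hT']
    exact min_le_left _ _
  have hcont : ContinuousOn (fun t => (F (vt x t)).im) (Icc T' t0) := fun t ht =>
    (hasDerivAt_lp_im h (by linarith [ht.2])).continuousAt.continuousWithinAt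
  obtain ⟨t1, ht1, hu1⟩ : ∃ t1 ∈ Icc T' t0, (F (vt x t1)).im = H :=
    intermediate_value_Icc hT1 hcont ⟨hT T' hT2, by rw [hτe]; exact hc.le⟩
  have hV1 : Vz g γ F (vt x t1) := by
    intro s hs
    have h1 := hV (t0 - t1 + s) (by linarith [ht1.2])
    have h2 : τ - ((t0 - t1 + s : ℝ) : ℂ) * I = vt x t1 - s * I := by
      rw [← hτe]
      unfold vt
      push_cast
      ring
    rwa [h2] at h1
  have h1 := hn (vt x t1) (by rw [vt_im]; linarith [ht1.2]) hV1 hu1.le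
  have h2 := (abs_le.1 ((abs_im_le_norm _).trans h1)).1
  rw [sub_im, vt_im, hu1] at h2
  linarith [ht1.2]

end Pool.Agent.MP_ae5b4e_an_TI
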