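import Pool.Agent.Lib.MP_ae5b4e_an_TI.StrD

/-!
# POR (iii), N2, TYPE I, trap (E3): strip facts in the variable `x = y²` (FINAL FORM)
-/

set_option autoImplicit false

noncomputable section

namespace Pool.Agent.MP_ae5b4e_an_TI

open Complex Set Filter Topology Metric
open Pool.Agent.MP_ae5b4e_an_WB
open Pool.Agent.MP_ae5b4e_an_T
open Pool.Agent.MP_ae5b4e_an_M (S1 C1f Gf)

private theorem StrE_sre_nonneg (x : ℂ) : 0 ≤ sre x := Real.sqrt_nonneg _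

private theorem StrE_sre_zero : sre 0 = 0 := by
  unfold sre
  simp

private theorem StrE_root {x : ℂ} (h : sre x ≤ Real.pi / 2) (hx : x ≠ 0) :
    ∃ y : ℂ, y ^ 2 = x ∧ |y.re| = sre x ∧ y ≠ 0 ∧ sin y ≠ 0 := by
  obtain ⟨y, hy, hre⟩ := exists_sqrt x
  have h1 : |y.re| = sre x := (sre_eq hy).symm
  have h2 : y ≠ 0 := by
    rintro rfl
    apply hx
    rw [← hy]
    norm_num
  refine ⟨y, hy, h1, h2, sin_ne_strip ?_ h2⟩
  rw [h1]
  have := Real.pi_pos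
  linarith

private theorem StrE_w {x y : ℂ} (hy : y ^ 2 = x) (hs : sin y ≠ 0) :
    ‖x * Pz x ^ 2‖ = ‖G y‖ ^ 2 := by
  rw [← hy, ← G_sq_eq hs, norm_pow]

private theorem StrE_exp2 : Real.exp 2 = Real.exp 1 ^ 2 := by
  rw [← Real.exp_nat_mul]
  norm_num

/-- `sre x ≤ √‖x‖` -/
private theorem StrE_sre_lt {x : ℂ} (h : ‖x‖ ≤ 2) : sre x < Real.pi := by
  have h1 : sre x ≤ 2 := by
    unfold sre
    rw [show (2 : ℝ) = √4 by
      rw [show (4 : ℝ) = 2 ^ 2 by norm_num, Real.sqrt_sq (by norm_num)]]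
    refine Real.sqrt_le_sqrt ?_
    have h2 := (abs_le.1 (Complex.abs_re_le_norm x)).2
    rw [show √(4 : ℝ) = 2 by
      rw [show (4 : ℝ) = 2 ^ 2 by norm_num, Real.sqrt_sq (by norm_num)]]
    linarith
  have := Real.pi_gt_three
  linarith

private theorem StrE_diff {x : ℂ} (h : ‖x‖ ≤ 2) : DifferentiableAt ℂ Pz x :=
  Pz_diff (S1_ne (StrE_sre_lt h))

private theorem StrE_bd : ∃ C : ℝ, 0 ≤ C ∧ ∀ x : ℂ, ‖x‖ ≤ 2 → ‖Pz x‖ ≤ C := by
  have h1 : ContinuousOn Pz (closedBall (0 : ℂ) 2) := fun x hx =>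
    (StrE_diff (mem_closedBall_zero_iff.1 hx)).continuousAt.continuousWithinAt
  obtain ⟨C, hC⟩ := (isCompact_closedBall (0 : ℂ) 2).exists_bound_of_continuousOn h1
  refine ⟨max C 0, le_max_right _ _, fun x hx => (hC x ?_).trans (le_max_left _ _)⟩
  exact mem_closedBall_zero_iff.2 hx

private theorem StrE_lip : ∃ K : ℝ, 0 ≤ K ∧ ∀ x : ℂ, ‖x‖ ≤ 1 → ‖Pz x - 1‖ ≤ K * ‖x‖ := by
  obtain ⟨C, hC0, hC⟩ := StrE_bd
  refine ⟨(C + 2) / 2, by positivity, fun x hx => ?_⟩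
  have hd : DifferentiableOn ℂ Pz (ball (0 : ℂ) 2) := fun x hx =>
    (StrE_diff (mem_ball_zero_iff.1 hx).le).differentiableWithinAt
  have hm : MapsTo Pz (ball (0 : ℂ) 2) (ball (Pz 0) (C + 2)) := by
    intro z hz
    rw [mem_ball, dist_eq_norm, Pz_zero]
    have h1 := hC z (mem_ball_zero_iff.1 hz).le
    have h2 := norm_sub_le (Pz z) 1
    rw [norm_one] at h2
    linarith
  have h3 := Complex.dist_le_div_mul_dist_of_mapsTo_ball hd (hm.mono_right ball_subset_closedBall)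
    (z := x) (by rw [mem_ball_zero_iff]; linarith)
  rw [Pz_zero, dist_eq_norm, dist_zero_right] at h3
  exact h3

/-- Proof: `x = y²`; `x = 0` is clear; otherwise `sin y ≠ 0` (`sin_ne_strip`), `x Pz x² = G y²`
(`G_sq_eq`), `G_le`. -/
theorem w_le {x : ℂ} (h : sre x ≤ Real.pi / 2) : ‖x * Pz x ^ 2‖ ≤ Real.exp 2 := by
  rcases eq_or_ne x 0 with rfl | hx
  · rw [zero_mul, norm_zero]
    positivity
  · obtain ⟨y, hy, hre, hy0, hs⟩ := StrE_root h hx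
    rw [StrE_w hy hs, StrE_exp2]
    exact pow_le_pow_left₀ (norm_nonneg _) (G_le (by rw [hre]; exact h)) 2

/-- Proof: `G_edge_ge`. -/
theorem w_edge {x : ℂ} (h : sre x = Real.pi / 2) : Real.exp 2 / 4 ≤ ‖x * Pz x ^ 2‖ := by
  have hx : x ≠ 0 := by
    rintro rfl
    rw [StrE_sre_zero] at h
    have := Real.pi_pos
    linarith
  obtain ⟨y, hy, hre, hy0, hs⟩ := StrE_root h.le hx
  rw [StrE_w hy hs, StrE_exp2]
  have h1 := G_edge_ge (y := y) (by rw [hre]; exact h)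
  have h2 := pow_le_pow_left₀ (by positivity) h1 2
  calc Real.exp 1 ^ 2 / 4 = (Real.exp 1 / 2) ^ 2 := by ring
    _ ≤ ‖G y‖ ^ 2 := h2

/-- Proof: `G_ge`: `‖G y‖² ≥ min 1 ‖y‖² / 24²`, `‖y‖² = ‖x‖`. -/
theorem w_ge {x : ℂ} (h : sre x ≤ Real.pi / 2) : min 1 ‖x‖ / 576 ≤ ‖x * Pz x ^ 2‖ := by
  rcases eq_or_ne x 0 with rfl | hx
  · simp
  · obtain ⟨y, hy, hre, hy0, hs⟩ := StrE_root h hx
    rw [StrE_w hy hs]
    have h1 := G_ge (y := y) (by rw [hre]; exact h)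
    have h2 := pow_le_pow_left₀ (by positivity) h1 2
    have h3 : min 1 ‖x‖ ≤ min 1 ‖y‖ ^ 2 := by
      have h4 : ‖x‖ = ‖y‖ ^ 2 := by rw [← hy, norm_pow]
      rcases le_total ‖y‖ 1 with h5 | h5
      · rw [min_eq_right h5, h4]
        exact min_le_right _ _
      · rw [min_eq_left h5, one_pow]
        exact min_le_left _ _
    calc min 1 ‖x‖ / 576 ≤ min 1 ‖y‖ ^ 2 / 576 := by gcongr
      _ = (min 1 ‖y‖ / 24) ^ 2 := by ring
      _ ≤ ‖G y‖ ^ 2 := h2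

/-- Proof: `‖Pz x‖ ≥ c` for `‖x‖ ≤ 1` and `‖Pz x‖ ≤ C`: `Pz x = G y / y`. `‖y‖ ≥ 1`: `‖Pz x‖ ≤ e`.
`‖y‖ ≤ 1`: `Pz` is continuous on the compact ball (`S1 ≠ 0` there). -/
theorem Pz_le : ∃ C : ℝ, 1 ≤ C ∧ ∀ x : ℂ, sre x ≤ Real.pi / 2 → ‖Pz x‖ ≤ C := by
  obtain ⟨C, hC0, hC⟩ := StrE_bd
  refine ⟨max C (Real.exp 1), (Real.one_le_exp zero_le_one).trans (le_max_right _ _),
    fun x hx => ?_⟩
  rcases le_total ‖x‖ 2 with h1 | h1
  · exact (hC x h1).trans (le_max_left _ _)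
  · have hx0 : x ≠ 0 := by
      rintro rfl
      rw [norm_zero] at h1
      linarith
    obtain ⟨y, hy, hre, hy0, hs⟩ := StrE_root hx hx0
    refine le_trans ?_ (le_max_right _ _)
    rw [← hy, Pz_sq hs, norm_div]
    have h2 : 1 ≤ ‖y‖ := by
      by_contra h3
      push Not at h3
      have h4 : ‖x‖ = ‖y‖ ^ 2 := by rw [← hy, norm_pow]
      have h5 := norm_nonneg y
      nlinarith
    have h6 := G_le (y := y) (by rw [hre]; exact hx)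
    rw [div_le_iff₀ (by linarith)]
    have := Real.exp_pos 1
    nlinarith

/-- Proof: `‖x‖ ≤ 1`: `‖Pz x - 1‖ ≤ C1 ‖x‖` (`Pz` is `C¹` on the compact unit ball, `Pz 0 = 1`),
and `‖x‖ ≤ 576 ‖x Pz x²‖` (`w_ge`). `‖x‖ ≥ 1`: `‖Pz x - 1‖ ≤ C + 1 ≤ (C + 1) 576 ‖x Pz x²‖`
(`Pz_le`, `w_ge`). -/
theorem Pz_sub_one : ∃ C : ℝ, 1 ≤ C ∧ ∀ x : ℂ, sre x ≤ Real.pi / 2 →
    ‖Pz x - 1‖ ≤ C * min 1 ‖x * Pz x ^ 2‖ := by
  obtain ⟨C, hC1, hC⟩ := Pz_le
  obtain ⟨K, hK0, hK⟩ := StrE_lip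
  refine ⟨576 * max K (C + 1), ?_, fun x hx => ?_⟩
  · have h1 : C + 1 ≤ max K (C + 1) := le_max_right _ _
    linarith
  · have h1 : min 1 ‖x‖ ≤ 576 * min 1 ‖x * Pz x ^ 2‖ := by
      have h2 := w_ge hx
      rcases le_total (1 : ℝ) ‖x * Pz x ^ 2‖ with h3 | h3
      · rw [min_eq_left h3]
        have := min_le_left (1 : ℝ) ‖x‖
        linarith
      · rw [min_eq_right h3]
        linarith
    have h4 : ‖Pz x - 1‖ ≤ max K (C + 1) * min 1 ‖x‖ := by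
      rcases le_total ‖x‖ 1 with h5 | h5
      · rw [min_eq_right h5]
        exact (hK x h5).trans (mul_le_mul_of_nonneg_right (le_max_left _ _) (norm_nonneg _))
      · rw [min_eq_left h5, mul_one]
        have h6 := norm_sub_le (Pz x) 1
        rw [norm_one] at h6
        have h7 := hC x hx
        have h8 : C + 1 ≤ max K (C + 1) := le_max_right _ _
        linarith
    have h9 : 0 ≤ max K (C + 1) := hK0.trans (le_max_left _ _)
    calc ‖Pz x - 1‖ ≤ max K (C + 1) * min 1 ‖x‖ := h4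
      _ ≤ max K (C + 1) * (576 * min 1 ‖x * Pz x ^ 2‖) := mul_le_mul_of_nonneg_left h1 h9
      _ = 576 * max K (C + 1) * min 1 ‖x * Pz x ^ 2‖ := by ring

/-- the derivative of the label in the strip. Proof: `f' Pz (Xf) = 1` (`der_Pz`), `Pz_arg`:
`Re (1 / z) = Re z / ‖z‖²`. -/
theorem der_strip {q : ℂ → ℂ} {C γ v : ℝ} {f : ℂ → ℂ} (h : Sl q C γ v f) {τ : ℂ} (hτ : τ ∈ Hp v)
    (hs : sre (Xf q γ f τ) ≤ Real.pi / 2) : ‖deriv f τ‖ / 4 ≤ (deriv f τ).re := by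
  have h1 := der_Pz h hτ
  have h2 := Pz_arg hs
  set p : ℂ := Pz (Xf q γ f τ) with hp
  have hp0 : p ≠ 0 := by
    intro h0
    rw [h0, mul_zero] at h1
    exact zero_ne_one h1
  have h3 : deriv f τ = p⁻¹ := eq_inv_of_mul_eq_one_left h1
  rw [h3, norm_inv, Complex.inv_re, Complex.normSq_eq_norm_sq]
  have h4 : 0 < ‖p‖ := norm_pos_iff.2 hp0
  rw [le_div_iff₀ (by positivity)]
  calc ‖p‖⁻¹ / 4 * ‖p‖ ^ 2 = ‖p‖ / 4 := by field_simp
    _ ≤ p.re := h2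

end Pool.Agent.MP_ae5b4e_an_TI
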