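import Pool.Agent.Lib.MP_ae5b4e_an_TI.Zoom
import Pool.Agent.Lib.MP_ae5b4e_an_TI.Line
import Pool.Agent.Lib.MP_ae5b4e_an_TI.StrE
import Pool.Agent.Lib.MP_ae5b4e_an_TI.E2
import Pool.Agent.Lib.MP_ae5b4e_an_TI.E6f

/-!
# The trap: there is no first point with `|Re y| = π / 2` on a vertical ray
-/

set_option autoImplicit false

noncomputable section

namespace Pool.Agent.MP_ae5b4e_an_TI

open Complex Set Filter Topology Metric
open Pool.Agent.MP_ae5b4e_an_T
open Pool.Agent.MP_ae5b4e_an_PK (Asy)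
open Pool.Agent.MP_ae5b4e_an_M (S1 C1f Gf)
open PorTR (Hm)

/-- the constant of the strip -/
theorem exists_stripC : ∃ A : ℝ, StripC A := by
  obtain ⟨C, hC, hC'⟩ := Pz_sub_one
  have h1 : (1 : ℝ) ≤ Real.exp 2 := Real.one_le_exp (by norm_num)
  refine ⟨max 4 (max (Real.exp 2) C), le_trans (by norm_num) (le_max_left _ _), ?_, ?_, ?_⟩
  · intro x hx
    have h2 := Pz_arg hx
    have h3 : 0 ≤ (Pz x).re := le_trans (by positivity) h2
    have h4 : 4 * (Pz x).re ≤ max 4 (max (Real.exp 2) C) * (Pz x).re :=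
      mul_le_mul_of_nonneg_right (le_max_left _ _) h3
    linarith
  · exact fun x hx => (w_le hx).trans ((le_max_left _ _).trans (le_max_right _ _))
  · intro x hx
    refine (hC' x hx).trans (mul_le_mul_of_nonneg_right
      ((le_max_right _ _).trans (le_max_right _ _)) (le_min zero_le_one (norm_nonneg _)))

theorem sre_sq' (x : ℂ) : sre x ^ 2 = (‖x‖ + x.re) / 2 := by
  unfold sre
  rw [Real.sq_sqrt]
  have h1 := Complex.abs_re_le_norm x
  have h2 := neg_abs_le x.re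
  linarith

theorem sre_nonneg (x : ℂ) : 0 ≤ sre x := Real.sqrt_nonneg _

private theorem NoT_core {g : ℂ → ℂ} {x : ℝ} {R : ℝ} {z1 : ℂ} (hz1 : z1 ∈ closedBall (x : ℂ) R)
    (hcl : ∀ z ∈ closedBall (x : ℂ) R, ‖g z - g x * cexp (-I * (z - x))‖ ≤ Real.exp (-40) / 100 ∧
      ‖deriv g z + I * g z‖ ≤ Real.exp (-40) / 100)
    (h1 : 1 / 4 ≤ ‖g z1‖) {z : ℂ} (hz : z ∈ closedBall (x : ℂ) R) (hzz : z ∈ ball z1 40) :
    g z ≠ 0 ∧ ‖deriv g z / g z + I‖ ≤ 1 / 10 := by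
  have he : (0 : ℝ) < Real.exp (-40) := Real.exp_pos _
  have he1 : Real.exp (-40) ≤ 1 := Real.exp_le_one_iff.2 (by norm_num)
  have hn : ∀ z : ℂ, ‖g x * cexp (-I * (z - x))‖ = ‖g x‖ * Real.exp z.im := by
    intro z
    rw [norm_mul, Complex.norm_exp]
    congr 2
    simp
  have a1 := (hcl z1 hz1).1
  have a2 := (hcl z hz).1
  have a3 := (hcl z hz).2
  have b1 : ‖g z1‖ ≤ ‖g x‖ * Real.exp z1.im + Real.exp (-40) / 100 := by
    have := norm_sub_norm_le (g z1) (g x * cexp (-I * (z1 - x)))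
    rw [hn] at this
    linarith
  have b2 : ‖g x‖ * Real.exp z.im ≤ ‖g z‖ + Real.exp (-40) / 100 := by
    have := norm_sub_norm_le (g x * cexp (-I * (z - x))) (g z)
    rw [hn, norm_sub_rev] at this
    linarith
  have b3 : 1 / 8 ≤ ‖g x‖ * Real.exp z1.im := by linarith
  have b4 : -40 ≤ z.im - z1.im := by
    rw [mem_ball, dist_eq_norm] at hzz
    have h2 := Complex.abs_im_le_norm (z - z1)
    rw [Complex.sub_im] at h2
    have h3 := neg_abs_le (z.im - z1.im)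
    linarith
  have b5 : 1 / 8 * Real.exp (-40) ≤ ‖g x‖ * Real.exp z.im := by
    have h2 : ‖g x‖ * Real.exp z.im = ‖g x‖ * Real.exp z1.im * Real.exp (z.im - z1.im) := by
      rw [mul_assoc, ← Real.exp_add]
      congr 2
      ring
    rw [h2]
    exact mul_le_mul b3 (Real.exp_le_exp.2 b4) he.le (le_trans (by norm_num) b3)
  have b6 : 10 * (Real.exp (-40) / 100) ≤ ‖g z‖ := by linarith
  have b7 : 0 < ‖g z‖ := lt_of_lt_of_le (by positivity) b6
  have b8 : g z ≠ 0 := norm_pos_iff.1 b7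
  refine ⟨b8, ?_⟩
  have h2 : deriv g z / g z + I = (deriv g z + I * g z) / g z := by
    field_simp
  rw [h2, norm_div, div_le_iff₀ b7]
  linarith

/-- there is no point `τ` of the D-side, at bounded height in the zoom, with `|Re y| = π / 2` and the
ray below it in the strip -/
theorem no_touch {A : ℝ} (hA : StripC A) (C7 : ℝ) : ∃ B0 : ℕ, ∀ B : ℕ, B0 ≤ B →
    ∀ (q : ℂ → ℂ) (C γ v : ℝ) (f : ℂ → ℂ) (κ x0 D : ℝ), Sl q C γ v f → Asy f → 0 < κ → κ ≤ γ →
      γ ≤ 2 * κ → 0 < D → Zf B (zg q κ x0 D B) → ∀ τ : ℂ, τ.im < (D - v) * B / D → τ.im ≤ C7 →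
        Vz (zg q κ x0 D B) (γ / κ) (zF f x0 D B) τ →
          sre (Xf (zg q κ x0 D B) (γ / κ) (zF f x0 D B) τ) ≠ Real.pi / 2 := by
  obtain ⟨B1, hB1⟩ := lab_up hA C7
  obtain ⟨H, hH⟩ : ∃ H : ℝ, H = max (C7 + A ^ 2 * (4 * A + 24)) 4 := ⟨_, rfl⟩
  have hH4 : 4 ≤ H := by
    rw [hH]
    exact le_max_right _ _
  have hHC : C7 + A ^ 2 * (4 * A + 24) ≤ H := by
    rw [hH]
    exact le_max_left _ _
  obtain ⟨B2, hB2⟩ := close (H + 41) (Real.exp (-40) / 100) (by positivity)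
  obtain ⟨B3, hB3⟩ := exists_nat_gt (H + 41)
  refine ⟨max B1 (max B2 (max B3 2)), fun B hB q C γ v f κ x0 D hS hAs hκ h1 h2 hD hZf τ hτ hτ7
    hV hre => ?_⟩
  have hBB1 : B1 ≤ B := le_trans (le_max_left _ _) hB
  have hBB2 : B2 ≤ B := le_trans ((le_max_left _ _).trans (le_max_right _ _)) hB
  have hBB3 : B3 ≤ B := le_trans (((le_max_left _ _).trans (le_max_right _ _)).trans
    (le_max_right _ _)) hB
  have hBB4 : 2 ≤ B := le_trans (((le_max_right _ _).trans (le_max_right _ _)).trans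
    (le_max_right _ _)) hB
  have hB0 : 0 < B := by omega
  have hBR : H + 41 < B := lt_of_lt_of_le hB3 (by exact_mod_cast hBB3)
  have hB' : (0 : ℝ) < B := by exact_mod_cast hB0
  obtain ⟨g, hg⟩ : ∃ g : ℂ → ℂ, g = zg q κ x0 D B := ⟨_, rfl⟩
  obtain ⟨F, hF⟩ : ∃ F : ℂ → ℂ, F = zF f x0 D B := ⟨_, rfl⟩
  have hZl : Zl g B (γ / κ) ((D - v) * B / D) F := by
    rw [hg, hF]
    exact zoom_Zl hS hAs hκ hD hB0 h1 h2
  rw [← hg] at hZf hV hre
  rw [← hF] at hV hre
  have hnear := hB1 B hBB1 g (γ / κ) _ F hZf hZl τ hτ hτ7 hV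
  obtain ⟨z1, hz1⟩ : ∃ z1 : ℂ, z1 = F τ := ⟨_, rfl⟩
  rw [← hz1] at hnear
  -- the modulus of `g` at `z1`
  have hw := hZl.w hτ
  rw [← hz1] at hw
  have hedge := w_edge hre
  rw [hw, norm_mul, norm_pow, Complex.norm_real, Real.norm_eq_abs, sq_abs] at hedge
  have hγ1 := hZl.γ1
  have hγ2 := hZl.γ2
  have hgz1 : 1 / 4 ≤ ‖g z1‖ := by
    have h3 : (1 : ℝ) ≤ Real.exp 2 / 4 := by
      have h4 : (2.7182818283 : ℝ) < Real.exp 1 := Real.exp_one_gt_d9
      have h5 : Real.exp 2 = Real.exp 1 * Real.exp 1 := by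
        rw [← Real.exp_add]
        norm_num
      rw [h5]
      nlinarith
    have h4 : (γ / κ) ^ 2 ≤ 4 := by nlinarith
    have h5 : (γ / κ) ^ 2 * ‖g z1‖ ≤ 4 * ‖g z1‖ :=
      mul_le_mul_of_nonneg_right h4 (norm_nonneg _)
    linarith
  -- the height of `z1`
  have hup : z1.im ≤ H := by
    have h3 := Complex.abs_im_le_norm (τ - z1)
    rw [Complex.sub_im] at h3
    have h4 := neg_abs_le (τ.im - z1.im)
    linarith
  have hlow : -4 ≤ z1.im := by
    by_contra hcon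
    push Not at hcon
    have h3 := hZf.low hBB4 (z := z1) (by linarith)
    have h4 : (9 : ℝ) ≤ (1 - z1.im / 2) ^ 2 := by nlinarith
    have h5 : 2 / (1 - z1.im / 2) ^ 2 ≤ 2 / 9 :=
      div_le_div_of_nonneg_left (by norm_num) (by norm_num) h4
    linarith
  obtain ⟨x, hx⟩ : ∃ x : ℝ, x = z1.re := ⟨_, rfl⟩
  have hzx : z1 - (x : ℂ) = z1.im * I := by
    rw [hx]
    apply Complex.ext <;> simp
  have hz1m : z1 ∈ closedBall (x : ℂ) (H + 41) := by
    rw [mem_closedBall, dist_eq_norm, hzx, norm_mul, Complex.norm_I, mul_one, Complex.norm_real,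
      Real.norm_eq_abs, abs_le]
    constructor <;> linarith
  have hsub : ∀ z ∈ ball z1 40, z ∈ closedBall (x : ℂ) (H + 41) := by
    intro z hz
    rw [mem_ball, dist_eq_norm] at hz
    rw [mem_closedBall, dist_eq_norm]
    have h3 : ‖z1 - x‖ ≤ H := by
      rw [hzx, norm_mul, Complex.norm_I, mul_one, Complex.norm_real, Real.norm_eq_abs, abs_le]
      constructor <;> linarith
    have h4 : z - x = (z - z1) + (z1 - x) := by ring
    rw [h4]
    have h5 := norm_add_le (z - z1) (z1 - x)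
    linarith
  have hcl := fun z hz => hB2 B hBB2 g hZf x z hz
  have hcore : ∀ z ∈ ball z1 40, g z ≠ 0 ∧ ‖deriv g z / g z + I‖ ≤ 1 / 10 := fun z hz =>
    NoT_core hz1m hcl hgz1 (hsub z hz) hz
  -- back to the slice
  obtain ⟨mu, hmu⟩ : ∃ mu : ℝ, mu = D / B := ⟨_, rfl⟩
  have hmu0 : 0 < mu := by
    rw [hmu]
    exact div_pos hD hB'
  have hmuc : (mu : ℂ) ≠ 0 := by exact_mod_cast hmu0.ne'
  have hκc : (κ : ℂ) ≠ 0 := by exact_mod_cast hκ.ne'
  have hmem : zp x0 D B τ ∈ Hp v := (zp_mem hD hB0).2 hτ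
  have hzpz : zp x0 D B z1 = f (zp x0 D B τ) := by
    rw [hz1, hF]
    exact zp_zF hD hB0 τ
  have hback : ∀ l ∈ ball (f (zp x0 D B τ)) (40 * mu), ∃ z ∈ ball z1 40, l = zp x0 D B z ∧
      z.im < B := by
    intro l hl
    rw [← hzpz, mem_ball, dist_eq_norm] at hl
    refine ⟨z1 + (l - zp x0 D B z1) / mu, ?_, ?_, ?_⟩
    · rw [mem_ball, dist_eq_norm, add_sub_cancel_left, norm_div, Complex.norm_real,
        Real.norm_eq_abs, abs_of_pos hmu0, div_lt_iff₀ hmu0]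
      exact hl
    · unfold zp
      rw [← hmu]
      field_simp
      ring
    · have h3 : ‖(l - zp x0 D B z1) / mu‖ < 40 := by
        rw [norm_div, Complex.norm_real, Real.norm_eq_abs, abs_of_pos hmu0, div_lt_iff₀ hmu0]
        exact hl
      have h4 := (Complex.abs_im_le_norm ((l - zp x0 D B z1) / mu)).trans_lt h3
      have h5 := le_abs_self ((l - zp x0 D B z1) / mu).im
      rw [Complex.add_im]
      linarith
  have hq : ∀ z : ℂ, g z = (κ : ℂ) ^ 2 * q (zp x0 D B z) := by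
    intro z
    rw [hg]
    rfl
  have hq' : ∀ z : ℂ, z.im < B → deriv g z = (κ : ℂ) ^ 2 * (deriv q (zp x0 D B z) * mu) := by
    intro z hz
    have hop : IsOpen Hm := isOpen_lt Complex.continuous_im continuous_const
    have h3 : DifferentiableAt ℂ q (zp x0 D B z) :=
      hS.qd.differentiableAt (hop.mem_nhds ((zp_Hm hD hB0).2 hz))
    have h4 := (h3.hasDerivAt.comp z (zp_hasDerivAt x0 D B z)).const_mul ((κ : ℂ) ^ 2)
    rw [hg, hmu]
    exact h4.deriv
  refine no_half hS hmem ?_ hmu0 (fun l hl => ?_) (fun l hl => ?_) (fun l hl => ?_)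
  · have h3 := Xf_zoom (q := q) (γ := γ) (x0 := x0) hS.fd hD hB0 hκ hτ
    rw [← hg, ← hF] at h3
    rw [h3] at hre
    have h4 := sre_sq' (Xf q γ f (zp x0 D B τ))
    rw [hre] at h4
    have h5 : (Real.pi / 2) ^ 2 = Real.pi ^ 2 / 4 := by ring
    rw [h5] at h4
    linarith
  · obtain ⟨z, -, hlz, hzB⟩ := hback l hl
    rw [hlz]
    exact (zp_Hm hD hB0).2 hzB
  · obtain ⟨z, hz, hlz, hzB⟩ := hback l hl
    have h3 := (hcore z hz).1
    rw [hq] at h3
    rw [hlz]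
    exact (mul_ne_zero_iff.1 h3).2
  · obtain ⟨z, hz, hlz, hzB⟩ := hback l hl
    have h3 := (hcore z hz).1
    have h4 := (hcore z hz).2
    rw [hq] at h3
    have h6 : q (zp x0 D B z) ≠ 0 := (mul_ne_zero_iff.1 h3).2
    rw [hq, hq' z hzB] at h4
    have h5 : (κ : ℂ) ^ 2 * (deriv q (zp x0 D B z) * mu) / ((κ : ℂ) ^ 2 * q (zp x0 D B z)) + I =
        mu * (deriv q l / q l + I / mu) := by
      rw [hlz]
      field_simp
    rw [h5, norm_mul, Complex.norm_real, Real.norm_eq_abs, abs_of_pos hmu0] at h4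
    rw [le_div_iff₀ (by positivity)]
    linarith

end Pool.Agent.MP_ae5b4e_an_TI
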