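import Pool.Agent.Lib.MP_ae5b4e_an_WB.GB
import Pool.Agent.Lib.MP_ae5b4e_an_M.FnA
import Pool.Agent.Lib.MP_ae5b4e_an_T.Defs

/-!
# POR (iii), N2, TYPE I, trap (E3): the functions `Pz`, `sre`

`Pz (y ^ 2) = G y / y = (sin y / y) exp (1 - y cot y)` (`= w / y`), an analytic function of `x = y²`;
`sre (y ^ 2) = |Re y|`. On a slice: `f' Pz (Xf) = 1`, `Xf Pz (Xf) ^ 2 = γ² q (f)`.
-/

set_option autoImplicit false

noncomputable section

namespace Pool.Agent.MP_ae5b4e_an_TI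

open Complex Set Filter Topology Metric
open Pool.Agent.MP_ae5b4e_an_WB
open Pool.Agent.MP_ae5b4e_an_T
open Pool.Agent.MP_ae5b4e_an_M (S1 C1f Gf)
open scoped ComplexConjugate

/-- `w / y` as a function of `x = y ^ 2` -/
def Pz (x : ℂ) : ℂ := S1 x * cexp (1 - C1f x / S1 x)

/-- `|Re √x|` -/
def sre (x : ℂ) : ℝ := √((‖x‖ + x.re) / 2)

/-- Proof: `‖y‖² + Re (y²) = 2 (Re y)²`. -/
theorem sre_sq (y : ℂ) : sre (y ^ 2) = |y.re| := by
  have h1 : (‖y ^ 2‖ + (y ^ 2).re) / 2 = y.re ^ 2 := by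
    rw [norm_pow, Complex.sq_norm, Complex.normSq_apply, pow_two y, mul_re]
    ring
  unfold sre
  rw [h1, Real.sqrt_sq_eq_abs]

theorem sre_eq {x y : ℂ} (h : y ^ 2 = x) : sre x = |y.re| := by
  rw [← h, sre_sq]

theorem sre_cont : Continuous sre := by
  unfold sre
  exact Real.continuous_sqrt.comp ((continuous_norm.add continuous_re).div_const 2)

/-- every `x` is the square of a number with real part `sre x` -/
theorem exists_sqrt (x : ℂ) : ∃ y : ℂ, y ^ 2 = x ∧ y.re = sre x := by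
  obtain ⟨y, hy⟩ := IsAlgClosed.exists_pow_nat_eq x (n := 2) (by norm_num)
  rcases le_total 0 y.re with h | h
  · exact ⟨y, hy, by rw [sre_eq hy, abs_of_nonneg h]⟩
  · refine ⟨-y, by rw [neg_sq, hy], ?_⟩
    rw [sre_eq hy, abs_of_nonpos h, neg_re]

/-- Proof: `S1_sq`, `C1f_sq`: `S1 (y²) = sin y / y`, `C1f (y²) / S1 (y²) = y cos y / sin y`. -/
theorem Pz_sq {y : ℂ} (h : sin y ≠ 0) : Pz (y ^ 2) = G y / y := by
  have hy : y ≠ 0 := ne_zero_of_sin h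
  have h1 : S1 (y ^ 2) = sin y / y := by
    rw [eq_div_iff hy, mul_comm]
    exact Pool.Agent.MP_ae5b4e_an_M.S1_sq y
  have h2 : 1 - cos y / (sin y / y) = 1 - y * (cos y / sin y) := by
    field_simp
  unfold Pz G
  rw [h1, Pool.Agent.MP_ae5b4e_an_M.C1f_sq, h2]
  ring

/-- Proof: `S1_zero`, `C1f_zero`. -/
theorem Pz_zero : Pz 0 = 1 := by
  unfold Pz
  rw [Pool.Agent.MP_ae5b4e_an_M.S1_zero, Pool.Agent.MP_ae5b4e_an_M.C1f_zero, div_one, sub_self,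
    Complex.exp_zero, mul_one]

/-- Proof: `S1_eq_zero`: otherwise `x = (k π)²`, `k ≥ 1`, `sre x = k π ≥ π`. -/
theorem S1_ne {x : ℂ} (h : sre x < Real.pi) : S1 x ≠ 0 := by
  intro h0
  obtain ⟨k, hk, hx⟩ := Pool.Agent.MP_ae5b4e_an_M.S1_eq_zero.1 h0
  have hk1 : (1 : ℝ) ≤ k := by exact_mod_cast hk
  have hpi := Real.pi_pos
  have h1 : ((k : ℂ) * Real.pi).re = k * Real.pi := by simp
  rw [hx, sre_sq, h1, abs_of_nonneg (by positivity)] at h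
  nlinarith

theorem Pz_ne {x : ℂ} (h : S1 x ≠ 0) : Pz x ≠ 0 := mul_ne_zero h (exp_ne_zero _)

/-- Proof: `S1_diff`, `C1f_diff`. -/
theorem Pz_diff {x : ℂ} (h : S1 x ≠ 0) : DifferentiableAt ℂ Pz x := by
  unfold Pz
  exact (Pool.Agent.MP_ae5b4e_an_M.S1_diff x).mul
    (((Pool.Agent.MP_ae5b4e_an_M.C1f_diff x).div (Pool.Agent.MP_ae5b4e_an_M.S1_diff x)
      h).const_sub 1).cexp

/-- Proof: `S1`, `C1f` are power series with real coefficients (or: `x = y²`, `S1_sq`, `C1f_sq`,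
`sin (conj y) = conj (sin y)`; `S1_zero`, `C1f_zero` for `x = 0`). -/
theorem Pz_conj (x : ℂ) : Pz (conj x) = conj (Pz x) := by
  have hC : C1f (conj x) = conj (C1f x) := by
    obtain ⟨y, rfl⟩ := IsAlgClosed.exists_pow_nat_eq x (n := 2) (by norm_num)
    rw [map_pow, Pool.Agent.MP_ae5b4e_an_M.C1f_sq, Pool.Agent.MP_ae5b4e_an_M.C1f_sq,
      Complex.cos_conj]
  have hS : S1 (conj x) = conj (S1 x) := by
    obtain ⟨y, rfl⟩ := IsAlgClosed.exists_pow_nat_eq x (n := 2) (by norm_num)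
    rcases eq_or_ne y 0 with h0 | h0
    · rw [h0, zero_pow two_ne_zero, map_zero, Pool.Agent.MP_ae5b4e_an_M.S1_zero, map_one]
    · have h1 : (conj y : ℂ) ≠ 0 := (map_ne_zero _).2 h0
      refine mul_left_cancel₀ h1 ?_
      rw [← map_mul, Pool.Agent.MP_ae5b4e_an_M.S1_sq, map_pow,
        Pool.Agent.MP_ae5b4e_an_M.S1_sq, Complex.sin_conj]
  unfold Pz
  rw [hC, hS, map_mul, ← Complex.exp_conj, map_sub, map_one, map_div₀]

/-- `(G y)² = y² Pz (y²)²` -/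
theorem G_sq_eq {y : ℂ} (h : sin y ≠ 0) : G y ^ 2 = y ^ 2 * Pz (y ^ 2) ^ 2 := by
  rw [Pz_sq h]
  have hy : y ≠ 0 := ne_zero_of_sin h
  field_simp

/-- Proof: `h.gf` (`Gf q l α = α S1 (q l α²) exp (1 - C1f / S1)`, `α = γ f'`), divide by `γ`. -/
theorem der_Pz {q : ℂ → ℂ} {C γ v : ℝ} {f : ℂ → ℂ} (h : Sl q C γ v f) {τ : ℂ} (hτ : τ ∈ Hp v) :
    deriv f τ * Pz (Xf q γ f τ) = 1 := by
  have hγ : (γ : ℂ) ≠ 0 := by exact_mod_cast h.γ_pos.ne'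
  have h1 := h.gf τ hτ
  have h2 : (γ : ℂ) * (deriv f τ * Pz (Xf q γ f τ)) = γ * 1 := by
    rw [mul_one]
    refine Eq.trans ?_ h1
    unfold Gf Pz Xf
    ring
  exact mul_left_cancel₀ hγ h2

/-- Proof: `Xf = q (f) γ² f'²` and `der_Pz`. -/
theorem Xf_Pz {q : ℂ → ℂ} {C γ v : ℝ} {f : ℂ → ℂ} (h : Sl q C γ v f) {τ : ℂ} (hτ : τ ∈ Hp v) :
    Xf q γ f τ * Pz (Xf q γ f τ) ^ 2 = (γ : ℂ) ^ 2 * q (f τ) := by
  have h1 := der_Pz h hτ
  have h2 : Xf q γ f τ * Pz (Xf q γ f τ) ^ 2 =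
      (γ : ℂ) ^ 2 * q (f τ) * (deriv f τ * Pz (Xf q γ f τ)) ^ 2 := by
    obtain ⟨P, hP⟩ : ∃ P, P = Pz (Xf q γ f τ) := ⟨_, rfl⟩
    rw [← hP]
    unfold Xf
    ring
  rw [h2, h1, one_pow, mul_one]

end Pool.Agent.MP_ae5b4e_an_TI
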