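import Pool.Agent.Lib.MP_ae5b4e_an_WB.GB

/-!
# POR (iii), N2, TYPE I, trap (E3): the modulus of `G` on the strip `|Re y| ≤ π / 2`
-/

set_option autoImplicit false

noncomputable section

namespace Pool.Agent.MP_ae5b4e_an_TI

open Complex Set Filter Topology Metric
open Pool.Agent.MP_ae5b4e_an_WB

/-- zeros of the sine in the strip -/
theorem sin_ne_strip {y : ℂ} (h : |y.re| < Real.pi) (h0 : y ≠ 0) : sin y ≠ 0 := by
  intro hs
  obtain ⟨k, hk⟩ := Complex.sin_eq_zero_iff.1 hs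
  have hre : y.re = k * Real.pi := by
    rw [hk]
    have : ((k : ℂ) * (Real.pi : ℂ)) = (((k : ℝ) * Real.pi : ℝ) : ℂ) := by push_cast; ring
    rw [this, ofReal_re]
  rw [hre, abs_mul, abs_of_pos Real.pi_pos] at h
  have h1 : |(k : ℝ)| < 1 := by
    by_contra hcon
    push Not at hcon
    nlinarith [Real.pi_pos]
  have h2 : |k| < 1 := by exact_mod_cast h1
  have h3 : k = 0 := Int.abs_lt_one_iff.1 h2
  apply h0
  rw [hk, h3]
  simp

private theorem StrB_sin (a b : ℝ) : sin ((a : ℂ) + b * I) =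
    ((Real.sin a * Real.cosh b : ℝ) : ℂ) + ((Real.cos a * Real.sinh b : ℝ) : ℂ) * I := by
  rw [sin_add, sin_mul_I, cos_mul_I]
  push_cast
  ring

private theorem StrB_sinh_le {b : ℝ} (hb : 0 ≤ b) : Real.sinh b ≤ b * Real.cosh b := by
  have hd : ∀ x : ℝ, HasDerivAt (fun x : ℝ => x * Real.cosh x - Real.sinh x)
      (1 * Real.cosh x + x * Real.sinh x - Real.cosh x) x := fun x =>
    ((hasDerivAt_id x).mul (Real.hasDerivAt_cosh x)).sub (Real.hasDerivAt_sinh x)
  have hm : MonotoneOn (fun x : ℝ => x * Real.cosh x - Real.sinh x) (Ici 0) := by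
    refine monotoneOn_of_deriv_nonneg (convex_Ici 0)
      (fun x _ => (hd x).continuousAt.continuousWithinAt)
      (fun x _ => (hd x).differentiableAt.differentiableWithinAt) fun x hx => ?_
    rw [interior_Ici] at hx
    rw [(hd x).deriv]
    have h1 : 0 ≤ Real.sinh x := Real.sinh_nonneg_iff.2 (le_of_lt hx)
    have h2 : 0 ≤ x := le_of_lt hx
    nlinarith
  have h := hm (mem_Ici.2 le_rfl) (mem_Ici.2 hb) hb
  simp only [zero_mul, Real.sinh_zero, sub_zero] at h
  linarith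

/-- `y = a + i b`. Proof: `sin y = sin a cosh b + i cos a sinh b`, `Re (y / sin² y) = Re (y conj (sin² y)) /
‖sin y‖⁴` and `Re (y conj (sin² y)) = a (sin² a - sinh² b cos 2a) + 2 b sin a cos a sinh b cosh b`
(`sin² a cosh² b - cos² a sinh² b = sin² a - sinh² b cos 2a`). If `cos 2a ≤ 0` both terms are `≥ 0`. If
`cos 2a > 0` then `a < π / 4` and `a cos 2a ≤ (1/2) sin 2a` (`tan 2a ≥ 2a`), `sinh b ≤ b cosh b`, so
`a sinh² b cos 2a ≤ (1/2) sin 2a sinh b (b cosh b) ≤ 2 b sin a cos a sinh b cosh b`. -/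
theorem re_log_deriv {a b : ℝ} (ha : 0 ≤ a) (ha' : a ≤ Real.pi / 2) (hb : 0 ≤ b) (h0 : a ≠ 0 ∨ b ≠ 0) :
    0 ≤ (((a : ℂ) + b * I) / sin ((a : ℂ) + b * I) ^ 2).re := by
  have _ := h0
  have hpi := Real.pi_pos
  have hA : 0 ≤ Real.sin a := Real.sin_nonneg_of_nonneg_of_le_pi ha (by linarith)
  have hC : 0 ≤ Real.cos a := Real.cos_nonneg_of_mem_Icc ⟨by linarith, ha'⟩
  have hS : 0 ≤ Real.sinh b := Real.sinh_nonneg_iff.2 hb
  have hH : 0 < Real.cosh b := Real.cosh_pos b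
  have hHS : Real.cosh b ^ 2 - Real.sinh b ^ 2 = 1 := Real.cosh_sq_sub_sinh_sq b
  have hSb := StrB_sinh_le hb
  rw [StrB_sin]
  set u : ℝ := Real.sin a * Real.cosh b with hu
  set v : ℝ := Real.cos a * Real.sinh b with hv
  have e1 : ((u : ℂ) + (v : ℂ) * I) ^ 2 = ((u ^ 2 - v ^ 2 : ℝ) : ℂ) + ((2 * u * v : ℝ) : ℂ) * I := by
    push_cast
    linear_combination ((v : ℂ) ^ 2) * I_sq
  have hre : (((u ^ 2 - v ^ 2 : ℝ) : ℂ) + ((2 * u * v : ℝ) : ℂ) * I).re = u ^ 2 - v ^ 2 := by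
    rw [add_re, ofReal_re, mul_re, ofReal_re, ofReal_im, I_re, I_im]; ring
  have him : (((u ^ 2 - v ^ 2 : ℝ) : ℂ) + ((2 * u * v : ℝ) : ℂ) * I).im = 2 * u * v := by
    rw [add_im, ofReal_im, mul_im, ofReal_re, ofReal_im, I_re, I_im]; ring
  have hyre : ((a : ℂ) + (b : ℂ) * I).re = a := by
    rw [add_re, ofReal_re, mul_re, ofReal_re, ofReal_im, I_re, I_im]; ring
  have hyim : ((a : ℂ) + (b : ℂ) * I).im = b := by
    rw [add_im, ofReal_im, mul_im, ofReal_re, ofReal_im, I_re, I_im]; ring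
  rw [e1, div_re, hre, him, hyre, hyim, ← add_div]
  refine div_nonneg ?_ (normSq_nonneg _)
  have k1 : u ^ 2 - v ^ 2 = Real.sin a ^ 2 - Real.sinh b ^ 2 * (Real.cos a ^ 2 - Real.sin a ^ 2) := by
    rw [hu, hv]
    linear_combination (Real.sin a ^ 2) * hHS
  rw [k1]
  have k2 : 0 ≤ b * (2 * u * v) := by
    rw [hu, hv]
    positivity
  by_cases hc : Real.cos a ^ 2 - Real.sin a ^ 2 ≤ 0
  · have : 0 ≤ Real.sin a ^ 2 - Real.sinh b ^ 2 * (Real.cos a ^ 2 - Real.sin a ^ 2) := by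
      have : Real.sinh b ^ 2 * (Real.cos a ^ 2 - Real.sin a ^ 2) ≤ 0 :=
        mul_nonpos_of_nonneg_of_nonpos (sq_nonneg _) hc
      have := sq_nonneg (Real.sin a)
      linarith
    have := mul_nonneg ha this
    linarith
  · push Not at hc
    have hcos2 : Real.cos (2 * a) = Real.cos a ^ 2 - Real.sin a ^ 2 := by
      rw [Real.cos_two_mul']
    have hsin2 : Real.sin (2 * a) = 2 * Real.sin a * Real.cos a := Real.sin_two_mul a
    have hlt : 2 * a < Real.pi / 2 := by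
      by_contra hcon
      push Not at hcon
      have := Real.cos_nonpos_of_pi_div_two_le_of_le hcon (by linarith)
      linarith
    have ht := Real.le_tan (show 0 ≤ 2 * a by linarith) hlt
    rw [Real.tan_eq_sin_div_cos, le_div_iff₀ (by rw [hcos2]; exact hc), hcos2, hsin2] at ht
    have h1 : a * (Real.cos a ^ 2 - Real.sin a ^ 2) ≤ Real.sin a * Real.cos a := by linarith
    have h2 : a * (Real.sinh b ^ 2 * (Real.cos a ^ 2 - Real.sin a ^ 2)) ≤
        Real.sin a * Real.cos a * Real.sinh b ^ 2 := by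
      have := mul_le_mul_of_nonneg_right h1 (sq_nonneg (Real.sinh b))
      linarith
    have h3 : Real.sin a * Real.cos a * Real.sinh b ^ 2 ≤ b * (2 * u * v) := by
      rw [hu, hv]
      have h4 : Real.sinh b * Real.sinh b ≤ Real.sinh b * (b * Real.cosh b) :=
        mul_le_mul_of_nonneg_left hSb hS
      have h5 : 0 ≤ Real.sinh b * (b * Real.cosh b) := by positivity
      have h6 : 0 ≤ Real.sin a * Real.cos a := mul_nonneg hA hC
      have h7 := mul_le_mul_of_nonneg_left (show Real.sinh b * Real.sinh b ≤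
        2 * (Real.sinh b * (b * Real.cosh b)) by linarith) h6
      linarith
    have h8 : 0 ≤ a * Real.sin a ^ 2 := by positivity
    have h9 : a * (Real.sin a ^ 2 - Real.sinh b ^ 2 * (Real.cos a ^ 2 - Real.sin a ^ 2)) =
        a * Real.sin a ^ 2 - a * (Real.sinh b ^ 2 * (Real.cos a ^ 2 - Real.sin a ^ 2)) := by ring
    rw [h9]
    linarith

private theorem StrB_re (a b : ℝ) : ((a : ℂ) + (b : ℂ) * I).re = a := by
  rw [add_re, ofReal_re, mul_re, ofReal_re, ofReal_im, I_re, I_im]; ring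

private theorem StrB_im (a b : ℝ) : ((a : ℂ) + (b : ℂ) * I).im = b := by
  rw [add_im, ofReal_im, mul_im, ofReal_re, ofReal_im, I_re, I_im]; ring

private theorem StrB_ne {a b : ℝ} (h : 0 < a ∨ 0 < b) : ((a : ℂ) + (b : ℂ) * I) ≠ 0 := by
  intro h0
  have h1 := congrArg re h0
  have h2 := congrArg im h0
  rw [StrB_re, zero_re] at h1
  rw [StrB_im, zero_im] at h2
  rcases h with h | h
  · linarith
  · linarith

private theorem StrB_hd {t b : ℝ} (hs : sin ((t : ℂ) + b * I) ≠ 0) :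
    HasDerivAt (fun t : ℝ => G ((t : ℂ) + b * I))
      (G ((t : ℂ) + b * I) * (((t : ℂ) + b * I) / sin ((t : ℂ) + b * I) ^ 2)) t := by
  have h1 : HasDerivAt (fun z : ℂ => z + b * I) 1 (t : ℂ) := (hasDerivAt_id _).add_const _
  have h2 : HasDerivAt (fun z : ℂ => G (z + b * I))
      (G ((t : ℂ) + b * I) * (((t : ℂ) + b * I) / sin ((t : ℂ) + b * I) ^ 2) * 1) (t : ℂ) :=
    HasDerivAt.comp (t : ℂ) (h₂ := G) (hasDerivAt_G hs) h1
  rw [mul_one] at h2
  exact h2.comp_ofReal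

private theorem StrB_inner (g w : ℂ) : inner ℝ g (g * w) = ‖g‖ ^ 2 * w.re := by
  rw [Complex.inner, mul_right_comm, mul_conj, re_ofReal_mul, normSq_eq_norm_sq]

private theorem StrB_hd2 {t b : ℝ} (hs : sin ((t : ℂ) + b * I) ≠ 0) :
    HasDerivAt (fun t : ℝ => ‖G ((t : ℂ) + b * I)‖ ^ 2)
      (2 * (‖G ((t : ℂ) + b * I)‖ ^ 2 *
        (((t : ℂ) + b * I) / sin ((t : ℂ) + b * I) ^ 2).re)) t := by
  have h1 := (StrB_hd hs).norm_sq
  rw [StrB_inner] at h1
  exact h1

/-- Proof: for `b > 0` (or `a > 0`) the function `t ↦ log ‖G (t + i b)‖` has the derivative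
`Re (y / sin² y) ≥ 0` on `[a, a']` (`hasDerivAt_G`, `re_log_deriv`; `G ≠ 0`). -/
theorem G_mono {a a' b : ℝ} (ha : 0 ≤ a) (haa : a ≤ a') (ha' : a' ≤ Real.pi / 2) (hb : 0 ≤ b)
    (h0 : 0 < a ∨ 0 < b) : ‖G ((a : ℂ) + b * I)‖ ≤ ‖G ((a' : ℂ) + b * I)‖ := by
  have hpi := Real.pi_pos
  have hs : ∀ t ∈ Icc a a', sin ((t : ℂ) + b * I) ≠ 0 := fun t ht => by
    refine sin_ne_strip ?_ (StrB_ne ?_)
    · rw [StrB_re, abs_of_nonneg (ha.trans ht.1)]
      linarith [ht.2]
    · rcases h0 with h | h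
      · exact Or.inl (h.trans_le ht.1)
      · exact Or.inr h
  have hm : MonotoneOn (fun t : ℝ => ‖G ((t : ℂ) + b * I)‖ ^ 2) (Icc a a') := by
    refine monotoneOn_of_deriv_nonneg (convex_Icc a a')
      (fun x hx => (StrB_hd2 (hs x hx)).continuousAt.continuousWithinAt)
      (fun x hx => ?_) fun x hx => ?_
    · exact (StrB_hd2 (hs x (interior_subset hx))).differentiableAt.differentiableWithinAt
    · have hx' := interior_subset hx
      rw [(StrB_hd2 (hs x hx')).deriv]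
      have h1 : 0 ≤ x := ha.trans hx'.1
      have h2 : x ≤ Real.pi / 2 := hx'.2.trans ha'
      have h3 := re_log_deriv h1 h2 hb (by
        rcases h0 with h | h
        · exact Or.inl (ne_of_gt (h.trans_le hx'.1))
        · exact Or.inr (ne_of_gt h))
      exact mul_nonneg zero_le_two (mul_nonneg (sq_nonneg _) h3)
  have h := hm (left_mem_Icc.2 haa) (right_mem_Icc.2 haa) haa
  exact (pow_le_pow_iff_left₀ (norm_nonneg _) (norm_nonneg _) two_ne_zero).1 h

/-- Proof: `sin (π / 2 + i b) = cosh b`, `cos (π / 2 + i b) = - i sinh b`, so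
`Re (y cot y) = Re ((π / 2 + i b)(- i tanh b)) = b tanh b`. -/
theorem G_edge (b : ℝ) :
    ‖G ((Real.pi / 2 : ℝ) + b * I)‖ = Real.cosh b * Real.exp (1 - b * Real.tanh b) := by
  have hH : 0 < Real.cosh b := Real.cosh_pos b
  have h1 : sin (((Real.pi / 2 : ℝ) : ℂ) + b * I) = (Real.cosh b : ℂ) := by
    rw [StrB_sin, Real.sin_pi_div_two, Real.cos_pi_div_two]
    push_cast
    ring
  have h2 : cos (((Real.pi / 2 : ℝ) : ℂ) + b * I) = ((-Real.sinh b : ℝ) : ℂ) * I := by
    rw [cos_add, sin_mul_I, cos_mul_I]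
    push_cast
    rw [cos_pi_div_two, sin_pi_div_two]
    ring
  have h3 : (1 - (((Real.pi / 2 : ℝ) : ℂ) + b * I) * (((-Real.sinh b : ℝ) : ℂ) * I /
      (Real.cosh b : ℂ))) = ((1 - b * Real.tanh b : ℝ) : ℂ) +
      ((Real.pi / 2 * Real.tanh b : ℝ) : ℂ) * I := by
    have hHc : cosh (b : ℂ) ≠ 0 := by
      rw [← ofReal_cosh]
      exact_mod_cast hH.ne'
    rw [Real.tanh_eq_sinh_div_cosh]
    push_cast
    field_simp
    linear_combination (2 * (b : ℂ) * sinh (b : ℂ)) * I_sq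
  rw [G, h1, h2, norm_mul, norm_real, Real.norm_of_nonneg hH.le, norm_exp, h3, StrB_re]

/-- Proof: by evenness `b ≥ 0`. Upper bound: `log (cosh b) ≤ b tanh b` (the derivative of
`b tanh b - log cosh b` is `b / cosh² b ≥ 0`). Lower bound: `cosh b ≥ e^b / 2`, `b tanh b ≤ b`. -/
theorem edge_bounds (b : ℝ) : Real.exp 1 / 2 ≤ Real.cosh b * Real.exp (1 - b * Real.tanh b) ∧
    Real.cosh b * Real.exp (1 - b * Real.tanh b) ≤ Real.exp 1 := by
  have hev : ∀ b : ℝ, 0 ≤ b → Real.exp 1 / 2 ≤ Real.cosh b * Real.exp (1 - b * Real.tanh b) ∧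
      Real.cosh b * Real.exp (1 - b * Real.tanh b) ≤ Real.exp 1 := by
    intro b hb
    have hH : 0 < Real.cosh b := Real.cosh_pos b
    constructor
    · have h1 : Real.exp b / 2 ≤ Real.cosh b := by
        rw [Real.cosh_eq]
        have := Real.exp_pos (-b)
        linarith
      have h2 : b * Real.tanh b ≤ b := by
        have := (Real.tanh_lt_one b).le
        nlinarith
      have h3 : Real.exp (1 - b) ≤ Real.exp (1 - b * Real.tanh b) := Real.exp_le_exp.2 (by linarith)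
      have h4 : Real.exp 1 / 2 = Real.exp b / 2 * Real.exp (1 - b) := by
        have : Real.exp b * Real.exp (1 - b) = Real.exp 1 := by
          rw [← Real.exp_add]; congr 1; ring
        linear_combination (-1 / 2 : ℝ) * this
      rw [h4]
      exact mul_le_mul h1 h3 (Real.exp_pos _).le hH.le
    · have hd : ∀ x : ℝ, HasDerivAt (fun x : ℝ => x * (Real.sinh x / Real.cosh x) -
          Real.log (Real.cosh x)) (1 * (Real.sinh x / Real.cosh x) +
          x * ((Real.cosh x * Real.cosh x - Real.sinh x * Real.sinh x) / Real.cosh x ^ 2) -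
          Real.sinh x / Real.cosh x) x := fun x =>
        ((hasDerivAt_id x).mul ((Real.hasDerivAt_sinh x).div (Real.hasDerivAt_cosh x)
          (Real.cosh_pos x).ne')).sub ((Real.hasDerivAt_cosh x).log (Real.cosh_pos x).ne')
      have hm : MonotoneOn (fun x : ℝ => x * (Real.sinh x / Real.cosh x) -
          Real.log (Real.cosh x)) (Ici 0) := by
        refine monotoneOn_of_deriv_nonneg (convex_Ici 0)
          (fun x _ => (hd x).continuousAt.continuousWithinAt)
          (fun x _ => (hd x).differentiableAt.differentiableWithinAt) fun x hx => ?_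
        rw [interior_Ici] at hx
        rw [(hd x).deriv]
        have h2 : 0 ≤ x := le_of_lt hx
        have h3 : Real.cosh x * Real.cosh x - Real.sinh x * Real.sinh x = 1 := by
          have := Real.cosh_sq_sub_sinh_sq x
          linarith
        rw [h3]
        have : 0 ≤ x * (1 / Real.cosh x ^ 2) := by positivity
        linarith
      have h := hm (mem_Ici.2 le_rfl) (mem_Ici.2 hb) hb
      simp only [zero_mul, Real.cosh_zero, Real.log_one, sub_zero] at h
      rw [← Real.tanh_eq_sinh_div_cosh] at h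
      have h1 : Real.cosh b ≤ Real.exp (b * Real.tanh b) := by
        rw [← Real.log_le_iff_le_exp hH]
        linarith
      calc Real.cosh b * Real.exp (1 - b * Real.tanh b)
          ≤ Real.exp (b * Real.tanh b) * Real.exp (1 - b * Real.tanh b) :=
            mul_le_mul_of_nonneg_right h1 (Real.exp_pos _).le
        _ = Real.exp 1 := by rw [← Real.exp_add]; congr 1; ring
  rcases le_total 0 b with h | h
  · exact hev b h
  · have h1 := hev (-b) (by linarith)
    rw [Real.cosh_neg, Real.tanh_neg, neg_mul_neg] at h1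
    exact h1

private theorem StrB_conj (y : ℂ) : G ((starRingEnd ℂ) y) = (starRingEnd ℂ) (G y) := by
  unfold G
  rw [sin_conj, cos_conj, map_mul, ← exp_conj, map_sub, map_one, map_mul, map_div₀]

private theorem StrB_nconj (y : ℂ) : ‖G ((starRingEnd ℂ) y)‖ = ‖G y‖ := by
  rw [StrB_conj]; exact norm_conj _

private theorem StrB_nneg (y : ℂ) : ‖G (-y)‖ = ‖G y‖ := by
  rw [G_neg, norm_neg]

/-- symmetries. Proof: `G (-y) = - G y` (`G_neg` of WB), `G (conj y) = conj (G y)`. -/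
theorem norm_G_abs (y : ℂ) : ‖G y‖ = ‖G ((|y.re| : ℝ) + (|y.im| : ℝ) * I)‖ := by
  rcases le_total 0 y.re with h1 | h1
  · rcases le_total 0 y.im with h2 | h2
    · rw [abs_of_nonneg h1, abs_of_nonneg h2, re_add_im]
    · rw [abs_of_nonneg h1, abs_of_nonpos h2]
      have : ((y.re : ℂ) + ((-y.im : ℝ) : ℂ) * I) = (starRingEnd ℂ) y := by
        apply Complex.ext
        · rw [StrB_re, conj_re]
        · rw [StrB_im, conj_im]
      rw [this, StrB_nconj]
  · rcases le_total 0 y.im with h2 | h2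
    · rw [abs_of_nonpos h1, abs_of_nonneg h2]
      have : (((-y.re : ℝ) : ℂ) + (y.im : ℂ) * I) = -(starRingEnd ℂ) y := by
        apply Complex.ext
        · rw [StrB_re, neg_re, conj_re]
        · rw [StrB_im, neg_im, conj_im, neg_neg]
      rw [this, StrB_nneg, StrB_nconj]
    · rw [abs_of_nonpos h1, abs_of_nonpos h2]
      have : (((-y.re : ℝ) : ℂ) + ((-y.im : ℝ) : ℂ) * I) = -y := by
        apply Complex.ext
        · rw [StrB_re, neg_re]
        · rw [StrB_im, neg_im]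
      rw [this, StrB_nneg]

private theorem StrB_zero : G 0 = 0 := by
  unfold G
  rw [sin_zero, zero_mul]

private theorem StrB_pos {y : ℂ} (h : y ≠ 0) : 0 < |y.re| ∨ 0 < |y.im| := by
  by_contra hcon
  push Not at hcon
  apply h
  apply Complex.ext
  · have := abs_nonneg y.re
    exact abs_eq_zero.1 (le_antisymm hcon.1 this)
  · have := abs_nonneg y.im
    exact abs_eq_zero.1 (le_antisymm hcon.2 this)

/-- Proof: `norm_G_abs`, `G_mono` with `a' = π / 2`, `G_edge`, `edge_bounds`; `G 0 = 0`. -/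
theorem G_le {y : ℂ} (h : |y.re| ≤ Real.pi / 2) : ‖G y‖ ≤ Real.exp 1 := by
  by_cases hy : y = 0
  · rw [hy, StrB_zero, norm_zero]
    exact (Real.exp_pos 1).le
  · rw [norm_G_abs]
    refine (G_mono (abs_nonneg _) h le_rfl (abs_nonneg _) (StrB_pos hy)).trans ?_
    rw [G_edge]
    exact (edge_bounds _).2

theorem G_edge_ge {y : ℂ} (h : |y.re| = Real.pi / 2) : Real.exp 1 / 2 ≤ ‖G y‖ := by
  rw [norm_G_abs, h, G_edge]
  exact (edge_bounds _).1

/-- Proof (small `y`): for `0 < ‖y‖ ≤ 1`: `‖sin y‖ ≥ ‖y‖ - ‖y‖³ / 4 ≥ (3 / 4) ‖y‖` and `Re (y cot y) ≤ ‖y cot y‖ ≤ 3`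
(`‖cos y‖ ≤ 1 + 3/4`, so `‖y cot y‖ ≤ (7/4) / (3/4) ≤ 3`), so `‖G y‖ ≥ (3/4) e^(-2) ‖y‖ ≥ ‖y‖ / 12`. -/
theorem G_ge_small {y : ℂ} (h : ‖y‖ ≤ 1) : ‖y‖ / 12 ≤ ‖G y‖ := by
  by_cases hy : y = 0
  · rw [hy, StrB_zero, norm_zero, zero_div]
  · have hd : 0 < ‖y‖ := norm_pos_iff.2 hy
    have hs := Complex.sin_bound h
    have hc := Complex.cos_bound h
    have h2 : ‖y‖ ^ 2 ≤ 1 := by nlinarith
    have h3 : ‖y‖ ^ 3 ≤ ‖y‖ := by nlinarith
    have h4 : ‖y‖ ^ 4 ≤ 1 := by
      have : ‖y‖ ^ 4 = ‖y‖ ^ 2 * ‖y‖ ^ 2 := by ring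
      rw [this]
      have := sq_nonneg ‖y‖
      nlinarith
    have h5 : ‖y‖ ^ 5 ≤ ‖y‖ := by
      have : ‖y‖ ^ 5 = ‖y‖ ^ 4 * ‖y‖ := by ring
      rw [this]
      nlinarith
    have e1 : 3 / 4 * ‖y‖ ≤ ‖sin y‖ := by
      have t0 : y = (-(sin y - (y - y ^ 3 / 6)) + y ^ 3 / 6) + sin y := by ring
      have t1 : ‖y‖ ≤ ‖-(sin y - (y - y ^ 3 / 6)) + y ^ 3 / 6‖ + ‖sin y‖ := by
        nth_rewrite 1 [t0]
        exact norm_add_le _ _
      have t2 := norm_add_le (-(sin y - (y - y ^ 3 / 6))) (y ^ 3 / 6)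
      rw [norm_neg] at t2
      have q : ‖y ^ 3 / 6‖ = ‖y‖ ^ 3 / 6 := by
        rw [norm_div, norm_pow]; norm_num
      rw [q] at t2
      linarith
    have e2 : ‖cos y‖ ≤ 7 / 4 := by
      have t0 : cos y = (cos y - (1 - y ^ 2 / 2)) + (1 - y ^ 2 / 2) := by ring
      have t1 : ‖cos y‖ ≤ ‖cos y - (1 - y ^ 2 / 2)‖ + ‖1 - y ^ 2 / 2‖ := by
        nth_rewrite 1 [t0]
        exact norm_add_le _ _
      have t2 := norm_sub_le 1 (y ^ 2 / 2)
      have q : ‖y ^ 2 / 2‖ = ‖y‖ ^ 2 / 2 := by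
        rw [norm_div, norm_pow]; norm_num
      rw [q, norm_one] at t2
      linarith
    have hsp : 0 < ‖sin y‖ := by linarith
    have e3 : ‖y * (cos y / sin y)‖ ≤ 3 := by
      rw [norm_mul, norm_div, ← mul_div_assoc, div_le_iff₀ hsp]
      have : ‖y‖ * ‖cos y‖ ≤ ‖y‖ * (7 / 4) := mul_le_mul_of_nonneg_left e2 hd.le
      linarith
    have e4 : -2 ≤ (1 - y * (cos y / sin y)).re := by
      rw [sub_re, one_re]
      have := re_le_norm (y * (cos y / sin y))
      linarith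
    have e5 : 1 / 9 ≤ Real.exp (-2) := by
      rw [Real.exp_neg, ← one_div]
      refine one_div_le_one_div_of_le (Real.exp_pos _) ?_
      have h6 : Real.exp 2 = Real.exp 1 * Real.exp 1 := by
        rw [← Real.exp_add]; norm_num
      have h7 := Real.exp_one_lt_d9
      have h8 := Real.exp_pos 1
      rw [h6]
      nlinarith
    have e6 : 1 / 9 ≤ Real.exp (1 - y * (cos y / sin y)).re := e5.trans (Real.exp_le_exp.2 e4)
    rw [G, norm_mul, norm_exp]
    have e7 : 3 / 4 * ‖y‖ * (1 / 9) ≤ ‖sin y‖ * Real.exp (1 - y * (cos y / sin y)).re :=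
      mul_le_mul e1 e6 (by norm_num) hsp.le
    linarith

private theorem StrB_G_I {b : ℝ} (hb : 1 ≤ b) : 1 / 3 ≤ ‖G (((0 : ℝ) : ℂ) + b * I)‖ := by
  have hb0 : 0 < b := by linarith
  have hS : 0 < Real.sinh b := Real.sinh_pos_iff.2 hb0
  have h1 : sin (((0 : ℝ) : ℂ) + b * I) = ((Real.sinh b : ℝ) : ℂ) * I := by
    rw [StrB_sin, Real.sin_zero, Real.cos_zero]
    push_cast
    ring
  have h2 : cos (((0 : ℝ) : ℂ) + b * I) = ((Real.cosh b : ℝ) : ℂ) := by
    rw [ofReal_zero, zero_add, cos_mul_I]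
    push_cast
    ring
  have h3 : (1 - (((0 : ℝ) : ℂ) + b * I) * (((Real.cosh b : ℝ) : ℂ) /
      (((Real.sinh b : ℝ) : ℂ) * I))) = ((1 - b * Real.cosh b / Real.sinh b : ℝ) : ℂ) := by
    have hSc : (Real.sinh b : ℂ) ≠ 0 := by exact_mod_cast hS.ne'
    have hI := I_ne_zero
    rw [ofReal_zero, zero_add]
    push_cast
    rw [ofReal_sinh] at hSc
    field_simp
  have h4 : ‖sin (((0 : ℝ) : ℂ) + b * I)‖ = Real.sinh b := by
    rw [h1, norm_mul, norm_real, norm_I, mul_one, Real.norm_of_nonneg hS.le]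
  rw [G, norm_mul, norm_exp, h4, h1, h2, h3, ofReal_re]
  have h5 : b * Real.cosh b / Real.sinh b ≤ b + 1 := by
    rw [div_le_iff₀ hS]
    have h6 : Real.cosh b - Real.sinh b = Real.exp (-b) := Real.cosh_sub_sinh b
    have h7 : Real.exp (-b) ≤ 1 := Real.exp_le_one_iff.2 (by linarith)
    have h8 : b ≤ Real.sinh b := Real.self_le_sinh_iff.2 hb0.le
    nlinarith
  have h9 : Real.exp (-b) ≤ Real.exp (1 - b * Real.cosh b / Real.sinh b) :=
    Real.exp_le_exp.2 (by linarith)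
  have h10 : Real.exp b / 3 ≤ Real.sinh b := by
    rw [Real.sinh_eq]
    have h11 : Real.exp (-b) ≤ Real.exp b / 3 := by
      have h12 : Real.exp b = Real.exp (2 * b) * Real.exp (-b) := by
        rw [← Real.exp_add]; congr 1; ring
      have h13 : 3 ≤ Real.exp (2 * b) := by
        have := Real.add_one_le_exp (2 * b)
        linarith
      rw [h12]
      have := Real.exp_pos (-b)
      nlinarith
    linarith
  have h14 : Real.exp b / 3 * Real.exp (-b) = 1 / 3 := by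
    have : Real.exp b * Real.exp (-b) = 1 := by
      rw [← Real.exp_add]; simp
    linear_combination (1 / 3 : ℝ) * this
  rw [← h14]
  exact mul_le_mul h10 h9 (Real.exp_pos _).le hS.le

/-- Proof: `norm_G_abs`: let `y = a + i b`, `a, b ≥ 0`, `a ≤ π / 2`. `‖y‖ ≤ 1`: `G_ge_small`. `‖y‖ > 1`, `b ≤ 1 / 2`:
`a > 4/5`, `‖G y‖ ≥ ‖G (4/5 + i b)‖ ≥ (4/5) / 12` (`G_mono`, `G_ge_small`). `b > 1/2`: `‖G y‖ ≥ ‖G (i b)‖ =
sinh b exp (1 - b coth b)` (`G_mono`) and this is `≥ 1 / 24`: for `b ≤ 1` by `G_ge_small`; for `b ≥ 1`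
`sinh b ≥ e^b / 3` (`e^(-2b) ≤ 1/3`), `b coth b = b + 2 b / (e^(2b) - 1) ≤ b + 1` (`e^(2b) ≥ 1 + 2b`), so it is
`≥ 1 / 3`. -/
theorem G_ge {y : ℂ} (h : |y.re| ≤ Real.pi / 2) : min 1 ‖y‖ / 24 ≤ ‖G y‖ := by
  rcases le_or_gt ‖y‖ 1 with h1 | h1
  · have h2 := G_ge_small h1
    have h3 := min_le_right (1 : ℝ) ‖y‖
    have h4 := norm_nonneg y
    linarith
  · have h3 := min_le_left (1 : ℝ) ‖y‖
    suffices hh : 1 / 24 ≤ ‖G y‖ by linarith
    rw [norm_G_abs]
    have hsq : |y.re| ^ 2 + |y.im| ^ 2 = ‖y‖ ^ 2 := by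
      rw [sq_abs, sq_abs, ← normSq_eq_norm_sq, normSq_apply]; ring
    set a := |y.re| with ha
    set b := |y.im| with hb
    have ha0 : 0 ≤ a := abs_nonneg _
    have hb0 : 0 ≤ b := abs_nonneg _
    have hsq1 : 1 < a ^ 2 + b ^ 2 := by
      rw [hsq]; nlinarith
    have hnorm : ∀ c : ℝ, ‖((c : ℂ) + (b : ℂ) * I)‖ ^ 2 = c ^ 2 + b ^ 2 := fun c => by
      rw [← normSq_eq_norm_sq, normSq_apply, StrB_re, StrB_im]; ring
    rcases le_or_gt b (1 / 2) with h5 | h5
    · have h6 : 4 / 5 ≤ a := by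
        by_contra hcon
        push Not at hcon
        nlinarith
      have h7 := G_mono (a := 4 / 5) (a' := a) (b := b) (by norm_num) h6 h hb0
        (Or.inl (by norm_num))
      have h8 := hnorm (4 / 5)
      have h9 : ‖(((4 / 5 : ℝ) : ℂ) + (b : ℂ) * I)‖ ≤ 1 := by
        have := norm_nonneg (((4 / 5 : ℝ) : ℂ) + (b : ℂ) * I)
        nlinarith
      have h10 := G_ge_small h9
      have h11 : 4 / 5 ≤ ‖(((4 / 5 : ℝ) : ℂ) + (b : ℂ) * I)‖ := by
        have := re_le_norm (((4 / 5 : ℝ) : ℂ) + (b : ℂ) * I)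
        rw [StrB_re] at this
        exact this
      linarith
    · have h7 := G_mono (a := 0) (a' := a) (b := b) le_rfl ha0 h hb0 (Or.inr (by linarith))
      rcases le_or_gt b 1 with h8 | h8
      · have h9 := hnorm 0
        have h10 : ‖(((0 : ℝ) : ℂ) + (b : ℂ) * I)‖ ≤ 1 := by
          have := norm_nonneg (((0 : ℝ) : ℂ) + (b : ℂ) * I)
          nlinarith
        have h11 := G_ge_small h10
        have h12 : b ≤ ‖(((0 : ℝ) : ℂ) + (b : ℂ) * I)‖ := by
          have := im_le_norm (((0 : ℝ) : ℂ) + (b : ℂ) * I)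
          rw [StrB_im] at this
          exact this
        linarith
      · have h9 := StrB_G_I h8.le
        linarith

end Pool.Agent.MP_ae5b4e_an_TI
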