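import Pool.Agent.Lib.MP_ae5b4e_an_TI.StrB

/-!
# POR (iii), N2, TYPE I, trap (E3): the sign of `Im (y / sin² y - 1 / y)`
-/

set_option autoImplicit false

noncomputable section

namespace Pool.Agent.MP_ae5b4e_an_TI

open Complex Set Filter Topology Metric
open Pool.Agent.MP_ae5b4e_an_WB

/-- the logarithmic derivative of `G y / y` (value `0` at `0`) -/
def hl (y : ℂ) : ℂ := if y = 0 then 0 else y / sin y ^ 2 - 1 / y

private def StrC_g : ℂ → ℂ := dslope sin 0

private theorem StrC_g_diff : Differentiable ℂ StrC_g := by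
  have h1 : DifferentiableOn ℂ (dslope sin 0) univ :=
    (Complex.differentiableOn_dslope univ_mem).2 Complex.differentiable_sin.differentiableOn
  exact differentiableOn_univ.1 h1

private theorem StrC_g_mul (y : ℂ) : y * StrC_g y = sin y := by
  have h := sub_smul_dslope (sin : ℂ → ℂ) 0 y
  rw [sub_zero, smul_eq_mul, Complex.sin_zero, sub_zero] at h
  exact h

private theorem StrC_g_zero : StrC_g 0 = 1 := by
  have h : StrC_g 0 = deriv sin 0 := dslope_same _ _
  rw [h, (Complex.hasDerivAt_sin 0).deriv, Complex.cos_zero]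

private theorem StrC_g_ne {y : ℂ} (h : |y.re| < Real.pi) : StrC_g y ≠ 0 := by
  by_cases h0 : y = 0
  · rw [h0, StrC_g_zero]
    exact one_ne_zero
  · intro h1
    apply sin_ne_strip h h0
    rw [← StrC_g_mul y, h1, mul_zero]

private theorem StrC_g_neg (y : ℂ) : StrC_g (-y) = StrC_g y := by
  by_cases h0 : y = 0
  · rw [h0, neg_zero]
  · have h1 := StrC_g_mul (-y)
    rw [Complex.sin_neg, ← StrC_g_mul y] at h1
    have h2 : y * (StrC_g (-y) - StrC_g y) = 0 := by linear_combination -h1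
    rcases mul_eq_zero.1 h2 with h3 | h3
    · exact absurd h3 h0
    · exact sub_eq_zero.1 h3

private def StrC_k : ℂ → ℂ := dslope (fun y => StrC_g y ^ 2) 0

private theorem StrC_k_diff : Differentiable ℂ StrC_k := by
  have h1 : DifferentiableOn ℂ (dslope (fun y => StrC_g y ^ 2) 0) univ :=
    (Complex.differentiableOn_dslope univ_mem).2 (StrC_g_diff.pow 2).differentiableOn
  exact differentiableOn_univ.1 h1

private theorem StrC_k_mul (y : ℂ) : y * StrC_k y = StrC_g y ^ 2 - 1 := by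
  have h := sub_smul_dslope (fun y => StrC_g y ^ 2) 0 y
  rw [sub_zero, smul_eq_mul, StrC_g_zero, one_pow] at h
  exact h

private theorem StrC_k_zero : StrC_k 0 = 0 := by
  have h : StrC_k 0 = deriv (fun y => StrC_g y ^ 2) 0 := dslope_same _ _
  have h1 : deriv (fun y => StrC_g (-y) ^ 2) 0 = - deriv (fun y => StrC_g y ^ 2) (-0) :=
    deriv_comp_neg (fun y => StrC_g y ^ 2) 0
  have h2 : (fun y => StrC_g (-y) ^ 2) = fun y => StrC_g y ^ 2 := by
    funext y
    rw [StrC_g_neg]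
  rw [h2, neg_zero, ← h] at h1
  have h3 : (2 : ℂ) * StrC_k 0 = 0 := by linear_combination h1
  exact (mul_eq_zero.1 h3).resolve_left two_ne_zero

private theorem StrC_hl {y : ℂ} (h : |y.re| < Real.pi) : hl y = - (StrC_k y / StrC_g y ^ 2) := by
  by_cases h0 : y = 0
  · rw [h0, hl, if_pos rfl, StrC_k_zero, zero_div, neg_zero]
  · have hg := StrC_g_ne h
    have h1 := StrC_k_mul y
    rw [hl, if_neg h0, ← StrC_g_mul y]
    have h2 : StrC_k y = (StrC_g y ^ 2 - 1) / y := by
      rw [← h1]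
      field_simp
    rw [h2]
    field_simp
    ring

private theorem StrC_sin (a b : ℝ) : sin ((a : ℂ) + b * I) =
    (Real.sin a * Real.cosh b : ℝ) + (Real.cos a * Real.sinh b : ℝ) * I := by
  rw [Complex.sin_add_mul_I]
  push_cast
  ring

private theorem StrC_norm_sin (a b : ℝ) : ‖sin ((a : ℂ) + b * I)‖ ^ 2 =
    Real.sin a ^ 2 + Real.sinh b ^ 2 := by
  rw [StrC_sin, ← Complex.normSq_eq_norm_sq, Complex.normSq_add_mul_I]
  have h1 := Real.cosh_sq b
  have h2 := Real.sin_sq_add_cos_sq a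
  linear_combination (Real.sin a ^ 2) * h1 + (Real.sinh b ^ 2) * h2

/-- Proof: for `y ≠ 0` clear. At `0`: `(y² - sin² y) / (y sin² y)`, numerator `O(y⁴)`: removable singularity, or:
`hl` is continuous at `0` (`‖y² - sin² y‖ ≤ C ‖y‖⁴`, `‖sin y‖ ≥ (3/4) ‖y‖`, so `‖hl y‖ ≤ C ‖y‖`) and
`Complex.analyticAt_of_differentiable_on_punctured_nhds_of_continuousAt`. -/
theorem hl_diff {y : ℂ} (h : |y.re| < Real.pi) : DifferentiableAt ℂ hl y := by
  have h1 : ∀ᶠ z in 𝓝 y, |z.re| < Real.pi :=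
    (continuous_abs.comp Complex.continuous_re).continuousAt.eventually_lt continuousAt_const h
  have h2 : hl =ᶠ[𝓝 y] fun z => - (StrC_k z / StrC_g z ^ 2) := by
    filter_upwards [h1] with z hz
    exact StrC_hl hz
  refine DifferentiableAt.congr_of_eventuallyEq ?_ h2
  exact ((StrC_k_diff y).div ((StrC_g_diff y).pow 2) (pow_ne_zero 2 (StrC_g_ne h))).neg

/-- Proof: `‖sin y‖² = sin² a + sinh² b ≥ sinh² b`, `‖y‖ ≥ b`. -/
theorem hl_top {a b : ℝ} (ha : 0 ≤ a) (ha' : a ≤ Real.pi / 2) (hb : 0 < b) :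
    ‖hl ((a : ℂ) + b * I)‖ ≤ (2 + b) / Real.sinh b ^ 2 + 1 / b := by
  have him : ((a : ℂ) + b * I).im = b := by simp
  have h0 : (a : ℂ) + b * I ≠ 0 := by
    intro h
    rw [h] at him
    exact hb.ne' (him.symm.trans Complex.zero_im)
  have hs : 0 < Real.sinh b := Real.sinh_pos_iff.2 hb
  have h1 : ‖(a : ℂ) + b * I‖ ≤ 2 + b := by
    refine (norm_add_le _ _).trans ?_
    rw [norm_mul, Complex.norm_I, mul_one, Complex.norm_real, Complex.norm_real,
      Real.norm_of_nonneg ha, Real.norm_of_nonneg hb.le]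
    linarith [Real.pi_le_four]
  have h2 : b ≤ ‖(a : ℂ) + b * I‖ := by
    have h3 := Complex.abs_im_le_norm ((a : ℂ) + b * I)
    rw [him, abs_of_pos hb] at h3
    exact h3
  have h3 : Real.sinh b ^ 2 ≤ ‖sin ((a : ℂ) + b * I)‖ ^ 2 := by
    rw [StrC_norm_sin]
    linarith [sq_nonneg (Real.sin a)]
  rw [hl, if_neg h0]
  refine (norm_sub_le _ _).trans (add_le_add ?_ ?_)
  · rw [norm_div, norm_pow]
    exact div_le_div₀ (by linarith) h1 (pow_pos hs 2) h3
  · rw [norm_div, norm_one]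
    exact one_div_le_one_div_of_le hb h2

/-- Proof: `hl` is real on the reals. -/
theorem hl_real (a : ℝ) : (hl (a : ℂ)).im = 0 := by
  by_cases h0 : (a : ℂ) = 0
  · rw [h0, hl, if_pos rfl, Complex.zero_im]
  · rw [hl, if_neg h0, ← Complex.ofReal_sin]
    have h1 : (a : ℂ) / (Real.sin a : ℂ) ^ 2 - 1 / (a : ℂ) =
        ((a / Real.sin a ^ 2 - 1 / a : ℝ) : ℂ) := by push_cast; ring
    rw [h1, Complex.ofReal_im]

/-- Proof: `y = i b`: `y / sin² y = - i b / sinh² b`, `1 / y = - i / b`; `Im = 1 / b - b / sinh² b ≥ 0` as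
`sinh b ≥ b`; the real part is `0`. -/
theorem hl_imag {b : ℝ} (hb : 0 < b) : (hl (b * I)).re = 0 ∧ 0 ≤ (hl (b * I)).im := by
  have hs : 0 < Real.sinh b := Real.sinh_pos_iff.2 hb
  have h0 : (b : ℂ) * I ≠ 0 := mul_ne_zero (Complex.ofReal_ne_zero.2 hb.ne') Complex.I_ne_zero
  have h1 : hl (b * I) = ((1 / b - b / Real.sinh b ^ 2 : ℝ) : ℂ) * I := by
    rw [hl, if_neg h0, Complex.sin_mul_I, ← Complex.ofReal_sinh]
    have hbc : (b : ℂ) ≠ 0 := Complex.ofReal_ne_zero.2 hb.ne'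
    have hsc : (Real.sinh b : ℂ) ≠ 0 := Complex.ofReal_ne_zero.2 hs.ne'
    push_cast
    have hI : I ^ 2 = -1 := Complex.I_sq
    have hI0 : I ≠ 0 := Complex.I_ne_zero
    rw [mul_pow, hI]
    have h2 : 1 / ((b : ℂ) * I) = - (1 / (b : ℂ)) * I := by
      rw [div_eq_iff h0]
      have h3 : - (1 / (b : ℂ)) * I * ((b : ℂ) * I) = - (1 / (b : ℂ) * b) * I ^ 2 := by ring
      rw [h3, hI, one_div, inv_mul_cancel₀ hbc]
      ring
    rw [h2]
    ring
  rw [h1]
  refine ⟨by rw [Complex.re_ofReal_mul, Complex.I_re, mul_zero], ?_⟩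
  rw [Complex.im_ofReal_mul, Complex.I_im, mul_one, sub_nonneg, div_le_div_iff₀ (pow_pos hs 2) hb]
  have h3 : b ≤ Real.sinh b := Real.self_le_sinh_iff.2 hb.le
  nlinarith

/-- Proof: `sin (π / 2 + i b) = cosh b` is real: `Im = b / cosh² b + b / ‖y‖² ≥ 0`;
`Re = (π / 2) / cosh² b - (π / 2) / ‖y‖²`. -/
theorem hl_edge {b : ℝ} (hb : 0 ≤ b) : 0 ≤ (hl ((Real.pi / 2 : ℝ) + b * I)).im ∧
    (hl ((Real.pi / 2 : ℝ) + b * I)).re =
      Real.pi / 2 / Real.cosh b ^ 2 - Real.pi / 2 / ((Real.pi / 2) ^ 2 + b ^ 2) := by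
  have hpi : 0 < Real.pi / 2 := by linarith [Real.pi_pos]
  have h0 : ((Real.pi / 2 : ℝ) : ℂ) + b * I ≠ 0 := by
    intro h
    have h1 := congrArg Complex.re h
    have h2 : (((Real.pi / 2 : ℝ) : ℂ) + b * I).re = Real.pi / 2 := by simp
    rw [h2, Complex.zero_re] at h1
    exact hpi.ne' h1
  have hc : 0 < Real.cosh b := Real.cosh_pos b
  have hn : 0 < (Real.pi / 2) ^ 2 + b ^ 2 := by positivity
  have hs : sin (((Real.pi / 2 : ℝ) : ℂ) + b * I) = (Real.cosh b : ℂ) := by
    rw [StrC_sin, Real.sin_pi_div_two, Real.cos_pi_div_two]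
    push_cast
    ring
  have h1 : hl (((Real.pi / 2 : ℝ) : ℂ) + b * I) =
      ((Real.pi / 2 / Real.cosh b ^ 2 - Real.pi / 2 / ((Real.pi / 2) ^ 2 + b ^ 2) : ℝ) : ℂ) +
      ((b / Real.cosh b ^ 2 + b / ((Real.pi / 2) ^ 2 + b ^ 2) : ℝ) : ℂ) * I := by
    rw [hl, if_neg h0, hs]
    have h2 : 1 / (((Real.pi / 2 : ℝ) : ℂ) + b * I) =
        (((Real.pi / 2 : ℝ) : ℂ) - b * I) / (((Real.pi / 2) ^ 2 + b ^ 2 : ℝ) : ℂ) := by
      rw [div_eq_div_iff h0 (Complex.ofReal_ne_zero.2 hn.ne')]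
      push_cast
      have hI : I ^ 2 = -1 := Complex.I_sq
      linear_combination (b : ℂ) ^ 2 * hI
    rw [h2]
    push_cast
    ring
  rw [h1]
  generalize hA : Real.pi / 2 / Real.cosh b ^ 2 - Real.pi / 2 / ((Real.pi / 2) ^ 2 + b ^ 2) = A
  have hB : 0 ≤ b / Real.cosh b ^ 2 + b / ((Real.pi / 2) ^ 2 + b ^ 2) := by positivity
  generalize b / Real.cosh b ^ 2 + b / ((Real.pi / 2) ^ 2 + b ^ 2) = B at hB
  refine ⟨?_, ?_⟩
  · have h3 : ((A : ℂ) + (B : ℂ) * I).im = B := by simp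
    rw [h3]
    exact hB
  · simp

/-- Proof: let `0 < a < π / 2`, `0 < b < B`. Maximum principle for `exp (I hl y)` (modulus `exp (- Im hl)`) on the
rectangle `(0, π / 2) × (0, B)` (`Complex.norm_le_of_forall_mem_frontier_norm_le`): on the lower side `1`
(`hl_real`), on the left and right sides `≤ 1` (`hl_imag`, `hl_edge`), on the upper side `≤ exp (ε B)`,
`ε B := (2 + B) / sinh² B + 1 / B` (`hl_top`) `→ 0`. So `- Im hl y ≤ ε B` for all `B > b`. -/
theorem hl_im_nonneg {a b : ℝ} (ha : 0 ≤ a) (ha' : a ≤ Real.pi / 2) (hb : 0 ≤ b) :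
    0 ≤ (hl ((a : ℂ) + b * I)).im := by
  by_contra hneg
  rw [not_le] at hneg
  have hpi : 0 < Real.pi / 2 := by linarith [Real.pi_pos]
  -- the bound on rectangles
  have key : ∀ B : ℝ, 0 < B → b ≤ B →
      - (hl ((a : ℂ) + b * I)).im ≤ (2 + B) / Real.sinh B ^ 2 + 1 / B := by
    intro B hB hbB
    have hE : 0 ≤ (2 + B) / Real.sinh B ^ 2 + 1 / B := by positivity
    have hU : Bornology.IsBounded (Ioo (0 : ℝ) (Real.pi / 2) ×ℂ Ioo (0 : ℝ) B) :=
      (Metric.isBounded_Ioo _ _).reProdIm (Metric.isBounded_Ioo _ _)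
    have hcl : closure (Ioo (0 : ℝ) (Real.pi / 2) ×ℂ Ioo (0 : ℝ) B) =
        Icc (0 : ℝ) (Real.pi / 2) ×ℂ Icc (0 : ℝ) B := by
      rw [Complex.closure_reProdIm, closure_Ioo hpi.ne, closure_Ioo hB.ne]
    have hd : DiffContOnCl ℂ (fun y => Complex.exp (I * hl y))
        (Ioo (0 : ℝ) (Real.pi / 2) ×ℂ Ioo (0 : ℝ) B) := by
      refine DifferentiableOn.diffContOnCl ?_
      rw [hcl]
      intro z hz
      have hz1 : z.re ∈ Icc (0 : ℝ) (Real.pi / 2) := hz.1
      have hz2 : |z.re| < Real.pi := by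
        rw [abs_of_nonneg hz1.1]
        linarith [hz1.2, Real.pi_pos]
      exact ((differentiableAt_const I).mul (hl_diff hz2)).cexp.differentiableWithinAt
    have hnorm : ∀ y, ‖Complex.exp (I * hl y)‖ = Real.exp (- (hl y).im) := by
      intro y
      rw [Complex.norm_exp]
      congr 1
      simp
    have hC : ∀ z ∈ frontier (Ioo (0 : ℝ) (Real.pi / 2) ×ℂ Ioo (0 : ℝ) B),
        ‖Complex.exp (I * hl z)‖ ≤ Real.exp ((2 + B) / Real.sinh B ^ 2 + 1 / B) := by
      intro z hz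
      rw [hnorm]
      apply Real.exp_le_exp.2
      have hz' : z = (z.re : ℂ) + z.im * I := (Complex.re_add_im z).symm
      rw [Complex.frontier_reProdIm, closure_Ioo hpi.ne, closure_Ioo hB.ne, frontier_Ioo hpi,
        frontier_Ioo hB] at hz
      rcases hz with hz | hz
      · have hz1 : z.re ∈ Icc (0 : ℝ) (Real.pi / 2) := hz.1
        have hz2 : z.im ∈ ({0, B} : Set ℝ) := hz.2
        rcases hz2 with hz2 | hz2
        · have h1 : (hl z).im = 0 := by
            rw [hz', hz2]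
            have h2 := hl_real z.re
            rw [Complex.ofReal_zero, zero_mul, add_zero]
            exact h2
          rw [h1, neg_zero]
          exact hE
        · have h1 := hl_top hz1.1 hz1.2 hB
          have h2 : z = (z.re : ℂ) + B * I := by
            rw [← (hz2 : z.im = B)]
            exact hz'
          rw [← h2] at h1
          exact ((neg_le_abs _).trans (Complex.abs_im_le_norm _)).trans h1
      · have hz1 : z.re ∈ ({0, Real.pi / 2} : Set ℝ) := hz.1
        have hz2 : z.im ∈ Icc (0 : ℝ) B := hz.2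
        refine le_trans ?_ hE
        rw [neg_nonpos]
        rcases hz1 with hz1 | hz1
        · rcases hz2.1.eq_or_lt with h3 | h3
          · have h4 : z = ((0 : ℝ) : ℂ) := by
              rw [hz', hz1, ← h3]
              simp
            rw [h4, hl_real]
          · have h4 : z = (z.im : ℂ) * I := by
              conv_lhs => rw [hz', hz1, Complex.ofReal_zero, zero_add]
            rw [h4]
            exact (hl_imag h3).2
        · have h4 : z = ((Real.pi / 2 : ℝ) : ℂ) + (z.im : ℂ) * I := by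
            conv_lhs => rw [hz', (hz1 : z.re = Real.pi / 2)]
          rw [h4]
          exact (hl_edge hz2.1).1
    have hmem : (a : ℂ) + b * I ∈ closure (Ioo (0 : ℝ) (Real.pi / 2) ×ℂ Ioo (0 : ℝ) B) := by
      rw [hcl]
      have h1 : ((a : ℂ) + b * I).re = a := by simp
      have h2 : ((a : ℂ) + b * I).im = b := by simp
      refine ⟨?_, ?_⟩
      · change ((a : ℂ) + b * I).re ∈ Icc (0 : ℝ) (Real.pi / 2)
        rw [h1]
        exact ⟨ha, ha'⟩
      · change ((a : ℂ) + b * I).im ∈ Icc (0 : ℝ) B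
        rw [h2]
        exact ⟨hb, hbB⟩
    have hmax := Complex.norm_le_of_forall_mem_frontier_norm_le hU hd hC hmem
    rw [hnorm] at hmax
    exact Real.exp_le_exp.1 hmax
  -- let `B` tend to infinity
  generalize hm : (hl ((a : ℂ) + b * I)).im = m at hneg key
  have h1 : 0 < 4 / (-m) := by
    have : 0 < -m := by linarith
    positivity
  have hB0 : 0 < b + 1 + 4 / (-m) := by linarith
  have h2 := key (b + 1 + 4 / (-m)) hB0 (by linarith)
  set B := b + 1 + 4 / (-m) with hBdef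
  have hB1 : 1 ≤ B := by linarith
  have h3 : B ≤ Real.sinh B := Real.self_le_sinh_iff.2 hB0.le
  have h4 : (2 + B) / Real.sinh B ^ 2 ≤ 3 / B := by
    rw [div_le_div_iff₀ (pow_pos (hB0.trans_le h3) 2) hB0]
    have h5 : B ^ 2 ≤ Real.sinh B ^ 2 := pow_le_pow_left₀ hB0.le h3 2
    nlinarith
  have h5 : -m ≤ 4 / B := by
    have h6 : 3 / B + 1 / B = 4 / B := by ring
    linarith
  have hm0 : 0 < -m := by linarith
  rw [le_div_iff₀ hB0] at h5
  have h6 : -m * B = -m * (b + 1) + 4 := by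
    rw [hBdef, mul_add, mul_div_cancel₀ _ hm0.ne']
  nlinarith

end Pool.Agent.MP_ae5b4e_an_TI
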