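import Pool.Agent.Lib.MP_ae5b4e_an_TI.StrA
import Pool.Agent.Lib.MP_ae5b4e_an_TI.StrC

/-!
# POR (iii), N2, TYPE I, trap (E3): the argument of `Pz` on the strip
-/

set_option autoImplicit false

noncomputable section

namespace Pool.Agent.MP_ae5b4e_an_TI

open Complex Set Filter Topology Metric
open Pool.Agent.MP_ae5b4e_an_WB
open Pool.Agent.MP_ae5b4e_an_M (S1 C1f Gf)
open scoped ComplexConjugate

/-- Proof: the strip `U := {y | |Re y| < π}` is convex and open, `hl` is holomorphic on `U` (`hl_diff`), so it has a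
primitive `H` on `U` with `H 0 = 0` (primitive on a convex set, e.g. `Complex.IsExactOn` / the lemma on
primitives on convex sets in Pool.Agent.Lib.MP_ae5b4e_an_N4.HNb, or `H y := y ∫₀¹ hl (t y) dt`). The function
`Pz (y²) exp (- H y)` has derivative `0` on `U`: for `y ≠ 0` `Pz (y²) = G y / y` near `y` (`Pz_sq`), whose
logarithmic derivative is `y / sin² y - 1 / y` (`hasDerivAt_G`); at `0` by continuity. Value `1` at `0`
(`Pz_zero`). -/
theorem exists_H : ∃ H : ℂ → ℂ, H 0 = 0 ∧ (∀ y : ℂ, |y.re| < Real.pi → HasDerivAt H (hl y) y) ∧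
    ∀ y : ℂ, |y.re| < Real.pi → Pz (y ^ 2) = exp (H y) := by
  have hUo : IsOpen {y : ℂ | |y.re| < Real.pi} :=
    isOpen_lt (continuous_abs.comp Complex.continuous_re) continuous_const
  have hUc : Convex ℝ {y : ℂ | |y.re| < Real.pi} := by
    have h1 : {y : ℂ | |y.re| < Real.pi} = Complex.reLm ⁻¹' (Ioo (-Real.pi) Real.pi) := by
      ext y
      show |y.re| < Real.pi ↔ -Real.pi < y.re ∧ y.re < Real.pi
      exact abs_lt
    rw [h1]
    exact (convex_Ioo _ _).linear_preimage Complex.reLm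
  have hhl : DifferentiableOn ℂ hl {y : ℂ | |y.re| < Real.pi} := fun y hy =>
    (hl_diff hy).differentiableWithinAt
  obtain ⟨P, hP⟩ := hUc.exists_forall_hasDerivWithinAt hhl
  have hH : ∀ y : ℂ, |y.re| < Real.pi → HasDerivAt (fun w => P w - P 0) (hl y) y := fun y hy =>
    ((hP y hy).hasDerivAt (hUo.mem_nhds hy)).sub_const (P 0)
  refine ⟨fun w => P w - P 0, sub_self _, hH, ?_⟩
  generalize hHd : (fun w => P w - P 0) = H at hH
  have hH0 : H 0 = 0 := by
    rw [← hHd]
    exact sub_self _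
  have hF : DifferentiableOn ℂ (fun y => Pz (y ^ 2) * cexp (-H y)) {y : ℂ | |y.re| < Real.pi} := by
    intro y hy
    have h1 : DifferentiableAt ℂ (fun y : ℂ => Pz (y ^ 2)) y :=
      DifferentiableAt.comp y (Pz_diff (S1_ne (by rw [sre_sq]; exact hy)))
        (differentiableAt_id.pow 2)
    exact (h1.mul (hH y hy).differentiableAt.neg.cexp).differentiableWithinAt
  have hd0 : ∀ y ∈ {y : ℂ | |y.re| < Real.pi}, y ≠ 0 →
      deriv (fun y => Pz (y ^ 2) * cexp (-H y)) y = 0 := by
    intro y hy hy0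
    have hs : sin y ≠ 0 := sin_ne_strip hy hy0
    have hev : (fun y => Pz (y ^ 2) * cexp (-H y)) =ᶠ[𝓝 y] fun y => G y / y * cexp (-H y) := by
      filter_upwards [isOpen_sin_ne_zero.mem_nhds hs] with z hz
      rw [Pz_sq hz]
    rw [hev.deriv_eq]
    have h2 := ((hasDerivAt_G hs).div (hasDerivAt_id y) hy0).mul (hH y hy).neg.cexp
    have h3 := h2.deriv
    refine Eq.trans h3 ?_
    rw [hl, if_neg hy0]
    simp only [Pi.div_apply, Pi.neg_apply, id]
    field_simp
    ring
  have hd : EqOn (deriv (fun y => Pz (y ^ 2) * cexp (-H y))) 0 {y : ℂ | |y.re| < Real.pi} := by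
    intro y hy
    by_cases hy0 : y = 0
    · have hcont : ContinuousAt (deriv (fun y => Pz (y ^ 2) * cexp (-H y))) y :=
        ((hF.deriv hUo).continuousOn).continuousAt (hUo.mem_nhds hy)
      have hne : deriv (fun y => Pz (y ^ 2) * cexp (-H y)) =ᶠ[𝓝[≠] y] fun _ => (0 : ℂ) := by
        filter_upwards [nhdsWithin_le_nhds (hUo.mem_nhds hy), self_mem_nhdsWithin] with z hz hz0
        exact hd0 z hz (by rw [← hy0]; exact hz0)
      exact ((hcont.eventuallyEq_nhds_iff_eventuallyEq_nhdsNE continuousAt_const).1 hne).eq_of_nhds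
    · exact hd0 y hy hy0
  intro y hy
  have h0 : (0 : ℂ) ∈ {y : ℂ | |y.re| < Real.pi} := by
    show |(0 : ℂ).re| < Real.pi
    rw [Complex.zero_re, abs_zero]
    exact Real.pi_pos
  have h1 := hUo.is_const_of_deriv_eq_zero hUc.isPreconnected hF hd hy h0
  have h2 : Pz (y ^ 2) * cexp (-H y) = 1 := by
    refine h1.trans ?_
    rw [hH0, zero_pow two_ne_zero, Pz_zero, neg_zero, Complex.exp_zero, mul_one]
  have h3 : cexp (-H y) * cexp (H y) = 1 := by
    rw [← Complex.exp_add, neg_add_cancel, Complex.exp_zero]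
  calc Pz (y ^ 2) = Pz (y ^ 2) * (cexp (-H y) * cexp (H y)) := by rw [h3, mul_one]
    _ = (Pz (y ^ 2) * cexp (-H y)) * cexp (H y) := by ring
    _ = cexp (H y) := by rw [h2, one_mul]

private theorem StrD_arctan {x : ℝ} (hx : 0 ≤ x) : x / (1 + x ^ 2) ≤ Real.arctan x := by
  have h0 : 0 ≤ Real.arctan x := Real.arctan_nonneg.2 hx
  have h1 : Real.sin (Real.arctan x) * Real.cos (Real.arctan x) = x / (1 + x ^ 2) := by
    rw [Real.sin_arctan, Real.cos_arctan]
    have h2 : √(1 + x ^ 2) * √(1 + x ^ 2) = 1 + x ^ 2 := Real.mul_self_sqrt (by positivity)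
    rw [div_mul_div_comm, mul_one, h2]
  rw [← h1]
  have h3 : Real.sin (Real.arctan x) ≤ Real.arctan x := Real.sin_le h0
  have h4 := Real.cos_le_one (Real.arctan x)
  have h5 := (Real.cos_arctan_pos x).le
  calc Real.sin (Real.arctan x) * Real.cos (Real.arctan x)
      ≤ Real.arctan x * Real.cos (Real.arctan x) := mul_le_mul_of_nonneg_right h3 h5
    _ ≤ Real.arctan x * 1 := mul_le_mul_of_nonneg_left h4 h0
    _ = Real.arctan x := mul_one _

private theorem StrD_tanh {b : ℝ} (hb1 : b ≤ 1) : Real.tanh b ≤ 7617 / 10000 := by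
  have hE := Real.exp_pos b
  have hE' := Real.exp_pos (-b)
  have h1 : Real.exp b * Real.exp (-b) = 1 := by
    rw [← Real.exp_add, add_neg_cancel, Real.exp_zero]
  have h2 : Real.exp b ≤ Real.exp 1 := Real.exp_le_exp.2 hb1
  have h3 := Real.exp_one_lt_d9
  have h4 : Real.exp b ≤ 2.7182818286 := by linarith
  rw [Real.tanh_eq, div_le_iff₀ (by positivity)]
  have h5 : Real.exp b * Real.exp b ≤ 73928 / 10000 := by
    have h6 : Real.exp b * Real.exp b ≤ 2.7182818286 * 2.7182818286 :=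
      mul_le_mul h4 h4 hE.le (by norm_num)
    refine h6.trans ?_
    norm_num
  have h7 : 2383 / 10000 * Real.exp b ≤ 17617 / 10000 * Real.exp (-b) := by
    have h8 : Real.exp b * (2383 / 10000 * Real.exp b) ≤
        Real.exp b * (17617 / 10000 * Real.exp (-b)) := by
      have h9 : Real.exp b * (17617 / 10000 * Real.exp (-b)) = 17617 / 10000 := by
        rw [mul_left_comm, h1, mul_one]
      rw [h9]
      nlinarith
    exact le_of_mul_le_mul_left h8 hE
  linarith

/-- Proof: `(π / 2) tanh b - arctan (2 b / π)`: for `b ≤ 1` it is `≤ (π / 2) tanh 1 ≤ 1.2` (`tanh 1 ≤ 0.7617`, e.g.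
`tanh 1 = (e² - 1) / (e² + 1)`, `e² ≤ 7.3892`); for `b ≥ 1` it is `≤ π / 2 - arctan (2 / π) ≤ 1.5708 - 0.45`
(`arctan x ≥ x / (1 + x²)`, `2 / π ≥ 0.63`). -/
theorem edge_arg {b : ℝ} (hb : 0 ≤ b) :
    Real.pi / 2 * Real.tanh b - Real.arctan (2 * b / Real.pi) ≤ 6 / 5 := by
  have hpi := Real.pi_pos
  have hpi2 := Real.pi_lt_d4
  have hpi3 := Real.pi_gt_d4
  rcases le_or_gt b 1 with h | h
  · have h1 := StrD_tanh h
    have h2 : 0 ≤ Real.arctan (2 * b / Real.pi) := Real.arctan_nonneg.2 (by positivity)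
    have h3 : Real.pi / 2 * Real.tanh b ≤ Real.pi / 2 * (7617 / 10000) :=
      mul_le_mul_of_nonneg_left h1 (by positivity)
    linarith
  · have h1 := (Real.tanh_lt_one b).le
    have h3 : Real.pi / 2 * Real.tanh b ≤ Real.pi / 2 * 1 :=
      mul_le_mul_of_nonneg_left h1 (by positivity)
    have h4 : (63 / 100 : ℝ) ≤ 2 * b / Real.pi := by
      rw [le_div_iff₀ hpi]
      linarith
    have h5 : Real.arctan (63 / 100) ≤ Real.arctan (2 * b / Real.pi) := Real.arctan_mono h4
    have h6 := StrD_arctan (x := 63 / 100) (by norm_num)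
    norm_num at h6
    have h7 : (2 / 5 : ℝ) ≤ Real.arctan (63 / 100) := by
      refine le_trans ?_ h6
      norm_num
    linarith

/-- a path in the strip: the derivative of the imaginary part -/
private theorem StrD_im {H : ℂ → ℂ} (hd : ∀ y : ℂ, |y.re| < Real.pi → HasDerivAt H (hl y) y)
    (p v : ℂ) (t : ℝ) (ht : |(p + t * v).re| < Real.pi) :
    HasDerivAt (fun t : ℝ => (H (p + t * v)).im) (hl (p + t * v) * v).im t := by
  have h1 : HasDerivAt (fun t : ℝ => p + (t : ℂ) * v) v t := by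
    have h2 := ((Complex.ofRealCLM.hasDerivAt (x := t)).mul_const v).const_add p
    simpa using h2
  have h3 : HasDerivAt (fun t : ℝ => H (p + t * v)) (hl (p + t * v) * v) t := by
    have h4 := HasDerivAt.scomp (h := fun t : ℝ => p + (t : ℂ) * v) (g₁ := H) t (hd _ ht) h1
    rw [smul_eq_mul, mul_comm] at h4
    exact h4
  exact (Complex.imCLM.hasFDerivAt.comp_hasDerivAt t h3)

private theorem StrD_const {f : ℝ → ℝ} {b : ℝ} (hb : 0 ≤ b)
    (hf : ∀ t ∈ Icc (0 : ℝ) b, HasDerivAt f 0 t) : f b = f 0 :=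
  constant_of_has_deriv_right_zero (fun t ht => (hf t ht).continuousAt.continuousWithinAt)
    (fun t ht => (hf t ⟨ht.1, ht.2.le⟩).hasDerivWithinAt) b ⟨hb, le_rfl⟩

private theorem StrD_tanh_deriv (t : ℝ) : HasDerivAt Real.tanh (1 / Real.cosh t ^ 2) t := by
  have h1 : Real.tanh = fun t => Real.sinh t / Real.cosh t := by
    funext t
    exact Real.tanh_eq_sinh_div_cosh t
  rw [h1]
  have hc : Real.cosh t ≠ 0 := (Real.cosh_pos t).ne'
  refine ((Real.hasDerivAt_sinh t).div (Real.hasDerivAt_cosh t) hc).congr_deriv ?_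
  have h2 := Real.cosh_sq t
  congr 1
  linear_combination h2

/-- Proof: `H` of `exists_H`. (i) `Im H (i b) = 0`: the derivative of `b ↦ H (i b)` is `I hl (i b)`, with imaginary
part `Re hl (i b) = 0` (`hl_imag`; `hl 0 = 0`). (ii) `t ↦ Im H (t + i b)` is nondecreasing on `[0, π / 2]`
(`hl_im_nonneg`). (iii) `Im H (π / 2 + i b) = (π / 2) tanh b - arctan (2 b / π)`: both sides vanish at `b = 0`
(`Im H` is `0` on the reals, `hl_real`) and have the same derivative `Re hl (π / 2 + i b)` (`hl_edge`).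
So `0 ≤ Im H (a + i b) ≤ 6 / 5` (`edge_arg`). -/
theorem arg_H {H : ℂ → ℂ} (h0 : H 0 = 0) (hd : ∀ y : ℂ, |y.re| < Real.pi → HasDerivAt H (hl y) y)
    {a b : ℝ} (ha : 0 ≤ a) (ha' : a ≤ Real.pi / 2) (hb : 0 ≤ b) :
    0 ≤ (H ((a : ℂ) + b * I)).im ∧ (H ((a : ℂ) + b * I)).im ≤ 6 / 5 := by
  have hpi := Real.pi_pos
  -- the reals
  have e1 : (H ((Real.pi / 2 : ℝ) : ℂ)).im = 0 := by
    have h1 := StrD_const (f := fun t : ℝ => (H (0 + t * 1)).im) (b := Real.pi / 2)
      (by linarith) (fun t ht => by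
        have h2 : ((0 : ℂ) + t * 1).re = t := by simp
        have h3 := StrD_im hd 0 1 t (by
          rw [h2, abs_of_nonneg ht.1]
          linarith [ht.2])
        have h4 : (hl (0 + (t : ℂ) * 1) * 1).im = 0 := by
          rw [mul_one, zero_add, mul_one]
          exact hl_real t
        rw [h4] at h3
        exact h3)
    simp only [zero_add, mul_one, Complex.ofReal_zero, h0, Complex.zero_im] at h1
    exact h1
  -- the imaginary axis
  have e2 : (H ((b : ℂ) * I)).im = 0 := by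
    have h1 := StrD_const (f := fun t : ℝ => (H (0 + t * I)).im) hb (fun t ht => by
        have h2 : ((0 : ℂ) + t * I).re = 0 := by simp
        have h3 := StrD_im hd 0 I t (by
          rw [h2, abs_zero]
          exact hpi)
        have h4 : (hl (0 + (t : ℂ) * I) * I).im = 0 := by
          rw [zero_add, Complex.mul_I_im]
          rcases ht.1.eq_or_lt with h5 | h5
          · rw [← h5, Complex.ofReal_zero, zero_mul, hl, if_pos rfl, Complex.zero_re]
          · exact (hl_imag h5).1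
        rw [h4] at h3
        exact h3)
    simp only [zero_add, Complex.ofReal_zero, zero_mul, h0, Complex.zero_im] at h1
    exact h1
  -- the edge
  have e3 : (H (((Real.pi / 2 : ℝ) : ℂ) + b * I)).im =
      Real.pi / 2 * Real.tanh b - Real.arctan (2 * b / Real.pi) := by
    have h1 := StrD_const (f := fun t : ℝ => (H (((Real.pi / 2 : ℝ) : ℂ) + t * I)).im -
      (Real.pi / 2 * Real.tanh t - Real.arctan (2 * t / Real.pi))) hb (fun t ht => by
        have h2 : (((Real.pi / 2 : ℝ) : ℂ) + t * I).re = Real.pi / 2 := by simp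
        have h3 := StrD_im hd ((Real.pi / 2 : ℝ) : ℂ) I t (by
          rw [h2, abs_of_pos (by positivity)]
          linarith)
        rw [Complex.mul_I_im, (hl_edge ht.1).2] at h3
        have h4 : HasDerivAt (fun t : ℝ => 2 * t / Real.pi) (2 * 1 / Real.pi) t :=
          ((hasDerivAt_id t).const_mul 2).div_const Real.pi
        have h5 := h3.sub (((StrD_tanh_deriv t).const_mul (Real.pi / 2)).sub h4.arctan)
        refine h5.congr_deriv ?_
        have h6 : 1 / (1 + (2 * t / Real.pi) ^ 2) * (2 * 1 / Real.pi) =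
            Real.pi / 2 / ((Real.pi / 2) ^ 2 + t ^ 2) := by
          have h7 : (0 : ℝ) < 1 + (2 * t / Real.pi) ^ 2 := by positivity
          have h8 : (0 : ℝ) < (Real.pi / 2) ^ 2 + t ^ 2 := by positivity
          rw [div_mul_div_comm, div_eq_div_iff (by positivity) h8.ne']
          field_simp
        rw [h6]
        ring)
    have h9 : Real.arctan (2 * 0 / Real.pi) = 0 := by
      rw [mul_zero, zero_div, Real.arctan_zero]
    simp only [Complex.ofReal_zero, zero_mul, add_zero, e1, Real.tanh_zero, mul_zero, zero_div,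
      Real.arctan_zero, sub_zero] at h1
    linarith
  -- monotone along horizontal lines
  have e4 : MonotoneOn (fun t : ℝ => (H ((b : ℂ) * I + t * 1)).im) (Icc 0 (Real.pi / 2)) := by
    have h1 : ∀ t ∈ Icc (0 : ℝ) (Real.pi / 2),
        HasDerivAt (fun t : ℝ => (H ((b : ℂ) * I + t * 1)).im)
          (hl ((b : ℂ) * I + t * 1) * 1).im t := by
      intro t ht
      have h2 : ((b : ℂ) * I + t * 1).re = t := by simp
      exact StrD_im hd ((b : ℂ) * I) 1 t (by
        rw [h2, abs_of_nonneg ht.1]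
        linarith [ht.2])
    refine monotoneOn_of_deriv_nonneg (convex_Icc _ _)
      (fun t ht => (h1 t ht).continuousAt.continuousWithinAt)
      (fun t ht => (h1 t (interior_subset ht)).differentiableAt.differentiableWithinAt) ?_
    intro t ht
    have ht' := interior_subset ht
    rw [(h1 t ht').deriv, mul_one, mul_one, add_comm]
    exact hl_im_nonneg ht'.1 ht'.2 hb
  have m0 : (0 : ℝ) ∈ Icc (0 : ℝ) (Real.pi / 2) := ⟨le_rfl, by linarith⟩
  have m1 : a ∈ Icc (0 : ℝ) (Real.pi / 2) := ⟨ha, ha'⟩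
  have m2 : Real.pi / 2 ∈ Icc (0 : ℝ) (Real.pi / 2) := ⟨by linarith, le_rfl⟩
  have f1 := e4 m0 m1 ha
  have f2 := e4 m1 m2 ha'
  simp only [Complex.ofReal_zero, add_zero, mul_one, e2] at f1
  simp only [mul_one] at f2
  rw [add_comm ((b : ℂ) * I) ((Real.pi / 2 : ℝ) : ℂ), e3] at f2
  rw [add_comm ((b : ℂ) * I) (a : ℂ)] at f1 f2
  exact ⟨f1, f2.trans (edge_arg hb)⟩

private theorem StrD_pos {y : ℂ} (h : |y.re| ≤ Real.pi / 2) (h1 : 0 ≤ y.re) (h2 : 0 ≤ y.im) :
    ‖Pz (y ^ 2)‖ / 4 ≤ (Pz (y ^ 2)).re := by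
  obtain ⟨H, H0, Hd, HP⟩ := exists_H
  have hpi := Real.pi_pos
  rw [HP y (by linarith)]
  have h3 := arg_H H0 Hd h1 (by rwa [abs_of_nonneg h1] at h) h2
  rw [Complex.re_add_im] at h3
  rw [Complex.norm_exp, Complex.exp_re]
  have h4 := Real.one_sub_sq_div_two_le_cos (x := (H y).im)
  have h5 : (1 : ℝ) / 4 ≤ Real.cos (H y).im := by
    have h6 : (H y).im ^ 2 ≤ (6 / 5) ^ 2 := pow_le_pow_left₀ h3.1 h3.2 2
    norm_num at h6
    linarith
  have h7 := mul_le_mul_of_nonneg_left h5 (Real.exp_pos (H y).re).le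
  linarith

/-- THE ARGUMENT. Proof: `x = y²`, `Re y = sre x ≥ 0` (`exists_sqrt`). If `Im y ≥ 0`: `Pz x = exp (H y)`,
`Re (Pz x) = ‖Pz x‖ cos (Im (H y)) ≥ ‖Pz x‖ (1 - (6/5)² / 2) ≥ ‖Pz x‖ / 4` (`Real.one_sub_sq_div_two_le_cos`).
If `Im y < 0`: the same for `conj y`, `conj x`, and `Pz_conj`. -/
theorem Pz_arg {x : ℂ} (h : sre x ≤ Real.pi / 2) : ‖Pz x‖ / 4 ≤ (Pz x).re := by
  obtain ⟨y, hy, hre⟩ := exists_sqrt x
  have h0 : 0 ≤ y.re := by
    rw [hre]
    exact Real.sqrt_nonneg _
  have h1 : |y.re| ≤ Real.pi / 2 := by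
    rw [abs_of_nonneg h0, hre]
    exact h
  rcases le_total 0 y.im with h2 | h2
  · rw [← hy]
    exact StrD_pos h1 h0 h2
  · have h3 := StrD_pos (y := conj y) (by rwa [Complex.conj_re]) (by rwa [Complex.conj_re])
      (by rw [Complex.conj_im]; linarith)
    rw [← map_pow, hy, Pz_conj, Complex.conj_re, RCLike.norm_conj] at h3
    exact h3

end Pool.Agent.MP_ae5b4e_an_TI
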