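import Pool.Agent.Lib.MP_ae5b4e_an_TI.StrE

/-!
# POR (iii), N2, TYPE I, trap (E3): strip facts on a slice
-/

set_option autoImplicit false

noncomputable section

namespace Pool.Agent.MP_ae5b4e_an_TI

open Complex Set Filter Topology Metric
open Pool.Agent.MP_ae5b4e_an_WB
open Pool.Agent.MP_ae5b4e_an_T
open Pool.Agent.MP_ae5b4e_an_M (S1 C1f Gf)

variable {q : ℂ → ℂ} {C γ v : ℝ} {f : ℂ → ℂ}

theorem sl_w_le (h : Sl q C γ v f) {τ : ℂ} (hτ : τ ∈ Hp v)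
    (hs : sre (Xf q γ f τ) ≤ Real.pi / 2) : ‖(γ : ℂ) ^ 2 * q (f τ)‖ ≤ Real.exp 2 := by
  rw [← Xf_Pz h hτ]
  exact w_le hs

theorem sl_w_edge (h : Sl q C γ v f) {τ : ℂ} (hτ : τ ∈ Hp v)
    (hs : sre (Xf q γ f τ) = Real.pi / 2) : Real.exp 2 / 4 ≤ ‖(γ : ℂ) ^ 2 * q (f τ)‖ := by
  rw [← Xf_Pz h hτ]
  exact w_edge hs

theorem sl_w_ge (h : Sl q C γ v f) {τ : ℂ} (hτ : τ ∈ Hp v)
    (hs : sre (Xf q γ f τ) ≤ Real.pi / 2) :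
    min 1 ‖Xf q γ f τ‖ / 576 ≤ ‖(γ : ℂ) ^ 2 * q (f τ)‖ := by
  rw [← Xf_Pz h hτ]
  exact w_ge hs

theorem sl_der_ne (h : Sl q C γ v f) {τ : ℂ} (hτ : τ ∈ Hp v) : deriv f τ ≠ 0 := by
  intro h0
  have := der_Pz h hτ
  rw [h0, zero_mul] at this
  exact zero_ne_one this

theorem sl_inv (h : Sl q C γ v f) {τ : ℂ} (hτ : τ ∈ Hp v) :
    (deriv f τ)⁻¹ = Pz (Xf q γ f τ) :=
  inv_eq_of_mul_eq_one_right (der_Pz h hτ)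

/-- all facts on the derivative with one absolute constant `A`: `‖f'‖ ≤ 4 Re f'`, `1 / A ≤ Re f'`,
`‖1 / f' - 1‖ ≤ A min 1 ‖γ² q‖`, `‖f' - 1‖ ≤ A Re f' min 1 ‖γ² q‖` -/
theorem sl_der : ∃ A : ℝ, 1 ≤ A ∧ ∀ (q : ℂ → ℂ) (C γ v : ℝ) (f : ℂ → ℂ), Sl q C γ v f →
    ∀ τ ∈ Hp v, sre (Xf q γ f τ) ≤ Real.pi / 2 →
      ‖deriv f τ‖ ≤ 4 * (deriv f τ).re ∧ 1 / A ≤ (deriv f τ).re ∧
      ‖(deriv f τ)⁻¹ - 1‖ ≤ A * min 1 ‖(γ : ℂ) ^ 2 * q (f τ)‖ ∧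
      ‖deriv f τ - 1‖ ≤ A * (deriv f τ).re * min 1 ‖(γ : ℂ) ^ 2 * q (f τ)‖ := by
  obtain ⟨C1, hC1, h1⟩ := Pz_le
  obtain ⟨C2, hC2, h2⟩ := Pz_sub_one
  refine ⟨4 * (C1 + C2), by linarith, ?_⟩
  intro q C γ v f h τ hτ hs
  have hne := sl_der_ne h hτ
  have hn : 0 < ‖deriv f τ‖ := norm_pos_iff.2 hne
  have hd := der_strip h hτ hs
  have hre : 0 < (deriv f τ).re := by linarith
  have e1 : ‖deriv f τ‖ ≤ 4 * (deriv f τ).re := by linarith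
  have e3 : ‖(deriv f τ)⁻¹ - 1‖ ≤ C2 * min 1 ‖(γ : ℂ) ^ 2 * q (f τ)‖ := by
    rw [sl_inv h hτ, ← Xf_Pz h hτ]
    exact h2 _ hs
  have hmin : 0 ≤ min 1 ‖(γ : ℂ) ^ 2 * q (f τ)‖ := le_min zero_le_one (norm_nonneg _)
  have e2 : 1 ≤ C1 * ‖deriv f τ‖ := by
    have h3 := h1 _ hs
    rw [← sl_inv h hτ, norm_inv] at h3
    calc (1 : ℝ) = ‖deriv f τ‖⁻¹ * ‖deriv f τ‖ := (inv_mul_cancel₀ hn.ne').symm
      _ ≤ C1 * ‖deriv f τ‖ := mul_le_mul_of_nonneg_right h3 hn.le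
  refine ⟨e1, ?_, e3.trans (mul_le_mul_of_nonneg_right (by linarith) hmin), ?_⟩
  · rw [div_le_iff₀ (by linarith)]
    have h4 : C1 * ‖deriv f τ‖ ≤ C1 * (4 * (deriv f τ).re) :=
      mul_le_mul_of_nonneg_left e1 (by linarith)
    nlinarith [mul_pos hre (by linarith : (0 : ℝ) < C2)]
  · have e4 : deriv f τ - 1 = -(deriv f τ * ((deriv f τ)⁻¹ - 1)) := by
      rw [mul_sub, mul_inv_cancel₀ hne]
      ring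
    rw [e4, norm_neg, norm_mul]
    calc ‖deriv f τ‖ * ‖(deriv f τ)⁻¹ - 1‖ ≤
        (4 * (deriv f τ).re) * (C2 * min 1 ‖(γ : ℂ) ^ 2 * q (f τ)‖) :=
          mul_le_mul e1 e3 (norm_nonneg _) (by linarith)
      _ ≤ 4 * (C1 + C2) * (deriv f τ).re * min 1 ‖(γ : ℂ) ^ 2 * q (f τ)‖ := by
          have h5 : 0 ≤ (deriv f τ).re * min 1 ‖(γ : ℂ) ^ 2 * q (f τ)‖ := mul_nonneg hre.le hmin
          nlinarith [mul_nonneg h5 (by linarith : (0 : ℝ) ≤ C1)]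

end Pool.Agent.MP_ae5b4e_an_TI
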