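import Pool.Agent.Lib.MP_ae5b4e_an_TI.StrE
import Pool.Agent.Lib.MP_ae5b4e_an_TI.Defs

/-!
# POR (iii), N2, TYPE I, trap (E3): the strip facts with one constant
-/

set_option autoImplicit false

noncomputable section

namespace Pool.Agent.MP_ae5b4e_an_TI

open Complex

theorem exists_StripC : ∃ A : ℝ, StripC A := by
  obtain ⟨C, hC1, hC⟩ := Pz_sub_one
  have he : (0 : ℝ) < Real.exp 2 := Real.exp_pos 2
  refine ⟨C + 4 + Real.exp 2, ⟨by linarith, fun x hx => ?_, fun x hx => ?_, fun x hx => ?_⟩⟩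
  · have h1 := Pz_arg hx
    have h2 : 0 ≤ (Pz x).re := (div_nonneg (norm_nonneg _) (by norm_num)).trans h1
    calc ‖Pz x‖ ≤ 4 * (Pz x).re := by linarith
      _ ≤ (C + 4 + Real.exp 2) * (Pz x).re := mul_le_mul_of_nonneg_right (by linarith) h2
  · exact (w_le hx).trans (by linarith)
  · exact (hC x hx).trans (mul_le_mul_of_nonneg_right (by linarith)
      (le_min zero_le_one (norm_nonneg _)))

end Pool.Agent.MP_ae5b4e_an_TI
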