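import Pool.Agent.Lib.MP_ae5b4e_an_TI.Defs

/-!
# The trap: passage to the zoom
-/

set_option autoImplicit false

noncomputable section

namespace Pool.Agent.MP_ae5b4e_an_TI

open Complex Set Filter Topology Metric
open Pool.Agent.MP_ae5b4e_an_T
open Pool.Agent.MP_ae5b4e_an_PK (Asy)
open Pool.Agent.MP_ae5b4e_an_M (S1 C1f Gf)
open PorTR (Hm)

/-- the place with zoom coordinate `z` -/
def zp (x0 D : ℝ) (B : ℕ) (z : ℂ) : ℂ := (x0 : ℂ) - D * I + ((D / B : ℝ) : ℂ) * z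

theorem zp_im (x0 D : ℝ) (B : ℕ) (z : ℂ) : (zp x0 D B z).im = -D + D / B * z.im := by
  unfold zp
  simp

theorem zp_zF {f : ℂ → ℂ} {x0 D : ℝ} {B : ℕ} (hD : 0 < D) (hB : 0 < B) (τ : ℂ) :
    zp x0 D B (zF f x0 D B τ) = f (zp x0 D B τ) := by
  have h1 : ((D / B : ℝ) : ℂ) ≠ 0 := by
    have : (0 : ℝ) < B := by exact_mod_cast hB
    exact_mod_cast (div_pos hD this).ne'
  unfold zp zF
  field_simp
  ring

theorem zp_mem {x0 D v : ℝ} {B : ℕ} (hD : 0 < D) (hB : 0 < B) {τ : ℂ} :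
    zp x0 D B τ ∈ Hp v ↔ τ.im < (D - v) * B / D := by
  have hB' : (0 : ℝ) < B := by exact_mod_cast hB
  show (zp x0 D B τ).im < -v ↔ _
  rw [zp_im, lt_div_iff₀ hD]
  constructor
  · intro h
    have h1 : D / B * τ.im < D - v := by linarith
    have h2 : D / B * τ.im * B < (D - v) * B := mul_lt_mul_of_pos_right h1 hB'
    have h3 : D / B * τ.im * B = τ.im * D := by field_simp
    linarith
  · intro h
    have h3 : D / B * τ.im * B = τ.im * D := by field_simp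
    have h2 : D / B * τ.im * B < (D - v) * B := by linarith
    have h1 : D / B * τ.im < D - v := lt_of_mul_lt_mul_right h2 hB'.le
    linarith

theorem zp_Hm {x0 D : ℝ} {B : ℕ} (hD : 0 < D) (hB : 0 < B) {z : ℂ} :
    zp x0 D B z ∈ Hm ↔ z.im < B := by
  have h := zp_mem (x0 := x0) (v := 0) hD hB (τ := z)
  have h1 : zp x0 D B z ∈ Hp 0 ↔ zp x0 D B z ∈ Hm := by
    show (zp x0 D B z).im < -0 ↔ (zp x0 D B z).im < 0
    rw [neg_zero]
  rw [← h1, h, sub_zero, mul_div_cancel_left₀ _ hD.ne']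

theorem zp_hasDerivAt (x0 D : ℝ) (B : ℕ) (z : ℂ) :
    HasDerivAt (zp x0 D B) ((D / B : ℝ) : ℂ) z := by
  unfold zp
  have h := ((hasDerivAt_id z).const_mul ((D / B : ℝ) : ℂ)).const_add ((x0 : ℂ) - D * I)
  rwa [mul_one] at h

theorem zF_hasDerivAt {f : ℂ → ℂ} {v x0 D : ℝ} {B : ℕ} (hf : DifferentiableOn ℂ f (Hp v))
    (hD : 0 < D) (hB : 0 < B) {τ : ℂ} (hτ : τ.im < (D - v) * B / D) :
    HasDerivAt (zF f x0 D B) (deriv f (zp x0 D B τ)) τ := by
  have hB' : (0 : ℝ) < B := by exact_mod_cast hB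
  have h1 : ((D / B : ℝ) : ℂ) ≠ 0 := by exact_mod_cast (div_pos hD hB').ne'
  have hop : IsOpen (Hp v) := isOpen_lt Complex.continuous_im continuous_const
  have h2 : HasDerivAt f (deriv f (zp x0 D B τ)) (zp x0 D B τ) :=
    (hf.differentiableAt (hop.mem_nhds ((zp_mem hD hB).2 hτ))).hasDerivAt
  have h3 := ((h2.comp τ (zp_hasDerivAt x0 D B τ)).sub_const ((x0 : ℂ) - D * I)).div_const
    ((D / B : ℝ) : ℂ)
  rw [mul_div_cancel_right₀ _ h1] at h3
  exact h3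

theorem Xf_zoom {q f : ℂ → ℂ} {γ κ v x0 D : ℝ} {B : ℕ} (hf : DifferentiableOn ℂ f (Hp v))
    (hD : 0 < D) (hB : 0 < B) (hκ : 0 < κ) {τ : ℂ} (hτ : τ.im < (D - v) * B / D) :
    Xf (zg q κ x0 D B) (γ / κ) (zF f x0 D B) τ = Xf q γ f (zp x0 D B τ) := by
  have h1 : zg q κ x0 D B (zF f x0 D B τ) = (κ : ℂ) ^ 2 * q (f (zp x0 D B τ)) := by
    rw [← zp_zF (f := f) (x0 := x0) hD hB τ]
    rfl
  have hκ' : (κ : ℂ) ≠ 0 := by exact_mod_cast hκ.ne'
  unfold Xf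
  rw [h1, (zF_hasDerivAt hf hD hB hτ).deriv]
  push_cast
  field_simp

/-- the zoom of a label -/
theorem zoom_Zl {q : ℂ → ℂ} {C γ v : ℝ} {f : ℂ → ℂ} (h : Sl q C γ v f) (ha : Asy f)
    {κ x0 D : ℝ} {B : ℕ} (hκ : 0 < κ) (hD : 0 < D) (hB : 0 < B) (h1 : κ ≤ γ) (h2 : γ ≤ 2 * κ) :
    Zl (zg q κ x0 D B) B (γ / κ) ((D - v) * B / D) (zF f x0 D B) := by
  have hB' : (0 : ℝ) < B := by exact_mod_cast hB
  have hmu : (0 : ℝ) < D / B := div_pos hD hB'
  have hmu' : ((D / B : ℝ) : ℂ) ≠ 0 := by exact_mod_cast hmu.ne'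
  refine ⟨?_, ?_, ?_, ?_, ?_, ?_, ?_, ?_⟩
  · rwa [le_div_iff₀ hκ, one_mul]
  · rwa [div_le_iff₀ hκ]
  · intro z hz
    have hz' : zp x0 D B z ∈ Hm := (zp_Hm hD hB).2 hz
    have hop : IsOpen Hm := isOpen_lt Complex.continuous_im continuous_const
    have h3 : DifferentiableAt ℂ q (zp x0 D B z) := h.qd.differentiableAt (hop.mem_nhds hz')
    have h4 := (h3.hasDerivAt.comp z (zp_hasDerivAt x0 D B z)).const_mul ((κ : ℂ) ^ 2)
    exact h4.differentiableAt.differentiableWithinAt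
  · exact fun τ hτ => (zF_hasDerivAt h.fd hD hB hτ).differentiableAt.differentiableWithinAt
  · intro τ hτ
    have h3 : f (zp x0 D B τ) ∈ Hm := by
      have h4 := h.dep _ ((zp_mem (x0 := x0) hD hB).2 hτ)
      have h5 : (zp x0 D B τ).im < -v := (zp_mem (x0 := x0) hD hB).2 hτ
      show (f (zp x0 D B τ)).im < 0
      linarith
    rw [← zp_zF (f := f) (x0 := x0) hD hB τ] at h3
    exact (zp_Hm hD hB).1 h3
  · intro τ hτ
    rw [Xf_zoom h.fd hD hB hκ hτ]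
    exact h.s1 _ ((zp_mem hD hB).2 hτ)
  · intro τ hτ
    rw [Xf_zoom h.fd hD hB hκ hτ, (zF_hasDerivAt h.fd hD hB hτ).deriv]
    exact der_Pz h ((zp_mem hD hB).2 hτ)
  · intro ε hε
    obtain ⟨R, hR⟩ := ha (ε * (D / B)) (mul_pos hε hmu)
    refine ⟨(R - D) / (D / B), fun τ hτ => ?_⟩
    have h3 : R ≤ -(zp x0 D B τ).im := by
      rw [zp_im]
      rw [div_le_iff₀ hmu] at hτ
      linarith
    have h4 := hR _ h3
    have h5 : zF f x0 D B τ - τ = (f (zp x0 D B τ) - zp x0 D B τ) / ((D / B : ℝ) : ℂ) := by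
      unfold zF zp
      field_simp
      ring
    rw [h5, norm_div, Complex.norm_real, Real.norm_eq_abs, abs_of_pos hmu, div_le_iff₀ hmu]
    exact h4

/-- the zoom of the field -/
theorem zoom_Zf {q : ℂ → ℂ} (hqd : DifferentiableOn ℂ q Hm) {κ x0 D N : ℝ} {B : ℕ} (hB : 0 < B)
    (hD : 4 ≤ D) (hκ : κ ^ 2 * N = 1)
    (hN : ∀ z : ℂ, 2 ≤ -z.im → ‖q z‖ ≤ (1 + 1 / B) * N * (D / -z.im) ^ B) :
    Zf B (zg q κ x0 D B) := by
  have hB' : (0 : ℝ) < B := by exact_mod_cast hB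
  have hD0 : 0 < D := by linarith
  have hmu : (0 : ℝ) < D / B := div_pos hD0 hB'
  refine ⟨?_, ?_⟩
  · intro z hz
    have hz' : zp x0 D B z ∈ Hm := (zp_Hm hD0 hB).2 hz
    have hop : IsOpen Hm := isOpen_lt Complex.continuous_im continuous_const
    have h3 : DifferentiableAt ℂ q (zp x0 D B z) := hqd.differentiableAt (hop.mem_nhds hz')
    have h4 := (h3.hasDerivAt.comp z (zp_hasDerivAt x0 D B z)).const_mul ((κ : ℂ) ^ 2)
    exact h4.differentiableAt.differentiableWithinAt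
  · intro z hz
    have h1 : -(zp x0 D B z).im = D * (1 - z.im / B) := by
      rw [zp_im]
      field_simp
      ring
    have h2 : 1 / 2 ≤ 1 - z.im / B := by
      have : z.im / B ≤ 1 / 2 := by
        rw [div_le_iff₀ hB']
        linarith
      linarith
    have h3 : 2 ≤ -(zp x0 D B z).im := by
      rw [h1]
      nlinarith
    have h4 := hN _ h3
    have h5 : D / -(zp x0 D B z).im = 1 / (1 - z.im / B) := by
      rw [h1]
      field_simp
    rw [h5] at h4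
    have h6 : ‖zg q κ x0 D B z‖ = κ ^ 2 * ‖q (zp x0 D B z)‖ := by
      show ‖(κ : ℂ) ^ 2 * q (zp x0 D B z)‖ = _
      rw [norm_mul, norm_pow, Complex.norm_real, Real.norm_eq_abs, sq_abs]
    rw [h6]
    calc κ ^ 2 * ‖q (zp x0 D B z)‖
        ≤ κ ^ 2 * ((1 + 1 / B) * N * (1 / (1 - z.im / B)) ^ B) :=
          mul_le_mul_of_nonneg_left h4 (sq_nonneg _)
      _ = (κ ^ 2 * N) * ((1 + 1 / B) * (1 / (1 - z.im / B)) ^ B) := by ring
      _ = (1 + 1 / B) * (1 / (1 - z.im / B)) ^ B := by rw [hκ, one_mul]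

end Pool.Agent.MP_ae5b4e_an_TI
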